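import Mathlib

/-! Banach cyclic cohomology and homology of C*-algebras: definitions. -/

set_option autoImplicit false

namespace H504C

open Finset

variable (A : Type) [NonUnitalCStarAlgebra A]

/-- bounded `(n+1)`-linear functionals -/
def Cn (n : ℕ) : Type := ContinuousMultilinearMap ℂ (fun _ : Fin (n + 1) => A) ℂ

noncomputable instance (n : ℕ) : NormedAddCommGroup (Cn A n) :=
  (ContinuousMultilinearMap.normedAddCommGroup :
    NormedAddCommGroup (ContinuousMultilinearMap ℂ (fun _ : Fin (n + 1) => A) ℂ))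

noncomputable instance (n : ℕ) : NormedSpace ℂ (Cn A n) :=
  (ContinuousMultilinearMap.normedSpace :
    NormedSpace ℂ (ContinuousMultilinearMap ℂ (fun _ : Fin (n + 1) => A) ℂ))

noncomputable instance (n : ℕ) : CoeFun (Cn A n) (fun _ => (Fin (n + 1) → A) → ℂ) :=
  ⟨fun φ => (show ContinuousMultilinearMap ℂ (fun _ : Fin (n + 1) => A) ℂ from φ)⟩

/-- the dual of the space of bounded `(n+1)`-linear functionals -/
def Dn (n : ℕ) : Type := Cn A n →L[ℂ] ℂ

noncomputable instance (n : ℕ) : NormedAddCommGroup (Dn A n) :=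
  (ContinuousLinearMap.toNormedAddCommGroup : NormedAddCommGroup (Cn A n →L[ℂ] ℂ))

noncomputable instance (n : ℕ) : NormedSpace ℂ (Dn A n) :=
  (ContinuousLinearMap.toNormedSpace : NormedSpace ℂ (Cn A n →L[ℂ] ℂ))

noncomputable instance (n : ℕ) : CoeFun (Dn A n) (fun _ => Cn A n → ℂ) :=
  ⟨fun F => (show Cn A n →L[ℂ] ℂ from F)⟩

variable {A}

/-- multiply the entries `i` and `i+1` -/
def mulAt {n : ℕ} (i : Fin (n + 1)) (a : Fin (n + 2) → A) : Fin (n + 1) → A :=
  fun j => if j < i then a j.castSucc else if j = i then a j.castSucc * a j.succ else a j.succ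

/-- `(a_{n+1} a_0, a_1, …, a_n)` -/
def mulLast {n : ℕ} (a : Fin (n + 2) → A) : Fin (n + 1) → A :=
  fun j => if j = 0 then a (Fin.last (n + 1)) * a 0 else a j.castSucc

/-- `∑_{i ≤ n} (-1)^i φ(…, a_i a_{i+1}, …)` -/
noncomputable def bpf {n : ℕ} (φ : Cn A n) (a : Fin (n + 2) → A) : ℂ :=
  ∑ i : Fin (n + 1), (-1 : ℂ) ^ (i : ℕ) * φ (mulAt i a)

/-- the Hochschild coboundary -/
noncomputable def bf {n : ℕ} (φ : Cn A n) (a : Fin (n + 2) → A) : ℂ :=
  bpf φ a + (-1 : ℂ) ^ (n + 1) * φ (mulLast a)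

/-- the signed cyclic permutation -/
noncomputable def tf {n : ℕ} (φ : Cn A n) (a : Fin (n + 1) → A) : ℂ :=
  (-1 : ℂ) ^ n * φ (fun j => a (j - 1))

variable (A)

open Classical in
/-- the Hochschild coboundary as a continuous linear map (characterised by `b φ a = bf φ a`) -/
noncomputable def b (n : ℕ) : Cn A n →L[ℂ] Cn A (n + 1) :=
  if h : ∃ L : Cn A n →L[ℂ] Cn A (n + 1), ∀ φ a, L φ a = bf φ a then h.choose else 0

open Classical in
/-- `b'` -/
noncomputable def bp (n : ℕ) : Cn A n →L[ℂ] Cn A (n + 1) :=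
  if h : ∃ L : Cn A n →L[ℂ] Cn A (n + 1), ∀ φ a, L φ a = bpf φ a then h.choose else 0

open Classical in
/-- the signed cyclic permutation (characterised by `t φ a = tf φ a`) -/
noncomputable def t (n : ℕ) : Cn A n →L[ℂ] Cn A n :=
  if h : ∃ L : Cn A n →L[ℂ] Cn A n, ∀ φ a, L φ a = tf φ a then h.choose else 0

/-- bounded traces -/
def TA : Submodule ℂ (A →L[ℂ] ℂ) where
  carrier := {f | ∀ x y : A, f (x * y) = f (y * x)}
  add_mem' {f g} hf hg x y := by
    show f (x * y) + g (x * y) = f (y * x) + g (y * x)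
    rw [hf x y, hg x y]
  zero_mem' x y := rfl
  smul_mem' c f hf x y := by
    show c * f (x * y) = c * f (y * x)
    rw [hf x y]

/-- cyclic cochains -/
def cyc (n : ℕ) : Submodule ℂ (Cn A n) where
  carrier := {φ | ∀ a : Fin (n + 1) → A, φ (fun j => a (j + 1)) = (-1 : ℂ) ^ n * φ a}
  add_mem' {φ ψ} hφ hψ a := by
    show φ _ + ψ _ = _ * (φ a + ψ a)
    rw [hφ a, hψ a, mul_add]
  zero_mem' a := by
    show (0 : ℂ) = _ * 0
    rw [mul_zero]
  smul_mem' c φ hφ a := by
    show c * φ _ = _ * (c * φ a)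
    rw [hφ a]; ring

/-- cyclic cocycles -/
noncomputable def Zc (n : ℕ) : Submodule ℂ (Cn A n) := cyc A n ⊓ LinearMap.ker (b A n).toLinearMap

/-- coboundaries of cyclic cochains -/
noncomputable def Bc : (n : ℕ) → Submodule ℂ (Cn A n)
  | 0 => ⊥
  | n + 1 => (cyc A n).map (b A n).toLinearMap

/-- Banach cyclic cohomology -/
abbrev HCc (n : ℕ) : Type := (Zc A n) ⧸ (Bc A n).submoduleOf (Zc A n)

/-- evaluation at an `(n+1)`-tuple -/
noncomputable def ev (n : ℕ) (a : Fin (n + 1) → A) : Dn A n :=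
  LinearMap.mkContinuous { toFun := fun φ => φ a, map_add' := fun _ _ => rfl, map_smul' := fun _ _ => rfl }
    (∏ i, ‖a i‖) (fun φ => by
      rw [mul_comm]
      exact ContinuousMultilinearMap.le_opNorm (show ContinuousMultilinearMap ℂ (fun _ : Fin (n + 1) => A) ℂ from φ) a)

/-- the projective tensor power of order `n+1`, realised (isometrically) as the closed linear span of the
evaluations in the dual of the space of bounded `(n+1)`-linear functionals -/
noncomputable def X (n : ℕ) : Submodule ℂ (Dn A n) :=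
  (Submodule.span ℂ (Set.range (ev A n))).topologicalClosure

open Classical in
/-- the Hochschild boundary, the transpose of `b` -/
noncomputable def bX (n : ℕ) : X A (n + 1) →L[ℂ] X A n :=
  if h : ∃ L : X A (n + 1) →L[ℂ] X A n, ∀ F φ, (L F).1 φ = F.1 (b A n φ) then h.choose else 0

open Classical in
/-- the signed cyclic permutation of the tensor power, the transpose of `t` -/
noncomputable def tX (n : ℕ) : X A n →L[ℂ] X A n :=
  if h : ∃ L : X A n →L[ℂ] X A n, ∀ F φ, (L F).1 φ = F.1 (t A n φ) then h.choose else 0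

/-- the range of `1 - t` -/
noncomputable def Rt (n : ℕ) : Submodule ℂ (X A n) :=
  LinearMap.range ((ContinuousLinearMap.id ℂ (X A n) - tX A n).toLinearMap)

/-- the cyclic quotient of the tensor power -/
abbrev Y (n : ℕ) : Type := X A n ⧸ Rt A n

open Classical in
/-- the boundary on the cyclic quotient -/
noncomputable def bY (n : ℕ) : Y A (n + 1) →L[ℂ] Y A n :=
  if h : ∃ L : Y A (n + 1) →L[ℂ] Y A n, ∀ F : X A (n + 1),
      L (Submodule.Quotient.mk F) = Submodule.Quotient.mk (bX A n F) then h.choose else 0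

/-- cycles -/
noncomputable def Zh : (n : ℕ) → Submodule ℂ (Y A n)
  | 0 => ⊤
  | n + 1 => LinearMap.ker (bY A n).toLinearMap

/-- the closure of the boundaries -/
noncomputable def Bh (n : ℕ) : Submodule ℂ (Y A n) :=
  (LinearMap.range (bY A n).toLinearMap).topologicalClosure

/-- Banach cyclic homology (in the Hausdorff sense) -/
abbrev HCh (n : ℕ) : Type := (Zh A n) ⧸ (Bh A n).submoduleOf (Zh A n)

/-- the closed linear span of the commutators -/
noncomputable def comm : Submodule ℂ A :=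
  (Submodule.span ℂ {z : A | ∃ x y : A, z = x * y - y * x}).topologicalClosure

variable {A} in
/-- ordered product -/
def prd : (n : ℕ) → (Fin (n + 1) → A) → A
  | 0, a => a 0
  | n + 1, a => prd n (Fin.init a) * a (Fin.last (n + 1))

open Classical in
/-- `mt n τ (a_0, …, a_n) = τ (a_0 ⋯ a_n)` -/
noncomputable def mt (n : ℕ) : (A →L[ℂ] ℂ) →L[ℂ] Cn A n :=
  if h : ∃ L : (A →L[ℂ] ℂ) →L[ℂ] Cn A n, ∀ τ a, L τ a = τ (prd n a) then h.choose else 0

/-- `N = 1 + t + ⋯ + t^n` -/
noncomputable def NN (n : ℕ) (φ : Cn A n) : Cn A n := ∑ k ∈ range (n + 1), (t A n)^[k] φ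

/-- vanishing of the Hochschild cohomology with coefficients in the dual -/
def HHv : Prop := ∀ (n : ℕ) (φ : Cn A (n + 1)), b A (n + 1) φ = 0 → ∃ ψ : Cn A n, b A n ψ = φ

end H504C
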