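import Pool.Agent.H504C.Defs

set_option autoImplicit false

/-! Task CA of H504C (helper526 for helper504): the maps exist. -/

namespace H504C

open Finset

variable {A : Type} [NonUnitalCStarAlgebra A]

/-- representable families of multilinear functionals -/
def Rep {V : Type} [NormedAddCommGroup V] [NormedSpace ℂ V] {m : ℕ}
    (F : V → (Fin (m + 1) → A) → ℂ) : Prop :=
  ∃ L : V →L[ℂ] Cn A m, ∀ φ a, L φ a = F φ a

theorem Rep.mk {V : Type} [NormedAddCommGroup V] [NormedSpace ℂ V] {m : ℕ}
    (F : V → (Fin (m + 1) → A) → ℂ)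
    (h1 : ∀ φ a k x y, F φ (Function.update a k (x + y)) =
      F φ (Function.update a k x) + F φ (Function.update a k y))
    (h2 : ∀ φ a k (c : ℂ) x, F φ (Function.update a k (c • x)) = c * F φ (Function.update a k x))
    (h3 : ∀ φ ψ a, F (φ + ψ) a = F φ a + F ψ a)
    (h4 : ∀ (c : ℂ) φ a, F (c • φ) a = c * F φ a)
    (h5 : ∀ φ a, ‖F φ a‖ ≤ ‖φ‖ * ∏ i, ‖a i‖) : Rep (A := A) F := by
  let M : V → ContinuousMultilinearMap ℂ (fun _ : Fin (m + 1) => A) ℂ := fun φ =>
    MultilinearMap.mkContinuous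
      { toFun := F φ
        map_update_add' := by
          intro inst a k x y
          have : inst = instDecidableEqFin (m + 1) := Subsingleton.elim _ _
          subst this
          exact h1 φ a k x y
        map_update_smul' := by
          intro inst a k c x
          have : inst = instDecidableEqFin (m + 1) := Subsingleton.elim _ _
          subst this
          exact h2 φ a k c x } ‖φ‖ (h5 φ)
  have hM : ∀ φ a, M φ a = F φ a := fun φ a => rfl
  let L0 : V →ₗ[ℂ] ContinuousMultilinearMap ℂ (fun _ : Fin (m + 1) => A) ℂ :=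
    { toFun := M
      map_add' := by
        intro φ ψ
        ext a
        rw [add_apply, hM, hM, hM, h3]
      map_smul' := by
        intro c φ
        ext a
        rw [RingHom.id_apply, smul_apply, hM, hM, h4, smul_eq_mul] }
  refine ⟨(L0.mkContinuous 1 ?_ :
    V →L[ℂ] ContinuousMultilinearMap ℂ (fun _ : Fin (m + 1) => A) ℂ), fun φ a => rfl⟩
  intro φ
  rw [one_mul]
  exact ContinuousMultilinearMap.opNorm_le_bound (norm_nonneg φ) (h5 φ)

theorem Rep.add {V : Type} [NormedAddCommGroup V] [NormedSpace ℂ V] {m : ℕ}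
    {F G : V → (Fin (m + 1) → A) → ℂ} (hF : Rep F) (hG : Rep G) :
    Rep (fun φ a => F φ a + G φ a) := by
  obtain ⟨L, hL⟩ := hF
  obtain ⟨M, hM⟩ := hG
  exact ⟨L + M, fun φ a => congrArg₂ (· + ·) (hL φ a) (hM φ a)⟩

theorem Rep.smul {V : Type} [NormedAddCommGroup V] [NormedSpace ℂ V] {m : ℕ}
    {F : V → (Fin (m + 1) → A) → ℂ} (hF : Rep F) (c : ℂ) :
    Rep (fun φ a => c * F φ a) := by
  obtain ⟨L, hL⟩ := hF
  exact ⟨c • L, fun φ a => congrArg (c * ·) (hL φ a)⟩

theorem Rep.sum {V : Type} [NormedAddCommGroup V] [NormedSpace ℂ V] {m : ℕ} {ι : Type}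
    (s : Finset ι) {F : ι → V → (Fin (m + 1) → A) → ℂ} (hF : ∀ i, Rep (F i)) :
    Rep (fun φ a => ∑ i ∈ s, F i φ a) := by
  classical
  induction s using Finset.induction_on with
  | empty =>
    refine ⟨0, fun φ a => ?_⟩
    change (0 : ℂ) = ∑ i ∈ (∅ : Finset ι), F i φ a
    rw [Finset.sum_empty]
  | insert i s hi ih =>
    have := (hF i).add ih
    simpa [Finset.sum_insert hi] using this

/-- precomposition with a substitution -/
theorem Rep.subst {n m : ℕ} (sub : (Fin (m + 1) → A) → (Fin (n + 1) → A))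
    (hs : ∀ a k, ∃ (j : Fin (n + 1)) (l : A →ₗ[ℂ] A), ∀ x,
      sub (Function.update a k x) = Function.update (sub a) j (l x))
    (hb : ∀ a, ∏ j, ‖sub a j‖ ≤ ∏ k, ‖a k‖) :
    Rep (fun (φ : Cn A n) a => φ (sub a)) := by
  apply Rep.mk
  · intro φ a k x y
    obtain ⟨j, l, hl⟩ := hs a k
    rw [hl, hl, hl, map_add]
    exact ContinuousMultilinearMap.map_update_add
      (show ContinuousMultilinearMap ℂ (fun _ : Fin (n + 1) => A) ℂ from φ) _ _ _ _
  · intro φ a k c x
    obtain ⟨j, l, hl⟩ := hs a k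
    rw [hl, hl, map_smul]
    exact ContinuousMultilinearMap.map_update_smul
      (show ContinuousMultilinearMap ℂ (fun _ : Fin (n + 1) => A) ℂ from φ) _ _ _ _
  · intro φ ψ a
    rfl
  · intro c φ a
    rfl
  · intro φ a
    refine (ContinuousMultilinearMap.le_opNorm
      (show ContinuousMultilinearMap ℂ (fun _ : Fin (n + 1) => A) ℂ from φ) (sub a)).trans ?_
    exact mul_le_mul_of_nonneg_left (hb a) (norm_nonneg φ)

theorem mulAt_update {n : ℕ} (i : Fin (n + 1)) (a : Fin (n + 2) → A) (k : Fin (n + 2)) :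
    ∃ (j : Fin (n + 1)) (l : A →ₗ[ℂ] A), ∀ x,
      mulAt i (Function.update a k x) = Function.update (mulAt i a) j (l x) := by
  rcases lt_trichotomy k i.castSucc with h | h | h
  · -- `k < i`
    refine ⟨⟨k, by have := Fin.lt_def.1 h; simp at this; omega⟩, LinearMap.id, fun x => ?_⟩
    have hk : (k : ℕ) < i := by simpa [Fin.lt_def] using h
    funext j
    simp only [mulAt, Function.update_apply, LinearMap.id_apply, Fin.ext_iff, Fin.lt_def,
      Fin.val_castSucc, Fin.val_succ]
    split_ifs <;> first | rfl | omega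
  · -- `k = i`
    subst h
    refine ⟨i, LinearMap.mulRight ℂ (a i.succ), fun x => ?_⟩
    funext j
    simp only [mulAt, Function.update_apply, LinearMap.mulRight_apply, Fin.ext_iff, Fin.lt_def,
      Fin.val_castSucc, Fin.val_succ]
    split_ifs <;> first | rfl | omega | skip
    all_goals
      have : j = i := Fin.ext (by omega)
      subst this
      rfl
  · have hk : (i : ℕ) < k := by simpa [Fin.lt_def] using h
    by_cases hk2 : (k : ℕ) = i + 1
    · refine ⟨i, LinearMap.mulLeft ℂ (a i.castSucc), fun x => ?_⟩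
      funext j
      simp only [mulAt, Function.update_apply, LinearMap.mulLeft_apply, Fin.ext_iff, Fin.lt_def,
        Fin.val_castSucc, Fin.val_succ]
      split_ifs <;> first | rfl | omega | skip
      all_goals
        have : j = i := Fin.ext (by omega)
        subst this
        rfl
    · refine ⟨⟨k - 1, by have := k.2; omega⟩, LinearMap.id, fun x => ?_⟩
      funext j
      simp only [mulAt, Function.update_apply, LinearMap.id_apply, Fin.ext_iff, Fin.lt_def,
        Fin.val_castSucc, Fin.val_succ]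
      split_ifs <;> first | rfl | omega

theorem mulAt_norm {n : ℕ} (i : Fin (n + 1)) (a : Fin (n + 2) → A) :
    ∏ j, ‖mulAt i a j‖ ≤ ∏ k, ‖a k‖ := by
  rw [Fin.prod_univ_succAbove _ i.succ]
  have h1 : ∏ j, ‖mulAt i a j‖ ≤
      ∏ j : Fin (n + 1), ((if j = i then ‖a i.succ‖ else 1) * ‖a (i.succ.succAbove j)‖) := by
    apply Finset.prod_le_prod
    · intro j _; exact norm_nonneg _
    · intro j _
      rcases lt_trichotomy j i with h | h | h
      · have e : i.succ.succAbove j = j.castSucc := by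
          apply Fin.succAbove_of_castSucc_lt
          simp only [Fin.lt_def, Fin.val_castSucc, Fin.val_succ] at h ⊢
          omega
        rw [e, if_neg h.ne, one_mul, mulAt, if_pos h]
      · subst h
        have e : j.succ.succAbove j = j.castSucc := by
          apply Fin.succAbove_of_castSucc_lt
          simp only [Fin.lt_def, Fin.val_castSucc, Fin.val_succ]
          omega
        rw [e, if_pos rfl, mulAt, if_neg (lt_irrefl _), if_pos rfl, mul_comm]
        exact norm_mul_le _ _
      · have e : i.succ.succAbove j = j.succ := by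
          apply Fin.succAbove_of_le_castSucc
          simp only [Fin.lt_def, Fin.le_def, Fin.val_castSucc, Fin.val_succ] at h ⊢
          omega
        rw [e, if_neg h.ne', one_mul, mulAt, if_neg h.asymm, if_neg h.ne']
  refine h1.trans ?_
  rw [Finset.prod_mul_distrib, Finset.prod_ite_eq']
  simp

theorem mulLast_update {n : ℕ} (a : Fin (n + 2) → A) (k : Fin (n + 2)) :
    ∃ (j : Fin (n + 1)) (l : A →ₗ[ℂ] A), ∀ x,
      mulLast (Function.update a k x) = Function.update (mulLast a) j (l x) := by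
  by_cases hk : (k : ℕ) = n + 1
  · refine ⟨0, LinearMap.mulRight ℂ (a 0), fun x => ?_⟩
    funext j
    simp only [mulLast, Function.update_apply, LinearMap.mulRight_apply, Fin.ext_iff,
      Fin.val_castSucc, Fin.val_last, Fin.val_zero]
    have := j.2
    split_ifs <;> first | rfl | omega
  · by_cases hk0 : (k : ℕ) = 0
    · refine ⟨0, LinearMap.mulLeft ℂ (a (Fin.last (n + 1))), fun x => ?_⟩
      funext j
      simp only [mulLast, Function.update_apply, LinearMap.mulLeft_apply, Fin.ext_iff,
        Fin.val_castSucc, Fin.val_last, Fin.val_zero]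
      have := j.2
      split_ifs <;> first | rfl | omega
    · refine ⟨⟨k, by have := k.2; omega⟩, LinearMap.id, fun x => ?_⟩
      funext j
      simp only [mulLast, Function.update_apply, LinearMap.id_apply, Fin.ext_iff,
        Fin.val_castSucc, Fin.val_last, Fin.val_zero]
      have := j.2
      split_ifs <;> first | rfl | omega

theorem mulLast_norm {n : ℕ} (a : Fin (n + 2) → A) :
    ∏ j, ‖mulLast a j‖ ≤ ∏ k, ‖a k‖ := by
  rw [Fin.prod_univ_castSucc (fun k => ‖a k‖), Fin.prod_univ_succ (fun j => ‖mulLast a j‖),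
    Fin.prod_univ_succ (fun j : Fin (n + 1) => ‖a j.castSucc‖)]
  have h0 : mulLast a 0 = a (Fin.last (n + 1)) * a 0 := by simp [mulLast]
  have h1 : ∀ j : Fin n, mulLast a j.succ = a j.succ.castSucc := by
    intro j
    simp [mulLast, Fin.ext_iff]
  rw [h0]
  simp only [h1]
  have h2 : ‖a (Fin.last (n + 1)) * a 0‖ ≤ ‖a (Fin.last (n + 1))‖ * ‖a 0‖ := norm_mul_le _ _
  have h3 : 0 ≤ ∏ i : Fin n, ‖a i.succ.castSucc‖ := Finset.prod_nonneg fun _ _ => norm_nonneg _
  have h4 := mul_le_mul_of_nonneg_right h2 h3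
  have e : a (Fin.castSucc 0) = a 0 := rfl
  rw [e]
  refine h4.trans (le_of_eq ?_)
  ring

theorem prd_update (n : ℕ) : ∀ (a : Fin (n + 1) → A) (k : Fin (n + 1)),
    ∃ l : A →ₗ[ℂ] A, ∀ x, prd n (Function.update a k x) = l x := by
  induction n with
  | zero =>
    intro a k
    refine ⟨LinearMap.id, fun x => ?_⟩
    have : k = 0 := Fin.ext (by have := k.2; simp only [Fin.val_zero]; omega)
    subst this
    simp [prd]
  | succ n ih =>
    intro a k
    induction k using Fin.lastCases with
    | last =>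
      refine ⟨LinearMap.mulLeft ℂ (prd n (Fin.init a)), fun x => ?_⟩
      rw [prd, Fin.init_update_last, Function.update_self, LinearMap.mulLeft_apply]
    | cast k =>
      obtain ⟨l, hl⟩ := ih (Fin.init a) k
      refine ⟨(LinearMap.mulRight ℂ (a (Fin.last (n + 1)))).comp l, fun x => ?_⟩
      rw [prd, Fin.init_update_castSucc, hl, Function.update_of_ne (Fin.castSucc_lt_last k).ne',
        LinearMap.comp_apply, LinearMap.mulRight_apply]

theorem prd_norm (n : ℕ) : ∀ (a : Fin (n + 1) → A), ‖prd n a‖ ≤ ∏ i, ‖a i‖ := by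
  induction n with
  | zero => intro a; simp [prd]
  | succ n ih =>
    intro a
    rw [Fin.prod_univ_castSucc]
    exact (norm_mul_le _ _).trans (mul_le_mul_of_nonneg_right (ih (Fin.init a)) (norm_nonneg _))

variable (A)

theorem rep_bp (n : ℕ) : Rep (fun (φ : Cn A n) a => bpf φ a) :=
  Rep.sum Finset.univ fun i => (Rep.subst (mulAt i) (mulAt_update i) (mulAt_norm i)).smul _

theorem rep_b (n : ℕ) : Rep (fun (φ : Cn A n) a => bf φ a) :=
  (rep_bp A n).add ((Rep.subst mulLast mulLast_update mulLast_norm).smul _)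

theorem rep_t (n : ℕ) : Rep (fun (φ : Cn A n) a => tf φ a) := by
  refine (Rep.subst (fun a : Fin (n + 1) → A => fun j => a (j - 1)) ?_ ?_).smul _
  · intro a k
    refine ⟨k + 1, LinearMap.id, fun x => ?_⟩
    funext j
    simp only [Function.update_apply, LinearMap.id_apply, sub_eq_iff_eq_add]
  · intro a
    exact (Equiv.prod_comp (Equiv.subRight (1 : Fin (n + 1))) (fun k => ‖a k‖)).le

theorem rep_mt (n : ℕ) : Rep (A := A) (fun (τ : A →L[ℂ] ℂ) a => τ (prd n a)) := by
  apply Rep.mk
  · intro τ a k x y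
    obtain ⟨l, hl⟩ := prd_update n a k
    rw [hl, hl, hl, map_add, map_add]
  · intro τ a k c x
    obtain ⟨l, hl⟩ := prd_update n a k
    rw [hl, hl, map_smul, map_smul, smul_eq_mul]
  · intro τ σ a; rfl
  · intro c τ a; rfl
  · intro τ a
    exact (τ.le_opNorm _).trans (mul_le_mul_of_nonneg_left (prd_norm n a) (norm_nonneg _))

theorem b_apply (n : ℕ) (φ : Cn A n) (a : Fin (n + 2) → A) : b A n φ a = bf φ a := by
  have h : ∃ L : Cn A n →L[ℂ] Cn A (n + 1), ∀ φ a, L φ a = bf φ a := rep_b A n
  rw [b, dif_pos h]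
  exact h.choose_spec φ a

theorem bp_apply (n : ℕ) (φ : Cn A n) (a : Fin (n + 2) → A) : bp A n φ a = bpf φ a := by
  have h : ∃ L : Cn A n →L[ℂ] Cn A (n + 1), ∀ φ a, L φ a = bpf φ a := rep_bp A n
  rw [bp, dif_pos h]
  exact h.choose_spec φ a

theorem t_apply (n : ℕ) (φ : Cn A n) (a : Fin (n + 1) → A) : t A n φ a = tf φ a := by
  have h : ∃ L : Cn A n →L[ℂ] Cn A n, ∀ φ a, L φ a = tf φ a := rep_t A n
  rw [t, dif_pos h]
  exact h.choose_spec φ a

theorem mt_apply (n : ℕ) (τ : A →L[ℂ] ℂ) (a : Fin (n + 1) → A) : mt A n τ a = τ (prd n a) := by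
  have h : ∃ L : (A →L[ℂ] ℂ) →L[ℂ] Cn A n, ∀ τ a, L τ a = τ (prd n a) := rep_mt A n
  rw [mt, dif_pos h]
  exact h.choose_spec τ a

end H504C
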