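import Pool.Agent.H504C.Defs
import Pool.Agent.H504C.TaskCA

/-! Task CC: the relation `(1 - t) b = b' (1 - t)`. -/

set_option autoImplicit false

namespace H504C

open Finset

variable (A : Type) [NonUnitalCStarAlgebra A]

theorem CC_zero_sub (m : ℕ) : (0 : Fin (m + 1)) - 1 = Fin.last m := by
  rw [sub_eq_iff_eq_add, Fin.last_add_one]

theorem CC_succ_sub {m : ℕ} (k : Fin m) : (k.succ : Fin (m + 1)) - 1 = k.castSucc := by
  rw [sub_eq_iff_eq_add, Fin.coeSucc_eq_succ]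

variable {A} in
theorem CC_mulAt_zero {n : ℕ} (a : Fin (n + 2) → A) :
    mulAt (0 : Fin (n + 1)) (fun j => a (j - 1)) = mulLast a := by
  funext j
  unfold mulAt mulLast
  refine Fin.cases ?_ (fun k => ?_) j
  · simp only [lt_irrefl, if_false, if_true]
    rw [Fin.castSucc_zero, CC_zero_sub, CC_succ_sub, Fin.castSucc_zero]
  · have h1 : ¬ (k.succ : Fin (n + 1)) < 0 := Fin.not_lt_zero _
    have h2 : ¬ (k.succ : Fin (n + 1)) = 0 := Fin.succ_ne_zero k
    simp only [h1, h2, if_false]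
    rw [CC_succ_sub]

variable {A} in
theorem CC_mulAt_succ {n : ℕ} (i : Fin n) (a : Fin (n + 2) → A) :
    mulAt (i.succ : Fin (n + 1)) (fun j => a (j - 1)) =
      fun j => mulAt (i.castSucc : Fin (n + 1)) a (j - 1) := by
  funext j
  unfold mulAt
  refine Fin.cases ?_ (fun k => ?_) j
  · have h1 : (0 : Fin (n + 1)) < i.succ := Fin.succ_pos i
    have h2 : ¬ Fin.last n < i.castSucc := not_lt.2 (Fin.le_last _)
    have h3 : ¬ Fin.last n = i.castSucc := (Fin.castSucc_lt_last i).ne'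
    rw [CC_zero_sub]
    simp only [h1, h2, h3, if_true, if_false]
    rw [Fin.castSucc_zero, CC_zero_sub, Fin.succ_last]
  · rw [CC_succ_sub]
    simp only [Fin.succ_lt_succ_iff, Fin.castSucc_lt_castSucc_iff, Fin.succ_inj, Fin.castSucc_inj]
    have e1 : (k.succ.castSucc : Fin (n + 2)) - 1 = k.castSucc.castSucc := by
      rw [← Fin.succ_castSucc, CC_succ_sub]
    have e2 : (k.succ.succ : Fin (n + 2)) - 1 = k.castSucc.succ := by
      rw [CC_succ_sub, Fin.succ_castSucc]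
    rw [e1, e2]

variable {A} in
theorem CC_mulLast {n : ℕ} (a : Fin (n + 2) → A) :
    mulLast (fun j => a (j - 1)) = fun j => mulAt (Fin.last n) a (j - 1) := by
  funext j
  unfold mulAt mulLast
  refine Fin.cases ?_ (fun k => ?_) j
  · rw [CC_zero_sub]
    simp only [lt_irrefl, if_true, if_false]
    rw [CC_zero_sub, ← Fin.succ_last, CC_succ_sub]
  · rw [CC_succ_sub]
    have h1 : ¬ (k.succ : Fin (n + 1)) = 0 := Fin.succ_ne_zero k
    have h2 : k.castSucc < Fin.last n := Fin.castSucc_lt_last k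
    simp only [h1, h2, if_true, if_false]
    rw [← Fin.succ_castSucc, CC_succ_sub]

variable {A} in
/-- the pointwise identity -/
theorem CC_main {n : ℕ} (φ : Cn A n) (a : Fin (n + 2) → A) :
    bf φ a - (-1 : ℂ) ^ (n + 1) * bf φ (fun j => a (j - 1)) =
      bpf φ a - ∑ i : Fin (n + 1), (-1 : ℂ) ^ (i : ℕ) * tf φ (mulAt i a) := by
  have h1 : bpf φ (fun j => a (j - 1)) = φ (mulLast a) +
      ∑ i : Fin n, (-1 : ℂ) ^ ((i : ℕ) + 1) *
        φ (fun j => mulAt (i.castSucc : Fin (n + 1)) a (j - 1)) := by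
    unfold bpf
    rw [Fin.sum_univ_succ, CC_mulAt_zero]
    congr 1
    · simp
    · refine Finset.sum_congr rfl fun i _ => ?_
      rw [CC_mulAt_succ, Fin.val_succ]
  have h2 : ∑ i : Fin (n + 1), (-1 : ℂ) ^ (i : ℕ) * tf φ (mulAt i a) =
      ∑ i : Fin n, (-1 : ℂ) ^ (i : ℕ) * ((-1 : ℂ) ^ n *
        φ (fun j => mulAt (i.castSucc : Fin (n + 1)) a (j - 1))) +
      (-1 : ℂ) ^ n * ((-1 : ℂ) ^ n * φ (fun j => mulAt (Fin.last n) a (j - 1))) := by
    rw [Fin.sum_univ_castSucc]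
    rfl
  have h3 : (-1 : ℂ) ^ n * (-1 : ℂ) ^ n = 1 := by
    rw [← mul_pow]; simp
  unfold bf
  rw [h1, h2, CC_mulLast]
  have h4 : ∑ i : Fin n, (-1 : ℂ) ^ ((i : ℕ) + 1) *
        φ (fun j => mulAt (i.castSucc : Fin (n + 1)) a (j - 1)) =
      - ∑ i : Fin n, (-1 : ℂ) ^ (i : ℕ) *
        φ (fun j => mulAt (i.castSucc : Fin (n + 1)) a (j - 1)) := by
    rw [← Finset.sum_neg_distrib]
    refine Finset.sum_congr rfl fun i _ => ?_
    rw [pow_succ]; ring
  have h5 : ∑ i : Fin n, (-1 : ℂ) ^ (i : ℕ) * ((-1 : ℂ) ^ n *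
        φ (fun j => mulAt (i.castSucc : Fin (n + 1)) a (j - 1))) =
      (-1 : ℂ) ^ n * ∑ i : Fin n, (-1 : ℂ) ^ (i : ℕ) *
        φ (fun j => mulAt (i.castSucc : Fin (n + 1)) a (j - 1)) := by
    rw [Finset.mul_sum]
    refine Finset.sum_congr rfl fun i _ => ?_
    ring
  rw [h4, h5]
  generalize (∑ i : Fin n, (-1 : ℂ) ^ (i : ℕ) *
        φ (fun j => mulAt (i.castSucc : Fin (n + 1)) a (j - 1))) = S
  generalize φ (fun j => mulAt (Fin.last n) a (j - 1)) = u
  generalize φ (mulLast a) = v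
  generalize bpf φ a = w
  rw [pow_succ]
  generalize hx : (-1 : ℂ) ^ n = x
  rw [hx] at h3
  linear_combination (v - v - u + u) * h3 + 0 * h3

/-- `rel1` from the formulas of task CA (as hypotheses) -/
theorem CC_rel1_of
    (hb : ∀ (n : ℕ) (φ : Cn A n) (a : Fin (n + 2) → A), b A n φ a = bf φ a)
    (hbp : ∀ (n : ℕ) (φ : Cn A n) (a : Fin (n + 2) → A), bp A n φ a = bpf φ a)
    (ht : ∀ (n : ℕ) (φ : Cn A n) (a : Fin (n + 1) → A), t A n φ a = tf φ a)
    (n : ℕ) (φ : Cn A n) :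
    b A n φ - t A (n + 1) (b A n φ) = bp A n (φ - t A n φ) := by
  have key : ∀ a : Fin (n + 2) → A,
      b A n φ a - t A (n + 1) (b A n φ) a = bp A n φ a - bp A n (t A n φ) a := by
    intro a
    rw [hb, ht, hbp, hbp]
    have h := CC_main φ a
    have h1 : tf (b A n φ) a = (-1 : ℂ) ^ (n + 1) * bf φ (fun j => a (j - 1)) := by
      unfold tf
      rw [hb]
    have h2 : bpf (t A n φ) a = ∑ i : Fin (n + 1), (-1 : ℂ) ^ (i : ℕ) * tf φ (mulAt i a) := by
      unfold bpf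
      refine Finset.sum_congr rfl fun i _ => ?_
      rw [ht]
    rw [h1, h2]
    exact h
  rw [map_sub]
  exact ContinuousMultilinearMap.ext key

theorem rel1 (n : ℕ) (φ : Cn A n) :
    b A n φ - t A (n + 1) (b A n φ) = bp A n (φ - t A n φ) :=
  CC_rel1_of A (b_apply A) (bp_apply A) (t_apply A) n φ

end H504C
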