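import Pool.Agent.H504C.TaskCA

/-! Task CD: the relation `N b' = b N`. -/

set_option autoImplicit false
set_option linter.unusedSectionVars false
set_option linter.unnecessarySeqFocus false

namespace H504C

open Finset

section CD

variable {A : Type} [NonUnitalCStarAlgebra A]

/-- rotation -/
def CD_rot {n : ℕ} (a : Fin (n + 1) → A) : Fin (n + 1) → A := fun j => a (j - 1)

/-- faces -/
def CD_fc {n : ℕ} (i : ℕ) (a : Fin (n + 2) → A) : Fin (n + 1) → A :=
  if h : i < n + 1 then mulAt ⟨i, h⟩ a else mulLast a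

theorem CD_rot_zero {n : ℕ} (a : Fin (n + 1) → A) : CD_rot a 0 = a (Fin.last n) := by
  unfold CD_rot
  congr 1
  apply Fin.ext
  rw [Fin.coe_sub_one]
  simp

theorem CD_rot_pos {n : ℕ} (a : Fin (n + 1) → A) (j : ℕ) (hj : j + 1 < n + 1) :
    CD_rot a ⟨j + 1, hj⟩ = a ⟨j, by omega⟩ := by
  unfold CD_rot
  congr 1
  apply Fin.ext
  rw [Fin.coe_sub_one]
  rw [if_neg (by intro h; have := congrArg Fin.val h; simp at this)]
  simp

theorem CD_mulAt_lt {n : ℕ} (i : Fin (n + 1)) (a : Fin (n + 2) → A) (j : ℕ) (hj : j < n + 1)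
    (h : j < i) : mulAt i a ⟨j, hj⟩ = a ⟨j, by omega⟩ := by
  unfold mulAt
  rw [if_pos (by rw [Fin.lt_def]; exact h)]
  rfl

theorem CD_mulAt_eq {n : ℕ} (i : Fin (n + 1)) (a : Fin (n + 2) → A) (j : ℕ) (hj : j < n + 1)
    (h : j = i) : mulAt i a ⟨j, hj⟩ = a ⟨j, by omega⟩ * a ⟨j + 1, by omega⟩ := by
  unfold mulAt
  rw [if_neg (by rw [Fin.lt_def]; simp only; omega), if_pos (Fin.ext h)]
  rfl

theorem CD_mulAt_gt {n : ℕ} (i : Fin (n + 1)) (a : Fin (n + 2) → A) (j : ℕ) (hj : j < n + 1)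
    (h : (i : ℕ) < j) : mulAt i a ⟨j, hj⟩ = a ⟨j + 1, by omega⟩ := by
  unfold mulAt
  rw [if_neg (by rw [Fin.lt_def]; simp only; omega),
    if_neg (by intro e; have := congrArg Fin.val e; simp only at this; omega)]
  rfl

theorem CD_mulLast_zero {n : ℕ} (a : Fin (n + 2) → A) (hj : 0 < n + 1) :
    mulLast a ⟨0, hj⟩ = a ⟨n + 1, by omega⟩ * a ⟨0, by omega⟩ := by
  unfold mulLast
  rw [if_pos (by rfl)]
  rfl

theorem CD_mulLast_pos {n : ℕ} (a : Fin (n + 2) → A) (j : ℕ) (hj : j < n + 1) (h : 0 < j) :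
    mulLast a ⟨j, hj⟩ = a ⟨j, by omega⟩ := by
  unfold mulLast
  rw [if_neg (by intro e; have := congrArg Fin.val e; simp at this; omega)]
  rfl

theorem CD_rot_z {n : ℕ} (a : Fin (n + 1) → A) (h : 0 < n + 1) : CD_rot a ⟨0, h⟩ = a ⟨n, by omega⟩ :=
  CD_rot_zero a

theorem CD_rot_p {n : ℕ} (a : Fin (n + 1) → A) (j : ℕ) (hj : j < n + 1) (h : 0 < j) :
    CD_rot a ⟨j, hj⟩ = a ⟨j - 1, by omega⟩ := by
  obtain ⟨k, rfl⟩ : ∃ k, j = k + 1 := ⟨j - 1, by omega⟩
  exact CD_rot_pos a k hj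

/-- `d_0 (rot a) = d_{n+1} a` -/
theorem CD_fc_zero {n : ℕ} (a : Fin (n + 2) → A) : CD_fc 0 (CD_rot a) = CD_fc (n + 1) a := by
  unfold CD_fc
  rw [dif_pos (by omega), dif_neg (by omega)]
  funext j
  obtain ⟨j, hj⟩ := j
  rcases Nat.eq_zero_or_pos j with h | h
  · subst h
    rw [CD_mulAt_eq _ _ _ _ rfl, CD_mulLast_zero, CD_rot_z, CD_rot_pos]
  · rw [CD_mulAt_gt _ _ _ _ (by simpa using h), CD_mulLast_pos _ _ _ h, CD_rot_pos]

/-- `d_{i+1} (rot a) = rot (d_i a)` -/
theorem CD_fc_succ {n : ℕ} (i : ℕ) (hi : i ≤ n) (a : Fin (n + 2) → A) :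
    CD_fc (i + 1) (CD_rot a) = CD_rot (CD_fc i a) := by
  funext j
  obtain ⟨j, hj⟩ := j
  unfold CD_fc
  rw [dif_pos (show i < n + 1 by omega)]
  rcases Nat.eq_zero_or_pos j with h | h
  · subst h
    rw [CD_rot_z]
    by_cases hin : i < n
    · rw [dif_pos (show i + 1 < n + 1 by omega), CD_mulAt_lt _ _ _ _ (by simp), CD_rot_z,
        CD_mulAt_gt _ _ _ _ (by simpa using hin)]
    · have : i = n := by omega
      subst this
      rw [dif_neg (by omega), CD_mulAt_eq _ _ _ _ rfl, CD_mulLast_zero, CD_rot_z]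
      rw [CD_rot_p _ _ _ (by omega)]
      rfl
  · rw [CD_rot_p _ _ _ h]
    by_cases hin : i < n
    · rw [dif_pos (show i + 1 < n + 1 by omega)]
      rcases lt_trichotomy j (i + 1) with h1 | h1 | h1
      · rw [CD_mulAt_lt _ _ _ _ (by simpa using h1), CD_mulAt_lt _ _ _ _ (by simp only; omega),
          CD_rot_p _ _ _ h]
      · rw [CD_mulAt_eq _ _ _ _ (by simpa using h1), CD_mulAt_eq _ _ _ _ (by simp only; omega),
          CD_rot_p _ _ _ h, CD_rot_p _ _ _ (by omega)]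
        congr 2
        apply Fin.ext
        simp only
        omega
      · rw [CD_mulAt_gt _ _ _ _ (by simpa using h1), CD_mulAt_gt _ _ _ _ (by simp only; omega),
          CD_rot_p _ _ _ (by omega)]
        congr 1
        apply Fin.ext
        simp only
        omega
    · have : i = n := by omega
      subst this
      rw [dif_neg (by omega), CD_mulLast_pos _ _ _ h, CD_mulAt_lt _ _ _ _ (by simp only; omega),
        CD_rot_p _ _ _ h]

theorem CD_fc_rot_le {n : ℕ} (k : ℕ) : ∀ (i : ℕ) (_ : k ≤ i) (_ : i ≤ n + 1) (a : Fin (n + 2) → A),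
    CD_fc i (CD_rot^[k] a) = CD_rot^[k] (CD_fc (i - k) a) := by
  induction k with
  | zero => intro i _ _ a; simp
  | succ k ih =>
    intro i h1 h2 a
    rw [Function.iterate_succ_apply, ih i (by omega) h2, Function.iterate_succ_apply]
    have : i - k = (i - (k + 1)) + 1 := by omega
    rw [this, CD_fc_succ _ (by omega)]

theorem CD_fc_rot_gt {n : ℕ} (i l : ℕ) (hi : i ≤ n + 1) (hl : l ≤ n + 1) (a : Fin (n + 2) → A) :
    CD_fc i (CD_rot^[i + 1 + l] a) = CD_rot^[i + l] (CD_fc (n + 1 - l) a) := by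
  rw [show i + 1 + l = i + (l + 1) by omega, Function.iterate_add_apply,
    CD_fc_rot_le i i le_rfl hi, Nat.sub_self, Function.iterate_succ_apply', CD_fc_zero,
    CD_fc_rot_le l (n + 1) hl le_rfl, Function.iterate_add_apply]

/-- the reindexing of the double sum -/
theorem CD_sum {M : Type} [AddCommMonoid M] (n : ℕ) (f g : ℕ → ℕ → M)
    (h1 : ∀ k i, k ≤ i → i ≤ n → f k i = g k (i - k))
    (h2 : ∀ k i, i < k → k ≤ n + 1 → f k i = g (k - 1) (n + 2 + i - k)) :
    ∑ k ∈ range (n + 2), ∑ i ∈ range (n + 1), f k i =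
      ∑ m ∈ range (n + 1), ∑ j ∈ range (n + 2), g m j := by
  rw [← Finset.sum_product', ← Finset.sum_product']
  refine Finset.sum_nbij' (fun p => if p.1 ≤ p.2 then (p.1, p.2 - p.1) else (p.1 - 1, n + 2 + p.2 - p.1))
    (fun p => if p.1 + p.2 ≤ n then (p.1, p.1 + p.2) else (p.1 + 1, p.1 + p.2 - (n + 1))) ?_ ?_ ?_ ?_ ?_
  · rintro ⟨k, i⟩ h
    simp only [mem_product, mem_range] at h ⊢
    split_ifs with hk <;> simp only <;> omega
  · rintro ⟨k, i⟩ h
    simp only [mem_product, mem_range] at h ⊢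
    split_ifs with hk <;> simp only <;> omega
  · rintro ⟨k, i⟩ h
    simp only [mem_product, mem_range] at h
    by_cases hk : k ≤ i
    · simp only [hk, if_true]
      rw [if_pos (by omega)]
      ext <;> simp only <;> omega
    · simp only [hk, if_false]
      rw [if_neg (by omega)]
      ext <;> simp only <;> omega
  · rintro ⟨m, j⟩ h
    simp only [mem_product, mem_range] at h
    by_cases hk : m + j ≤ n
    · simp only [hk, if_true]
      rw [if_pos (by omega)]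
      ext <;> simp only <;> omega
    · simp only [hk, if_false]
      rw [if_neg (by omega)]
      ext <;> simp only <;> omega
  · rintro ⟨k, i⟩ h
    simp only [mem_product, mem_range] at h
    by_cases hk : k ≤ i
    · simp only [hk, if_true]
      exact h1 k i hk (by omega)
    · simp only [hk, if_false]
      exact h2 k i (by omega) (by omega)

theorem CD_zero_apply {n : ℕ} (a : Fin (n + 1) → A) : (0 : Cn A n) a = 0 := rfl

theorem CD_add_apply {n : ℕ} (φ ψ : Cn A n) (a : Fin (n + 1) → A) : (φ + ψ) a = φ a + ψ a := rfl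

theorem CD_sum_apply {n : ℕ} (s : Finset ℕ) (f : ℕ → Cn A n) (a : Fin (n + 1) → A) :
    (∑ k ∈ s, f k) a = ∑ k ∈ s, f k a := by
  classical
  induction s using Finset.induction_on with
  | empty => rw [Finset.sum_empty, Finset.sum_empty, CD_zero_apply]
  | insert x s hx ih => rw [Finset.sum_insert hx, Finset.sum_insert hx, CD_add_apply, ih]

theorem CD_bpf {n : ℕ} (φ : Cn A n) (a : Fin (n + 2) → A) :
    bpf φ a = ∑ i ∈ range (n + 1), (-1 : ℂ) ^ i * φ (CD_fc i a) := by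
  rw [Finset.sum_range]
  unfold bpf
  refine Finset.sum_congr rfl fun i _ => ?_
  unfold CD_fc
  rw [dif_pos i.2]

theorem CD_bf {n : ℕ} (φ : Cn A n) (a : Fin (n + 2) → A) :
    bf φ a = ∑ i ∈ range (n + 2), (-1 : ℂ) ^ i * φ (CD_fc i a) := by
  rw [Finset.sum_range_succ, ← CD_bpf]
  unfold bf
  congr 2
  unfold CD_fc
  rw [dif_neg (by omega)]

theorem CD_t_iter (ht : ∀ (n : ℕ) (φ : Cn A n) (a : Fin (n + 1) → A), t A n φ a = tf φ a)
    (n k : ℕ) : ∀ (φ : Cn A n) (a : Fin (n + 1) → A),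
    ((t A n)^[k] φ) a = (-1 : ℂ) ^ (n * k) * φ (CD_rot^[k] a) := by
  induction k with
  | zero => intro φ a; simp
  | succ k ih =>
    intro φ a
    rw [Function.iterate_succ_apply, ih, ht, Function.iterate_succ_apply']
    unfold tf
    rw [← mul_assoc, ← pow_add]
    rfl

theorem CD_NN (ht : ∀ (n : ℕ) (φ : Cn A n) (a : Fin (n + 1) → A), t A n φ a = tf φ a)
    (n : ℕ) (φ : Cn A n) (a : Fin (n + 1) → A) :
    (NN A n φ) a = ∑ k ∈ range (n + 1), (-1 : ℂ) ^ (n * k) * φ (CD_rot^[k] a) := by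
  unfold NN
  rw [CD_sum_apply]
  exact Finset.sum_congr rfl fun k _ => CD_t_iter ht n k φ a

theorem CD_ext {n : ℕ} (φ ψ : Cn A n) (h : ∀ a, φ a = ψ a) : φ = ψ :=
  ContinuousMultilinearMap.ext h

theorem CD_sign (e f : ℕ) (h : Even (e + f)) : (-1 : ℂ) ^ e = (-1 : ℂ) ^ f := by
  rcases Nat.even_or_odd e with h1 | h1
  · rw [h1.neg_one_pow, (show Even f by rwa [Nat.even_add, iff_true_left h1] at h).neg_one_pow]
  · have h2 : Odd f := by
      rw [← Nat.not_even_iff_odd] at h1 ⊢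
      rw [Nat.even_add] at h
      tauto
    rw [h1.neg_one_pow, h2.neg_one_pow]

theorem CD_rel2 (hb : ∀ (n : ℕ) (φ : Cn A n) (a : Fin (n + 2) → A), b A n φ a = bf φ a)
    (hbp : ∀ (n : ℕ) (φ : Cn A n) (a : Fin (n + 2) → A), bp A n φ a = bpf φ a)
    (ht : ∀ (n : ℕ) (φ : Cn A n) (a : Fin (n + 1) → A), t A n φ a = tf φ a)
    (n : ℕ) (φ : Cn A n) : NN A (n + 1) (bp A n φ) = b A n (NN A n φ) := by
  apply CD_ext
  intro a
  rw [CD_NN ht, hb, CD_bf]
  have e1 : ∀ k ∈ range (n + 1 + 1), (-1 : ℂ) ^ ((n + 1) * k) * (bp A n φ) (CD_rot^[k] a) =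
      ∑ i ∈ range (n + 1), (-1 : ℂ) ^ ((n + 1) * k + i) * φ (CD_fc i (CD_rot^[k] a)) := by
    intro k _
    rw [hbp, CD_bpf, Finset.mul_sum]
    refine Finset.sum_congr rfl fun i _ => ?_
    rw [pow_add, mul_assoc]
  have e2 : ∀ j ∈ range (n + 2), (-1 : ℂ) ^ j * (NN A n φ) (CD_fc j a) =
      ∑ m ∈ range (n + 1), (-1 : ℂ) ^ (n * m + j) * φ (CD_rot^[m] (CD_fc j a)) := by
    intro j _
    rw [CD_NN ht, Finset.mul_sum]
    refine Finset.sum_congr rfl fun i _ => ?_
    rw [pow_add]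
    ring
  rw [Finset.sum_congr rfl e1, Finset.sum_congr rfl e2]
  refine (CD_sum n (fun k i => (-1 : ℂ) ^ ((n + 1) * k + i) * φ (CD_fc i (CD_rot^[k] a)))
    (fun m j => (-1 : ℂ) ^ (n * m + j) * φ (CD_rot^[m] (CD_fc j a))) ?_ ?_).trans Finset.sum_comm
  · intro k i hki hi
    simp only
    rw [CD_fc_rot_le k i hki (by omega)]
    congr 1
    apply CD_sign
    obtain ⟨j, rfl⟩ := Nat.exists_eq_add_of_le hki
    rw [Nat.add_sub_cancel_left]
    refine ⟨n * k + k + j, by ring⟩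
  · intro k i hki hk
    simp only
    obtain ⟨l, rfl⟩ := Nat.exists_eq_add_of_le (show i + 1 ≤ k from hki)
    rw [CD_fc_rot_gt i l (by omega) (by omega)]
    rw [show i + 1 + l - 1 = i + l by omega, show n + 2 + i - (i + 1 + l) = n + 1 - l by omega]
    congr 1
    apply CD_sign
    obtain ⟨s, hs⟩ := Nat.exists_eq_add_of_le (show l ≤ n + 1 by omega)
    rw [show n + 1 - l = s by omega]
    have hn : n + 1 = l + s := hs
    refine ⟨n * (i + l) + i + (n + 1), ?_⟩
    have : (n + 1) * (i + 1 + l) + i + (n * (i + l) + s) =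
      2 * (n * (i + l)) + 2 * i + (n + 1) + (l + s) := by ring
    rw [this, ← hn]
    ring

end CD

variable (A : Type) [NonUnitalCStarAlgebra A]

theorem rel2 (n : ℕ) (φ : Cn A n) : NN A (n + 1) (bp A n φ) = b A n (NN A n φ) :=
  CD_rel2 (fun n φ a => b_apply A n φ a) (fun n φ a => bp_apply A n φ a)
    (fun n φ a => t_apply A n φ a) n φ

end H504C
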