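import Pool.Agent.H504C.TaskCA

/-! Task CE: exactness of the `b'`-complex, by a bounded approximate unit (uses `bp_apply` of
task CA). -/

set_option autoImplicit false

namespace H504C

open Finset Filter Topology

/-- an ultrafilter of the unit ball which is a left approximate unit -/
theorem ce_exists_au (A : Type) [NonUnitalCStarAlgebra A] :
    ∃ l : Ultrafilter A, (∀ a : A, Tendsto (fun e => e * a) (l : Filter A) (𝓝 a)) ∧
      (∀ᶠ e in (l : Filter A), ‖e‖ ≤ 1) := by
  let _ := CStarAlgebra.spectralOrder A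
  have _ := CStarAlgebra.spectralOrderedRing A
  have h := CStarAlgebra.increasingApproximateUnit A
  have _ : (CStarAlgebra.approximateUnit A).NeBot := h.neBot
  refine ⟨Ultrafilter.of (CStarAlgebra.approximateUnit A), fun a => ?_, ?_⟩
  · exact (h.tendsto_mul_right a).mono_left (Ultrafilter.of_le _)
  · exact (Ultrafilter.of_le (CStarAlgebra.approximateUnit A)) h.eventually_norm

theorem ce_ulim {A : Type} [NonUnitalCStarAlgebra A] (l : Ultrafilter A)
    (h1 : ∀ᶠ e in (l : Filter A), ‖e‖ ≤ 1) (f : A → ℂ) (C : ℝ)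
    (hf : ∀ e, ‖e‖ ≤ 1 → ‖f e‖ ≤ C) :
    ∃ z, Tendsto f (l : Filter A) (𝓝 z) ∧ ‖z‖ ≤ C := by
  have hc : IsCompact (Metric.closedBall (0 : ℂ) C) := isCompact_closedBall 0 C
  obtain ⟨z, hz, hz'⟩ := hc.ultrafilter_le_nhds (l.map f) (by
    rw [le_principal_iff]
    refine Filter.mem_map.2 ?_
    filter_upwards [h1] with e he
    simpa using hf e he)
  exact ⟨z, hz', by simpa using hz⟩

variable (A : Type) [NonUnitalCStarAlgebra A]

theorem ce_cn_norm_le (n : ℕ) (φ : Cn A n) (a : Fin (n + 1) → A) : ‖φ a‖ ≤ ‖φ‖ * ∏ i, ‖a i‖ :=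
  ContinuousMultilinearMap.le_opNorm
    (show ContinuousMultilinearMap ℂ (fun _ : Fin (n + 1) => A) ℂ from φ) a

/-- the limit along the approximate unit of `φ(e, a_0, …, a_n)` -/
theorem ce_exists_lim (n : ℕ) (φ : Cn A (n + 1)) (l : Ultrafilter A)
    (h1 : ∀ᶠ e in (l : Filter A), ‖e‖ ≤ 1) :
    ∃ ψ : Cn A n, ∀ a : Fin (n + 1) → A,
      Tendsto (fun e : A => φ (Fin.cons e a : Fin (n + 2) → A)) (l : Filter A) (𝓝 (ψ a)) := by
  have hb : ∀ a : Fin (n + 1) → A, ∃ z : ℂ,
      Tendsto (fun e : A => φ (Fin.cons e a : Fin (n + 2) → A)) (l : Filter A) (𝓝 z) ∧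
        ‖z‖ ≤ ‖φ‖ * ∏ i, ‖a i‖ := by
    intro a
    refine ce_ulim l h1 _ _ (fun e he => (ce_cn_norm_le A (n + 1) φ _).trans ?_)
    rw [Fin.prod_univ_succ]
    simp only [Fin.cons_zero, Fin.cons_succ]
    refine mul_le_mul_of_nonneg_left ?_ (norm_nonneg _)
    have h0 : (0 : ℝ) ≤ ∏ i, ‖a i‖ := Finset.prod_nonneg (fun i _ => norm_nonneg _)
    nlinarith
  choose L hL hLb using hb
  let φ' : ContinuousMultilinearMap ℂ (fun _ : Fin (n + 2) => A) ℂ := φ
  let M : MultilinearMap ℂ (fun _ : Fin (n + 1) => A) ℂ :=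
    { toFun := L
      map_update_add' := by
        intro _ m i x y
        refine tendsto_nhds_unique (hL _) ?_
        refine ((hL _).add (hL _)).congr (fun e => ?_)
        exact ((φ'.toMultilinearMap.curryLeft e).map_update_add m i x y).symm
      map_update_smul' := by
        intro _ m i c x
        refine tendsto_nhds_unique (hL _) ?_
        refine ((hL _).const_mul c).congr (fun e => ?_)
        exact ((φ'.toMultilinearMap.curryLeft e).map_update_smul m i c x).symm }
  exact ⟨(M.mkContinuous ‖φ‖ hLb : ContinuousMultilinearMap ℂ (fun _ : Fin (n + 1) => A) ℂ), hL⟩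

theorem ce_mulAt_zero_cons {n : ℕ} (e : A) (a : Fin (n + 1) → A) :
    mulAt (0 : Fin (n + 1)) (Fin.cons e a : Fin (n + 2) → A) = Function.update a 0 (e * a 0) := by
  funext j
  refine Fin.cases ?_ (fun j => ?_) j
  · simp [mulAt]
  · simp [mulAt]

theorem ce_mulAt_succ_cons {n : ℕ} (i : Fin (n + 1)) (e : A) (a : Fin (n + 2) → A) :
    mulAt i.succ (Fin.cons e a : Fin (n + 3) → A) = (Fin.cons e (mulAt i a) : Fin (n + 2) → A) := by
  funext j
  refine Fin.cases ?_ (fun j => ?_) j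
  · simp [mulAt]
  · have hj : (Fin.cons e a : Fin (n + 3) → A) j.succ.castSucc = a j.castSucc := by
      rw [← Fin.succ_castSucc]; simp
    simp only [mulAt, Fin.succ_lt_succ_iff, Fin.succ_inj, Fin.cons_succ, hj]

theorem bp_exact_of
    (hbp : ∀ (n : ℕ) (φ : Cn A n) (a : Fin (n + 2) → A), bp A n φ a = bpf φ a)
    (n : ℕ) (φ : Cn A (n + 1)) (h : bp A (n + 1) φ = 0) : ∃ ψ : Cn A n, bp A n ψ = φ := by
  obtain ⟨l, hl, h1⟩ := ce_exists_au A
  obtain ⟨ψ, hψ⟩ := ce_exists_lim A n φ l h1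
  refine ⟨ψ, ?_⟩
  refine ContinuousMultilinearMap.ext (fun a => ?_)
  show bp A n ψ a = φ a
  rw [hbp]
  have key : ∀ e : A, φ (Function.update a 0 (e * a 0)) =
      ∑ i : Fin (n + 1), (-1 : ℂ) ^ (i : ℕ) * φ (Fin.cons e (mulAt i a) : Fin (n + 2) → A) := by
    intro e
    have h2 : bpf φ (Fin.cons e a : Fin (n + 3) → A) = 0 := by
      rw [← hbp, h]; rfl
    unfold bpf at h2
    rw [Fin.sum_univ_succ, ce_mulAt_zero_cons] at h2
    simp only [ce_mulAt_succ_cons, Fin.val_zero, pow_zero, one_mul, Fin.val_succ, pow_succ] at h2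
    rw [add_eq_zero_iff_eq_neg] at h2
    rw [h2, ← Finset.sum_neg_distrib]
    refine Finset.sum_congr rfl (fun i _ => ?_)
    ring
  have hL : Tendsto (fun e : A => φ (Function.update a 0 (e * a 0))) (l : Filter A) (𝓝 (φ a)) := by
    have hc : Continuous (fun m : Fin (n + 2) → A => φ m) :=
      (show ContinuousMultilinearMap ℂ (fun _ : Fin (n + 2) => A) ℂ from φ).cont
    have h3 : Tendsto (fun e : A => Function.update a 0 (e * a 0)) (l : Filter A) (𝓝 a) := by
      have := (tendsto_const_nhds (x := a) (f := (l : Filter A))).update 0 (hl (a 0))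
      rwa [Function.update_eq_self] at this
    exact (hc.tendsto a).comp h3
  have hR : Tendsto (fun e : A => ∑ i : Fin (n + 1), (-1 : ℂ) ^ (i : ℕ) *
      φ (Fin.cons e (mulAt i a) : Fin (n + 2) → A)) (l : Filter A) (𝓝 (bpf ψ a)) :=
    tendsto_finsetSum _ (fun i _ => (hψ (mulAt i a)).const_mul _)
  exact (tendsto_nhds_unique (hL.congr key) hR).symm

theorem bp_inj_of
    (hbp : ∀ (n : ℕ) (φ : Cn A n) (a : Fin (n + 2) → A), bp A n φ a = bpf φ a)
    (φ : Cn A 0) (h : bp A 0 φ = 0) : φ = 0 := by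
  obtain ⟨l, hl, h1⟩ := ce_exists_au A
  refine ContinuousMultilinearMap.ext (fun a => ?_)
  show φ a = 0
  have key : ∀ e : A, φ (Function.update a 0 (e * a 0)) = 0 := by
    intro e
    have h2 : bpf φ (Fin.cons e a : Fin 2 → A) = 0 := by
      rw [← hbp, h]; rfl
    unfold bpf at h2
    rw [Fin.sum_univ_succ, ce_mulAt_zero_cons] at h2
    simpa using h2
  have hL : Tendsto (fun e : A => φ (Function.update a 0 (e * a 0))) (l : Filter A) (𝓝 (φ a)) := by
    have hc : Continuous (fun m : Fin 1 → A => φ m) :=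
      (show ContinuousMultilinearMap ℂ (fun _ : Fin 1 => A) ℂ from φ).cont
    have h3 : Tendsto (fun e : A => Function.update a 0 (e * a 0)) (l : Filter A) (𝓝 a) := by
      have := (tendsto_const_nhds (x := a) (f := (l : Filter A))).update 0 (hl (a 0))
      rwa [Function.update_eq_self] at this
    exact (hc.tendsto a).comp h3
  exact tendsto_nhds_unique (hL.congr key) tendsto_const_nhds

theorem bp_exact (n : ℕ) (φ : Cn A (n + 1)) (h : bp A (n + 1) φ = 0) :
    ∃ ψ : Cn A n, bp A n ψ = φ :=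
  bp_exact_of A (fun n φ a => bp_apply A n φ a) n φ h

theorem bp_inj (φ : Cn A 0) (h : bp A 0 φ = 0) : φ = 0 :=
  bp_inj_of A (fun n φ a => bp_apply A n φ a) φ h

end H504C
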