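import Pool.Agent.H504C.TaskCA

set_option autoImplicit false

namespace H504C

open Finset

variable (A : Type) [NonUnitalCStarAlgebra A]

variable {A} in
theorem CG_ext {n : ℕ} {φ ψ : Cn A n} (h : ∀ a : Fin (n + 1) → A, φ a = ψ a) : φ = ψ :=
  ContinuousMultilinearMap.ext h

variable {A} in
/-- multiplying the first entry -/
theorem CG_first (n : ℕ) (x : A) (c : Fin (n + 1) → A) :
    prd n (fun j => if j = 0 then x * c 0 else c j) = x * prd n c := by
  induction n with
  | zero => simp [prd]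
  | succ n ih =>
    show prd n (Fin.init (fun j => if j = 0 then x * c 0 else c j)) *
      (if Fin.last (n + 1) = 0 then x * c 0 else c (Fin.last (n + 1))) =
      x * (prd n (Fin.init c) * c (Fin.last (n + 1)))
    have h1 : (Fin.init (fun j : Fin (n + 1 + 1) => if j = 0 then x * c 0 else c j) :
        Fin (n + 1) → A) = fun j => if j = 0 then x * (Fin.init c : Fin (n + 1) → A) 0
          else (Fin.init c : Fin (n + 1) → A) j := by
      funext j
      unfold Fin.init
      by_cases hj : j = 0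
      · subst hj
        simp
      · have : (Fin.castSucc j) ≠ 0 := by
          intro h
          apply hj
          exact Fin.castSucc_eq_zero_iff.1 h
        show (if Fin.castSucc j = 0 then x * c 0 else c (Fin.castSucc j)) = _
        rw [if_neg this, if_neg hj]
    rw [h1, ih, if_neg (Fin.last_pos.ne'), mul_assoc]

variable {A} in
/-- prepending an entry -/
theorem CG_cons (n : ℕ) (x : A) (c : Fin (n + 1) → A) :
    prd (n + 1) (Fin.cons x c : Fin (n + 2) → A) = x * prd n c := by
  induction n with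
  | zero =>
    show (Fin.init (Fin.cons x c : Fin 2 → A) : Fin 1 → A) 0 * (Fin.cons x c : Fin 2 → A) (Fin.last 1) = x * c 0
    rfl
  | succ n ih =>
    show prd (n + 1) (Fin.init (Fin.cons x c : Fin (n + 1 + 2) → A)) *
      (Fin.cons x c : Fin (n + 1 + 2) → A) (Fin.last (n + 2)) =
      x * (prd n (Fin.init c) * c (Fin.last (n + 1)))
    have h1 : (Fin.init (Fin.cons x c : Fin (n + 1 + 2) → A) : Fin (n + 2) → A) =
        (Fin.cons x (Fin.init c : Fin (n + 1) → A) : Fin (n + 2) → A) := by
      funext j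
      refine Fin.cases ?_ (fun j => ?_) j
      · rfl
      · rfl
    have h2 : (Fin.cons x c : Fin (n + 1 + 2) → A) (Fin.last (n + 2)) = c (Fin.last (n + 1)) := rfl
    rw [h1, h2, ih, mul_assoc]

variable {A} in
theorem CG_mulAt (n : ℕ) (i : Fin (n + 1)) (a : Fin (n + 2) → A) :
    prd n (mulAt i a) = prd (n + 1) a := by
  induction n with
  | zero =>
    have hi : i = 0 := Fin.ext (by omega)
    subst hi
    show mulAt 0 a 0 = prd 0 (Fin.init a) * a (Fin.last 1)
    unfold mulAt
    simp [prd, Fin.init]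
  | succ n ih =>
    refine Fin.lastCases ?_ (fun i => ?_) i
    · show prd n (Fin.init (mulAt (Fin.last (n + 1)) a)) * mulAt (Fin.last (n + 1)) a (Fin.last (n + 1)) =
        prd n (Fin.init (Fin.init a)) * (Fin.init a : Fin (n + 2) → A) (Fin.last (n + 1)) * a (Fin.last (n + 2))
      have h1 : (Fin.init (mulAt (Fin.last (n + 1)) a) : Fin (n + 1) → A) =
          (Fin.init (Fin.init a : Fin (n + 2) → A) : Fin (n + 1) → A) := by
        funext j
        unfold Fin.init mulAt
        rw [if_pos (Fin.castSucc_lt_last j)]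
      have h2 : mulAt (Fin.last (n + 1)) a (Fin.last (n + 1)) =
          (Fin.init a : Fin (n + 2) → A) (Fin.last (n + 1)) * a (Fin.last (n + 2)) := by
        unfold mulAt
        rw [if_neg (lt_irrefl _), if_pos rfl]
        rfl
      rw [h1, h2, mul_assoc]
    · show prd n (Fin.init (mulAt (Fin.castSucc i) a)) * mulAt (Fin.castSucc i) a (Fin.last (n + 1)) =
        prd (n + 1) (Fin.init a) * a (Fin.last (n + 2))
      have h1 : (Fin.init (mulAt (Fin.castSucc i) a) : Fin (n + 1) → A) =
          mulAt i (Fin.init a : Fin (n + 2) → A) := by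
        funext j
        unfold Fin.init mulAt
        simp only [Fin.castSucc_lt_castSucc_iff, Fin.castSucc_inj]
        rfl
      have h2 : mulAt (Fin.castSucc i) a (Fin.last (n + 1)) = a (Fin.last (n + 2)) := by
        unfold mulAt
        have h3 : ¬ (Fin.last (n + 1) < Fin.castSucc i) := not_lt.2 (Fin.le_last _)
        have h4 : ¬ (Fin.last (n + 1) = Fin.castSucc i) := (Fin.castSucc_lt_last i).ne'
        rw [if_neg h3, if_neg h4]
        rfl
      rw [h1, h2, ih]

variable {A} in
theorem CG_mulLast (n : ℕ) (a : Fin (n + 2) → A) :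
    prd n (mulLast a) = a (Fin.last (n + 1)) * prd n (Fin.init a) := by
  rw [← CG_first]
  congr 1

variable {A} in
theorem CG_shift (n : ℕ) (a : Fin (n + 2) → A) :
    prd (n + 1) (fun j => a (j - 1)) = a (Fin.last (n + 1)) * prd n (Fin.init a) := by
  rw [← CG_cons]
  congr 1
  funext j
  refine Fin.cases ?_ (fun j => ?_) j
  · show a (0 - 1) = a (Fin.last (n + 1))
    congr 1
    apply Fin.ext
    simp
  · show a (j.succ - 1) = a (j.castSucc)
    congr 1
    rw [← Fin.coeSucc_eq_succ, add_sub_cancel_right]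

variable {A} in
theorem CG_tr (n : ℕ) (τ : A →L[ℂ] ℂ) (h : τ ∈ TA A) (a : Fin (n + 2) → A) :
    τ (a (Fin.last (n + 1)) * prd n (Fin.init a)) = τ (prd (n + 1) a) := by
  have : τ (a (Fin.last (n + 1)) * prd n (Fin.init a)) =
      τ (prd n (Fin.init a) * a (Fin.last (n + 1))) := h _ _
  rw [this]
  rfl

theorem CG_sum (n : ℕ) (c : ℂ) :
    ∑ i : Fin (n + 1), (-1 : ℂ) ^ (i : ℕ) * c = if Even n then c else 0 := by
  rw [Fin.sum_univ_eq_sum_range (fun i => (-1 : ℂ) ^ i * c) (n + 1), ← Finset.sum_mul,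
    neg_one_geom_sum]
  by_cases h : Even n
  · rw [if_pos h, if_neg (by rw [Nat.even_add_one]; exact not_not.2 h), one_mul]
  · rw [if_neg h, if_pos (by rw [Nat.even_add_one]; exact h), zero_mul]

-- TASK CG (the cochains τ(a_0 ⋯ a_n)), uses CA
theorem mt_t (n : ℕ) (τ : A →L[ℂ] ℂ) (h : τ ∈ TA A) : t A n (mt A n τ) = (-1 : ℂ) ^ n • mt A n τ := by
  apply CG_ext
  intro a
  rw [t_apply]
  show (-1 : ℂ) ^ n * (mt A n τ) (fun j => a (j - 1)) = (-1 : ℂ) ^ n * (mt A n τ) a
  rw [mt_apply, mt_apply]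
  congr 1
  cases n with
  | zero =>
    congr 2
  | succ n => rw [CG_shift, CG_tr n τ h]

theorem CG_bpf (n : ℕ) (τ : A →L[ℂ] ℂ) (a : Fin (n + 2) → A) :
    bpf (mt A n τ) a = if Even n then mt A (n + 1) τ a else 0 := by
  unfold bpf
  rw [mt_apply, ← CG_sum]
  refine Finset.sum_congr rfl fun i _ => ?_
  rw [mt_apply, CG_mulAt]

theorem mt_bp (n : ℕ) (τ : A →L[ℂ] ℂ) :
    bp A n (mt A n τ) = if Even n then mt A (n + 1) τ else 0 := by
  apply CG_ext
  intro a
  rw [bp_apply, CG_bpf]
  by_cases h : Even n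
  · rw [if_pos h, if_pos h]
  · rw [if_neg h, if_neg h]
    rfl

theorem mt_b (n : ℕ) (τ : A →L[ℂ] ℂ) (h : τ ∈ TA A) :
    b A n (mt A n τ) = if Even n then 0 else mt A (n + 1) τ := by
  apply CG_ext
  intro a
  rw [b_apply]
  unfold bf
  rw [CG_bpf]
  have h1 : (mt A n τ) (mulLast a) = mt A (n + 1) τ a := by
    rw [mt_apply, mt_apply, CG_mulLast, CG_tr n τ h]
  rw [h1]
  by_cases h2 : Even n
  · rw [if_pos h2, if_pos h2, h2.add_one.neg_one_pow]
    show _ = (0 : ℂ)
    ring
  · rw [if_neg h2, if_neg h2, (Nat.not_even_iff_odd.1 h2).add_one.neg_one_pow]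
    ring

theorem mt_zero (τ : A →L[ℂ] ℂ) (h : mt A 0 τ = 0) : τ = 0 := by
  ext x
  have h1 := mt_apply A 0 τ (fun _ => x)
  rw [h] at h1
  exact h1.symm

end H504C
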