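import Pool.Agent.H504C.Defs
import Pool.Agent.H504C.TaskCA

/-! Task CP: the squares of `b` and `b'` vanish (the formulas of task CA are hypotheses). -/

set_option autoImplicit false

namespace H504C

open Finset

namespace CP

/-- cancellation in an alternating double sum -/
theorem alt {M : Type} [AddCommGroup M] [Module ℂ M] (n : ℕ) (F : Fin (n + 2) → Fin (n + 1) → M)
    (h : ∀ i j : Fin (n + 1), j ≤ i → F i.succ j = F j.castSucc i) :
    ∑ i : Fin (n + 2), ∑ j : Fin (n + 1), ((-1 : ℂ) ^ (i : ℕ) * (-1 : ℂ) ^ (j : ℕ)) • F i j = 0 := by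
  rw [← Finset.sum_product' (s := univ) (t := univ)
    (f := fun (i : Fin (n + 2)) (j : Fin (n + 1)) => ((-1 : ℂ) ^ (i : ℕ) * (-1 : ℂ) ^ (j : ℕ)) • F i j)]
  refine Finset.sum_involution (fun p _ => if hp : p.2.val < p.1.val then
      ((⟨p.2.val, by omega⟩ : Fin (n + 2)), (⟨p.1.val - 1, by omega⟩ : Fin (n + 1)))
    else ((⟨p.2.val + 1, by omega⟩ : Fin (n + 2)), (⟨p.1.val, by omega⟩ : Fin (n + 1)))) ?_ ?_ ?_ ?_
  · rintro ⟨i, j⟩ _
    dsimp only
    split_ifs with hp
    · -- j < i
      have h1 := h ⟨i.val - 1, by omega⟩ j (by rw [Fin.le_def]; dsimp only; omega)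
      have e1 : (⟨i.val - 1, by omega⟩ : Fin (n + 1)).succ = i := by
        ext; simp only [Fin.val_succ]; omega
      have e2 : j.castSucc = (⟨j.val, by omega⟩ : Fin (n + 2)) := rfl
      rw [e1, e2] at h1
      rw [h1]
      dsimp only
      rw [← add_smul]
      obtain ⟨i', hi'⟩ : ∃ i', i.val = i' + 1 := ⟨i.val - 1, by omega⟩
      have e3 : (-1 : ℂ) ^ (i : ℕ) * (-1 : ℂ) ^ (j : ℕ) +
          (-1 : ℂ) ^ (j : ℕ) * (-1 : ℂ) ^ (i.val - 1) = 0 := by
        rw [hi', Nat.add_sub_cancel, pow_succ]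
        ring
      rw [e3, zero_smul]
    · have h1 := h j ⟨i.val, by omega⟩ (by rw [Fin.le_def]; dsimp only; omega)
      have e1 : j.succ = (⟨j.val + 1, by omega⟩ : Fin (n + 2)) := rfl
      have e2 : (⟨i.val, by omega⟩ : Fin (n + 1)).castSucc = i := rfl
      rw [e1, e2] at h1
      rw [h1]
      dsimp only
      rw [← add_smul]
      have e3 : (-1 : ℂ) ^ (i : ℕ) * (-1 : ℂ) ^ (j : ℕ) +
          (-1 : ℂ) ^ (j.val + 1) * (-1 : ℂ) ^ (i : ℕ) = 0 := by
        rw [pow_succ]
        ring
      rw [e3, zero_smul]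
  · rintro ⟨i, j⟩ _ _
    dsimp only
    split_ifs with hp
    · intro he
      have := congrArg (fun q : Fin (n + 2) × Fin (n + 1) => q.1.val) he
      dsimp only at this
      omega
    · intro he
      have := congrArg (fun q : Fin (n + 2) × Fin (n + 1) => q.1.val) he
      dsimp only at this
      omega
  · intro p _
    exact mem_product.2 ⟨mem_univ _, mem_univ _⟩
  · rintro ⟨i, j⟩ _
    dsimp only
    by_cases hp : j.val < i.val
    · have hq : ¬ (i.val - 1 < j.val) := by omega
      simp only [hp, dif_pos]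
      rw [dif_neg hq]
      ext
      · dsimp only; omega
      · rfl
    · have hq : i.val < j.val + 1 := by omega
      simp only [hp, dif_neg, not_false_eq_true]
      rw [dif_pos hq]
      ext
      · rfl
      · dsimp only; omega

variable {A : Type} [NonUnitalCStarAlgebra A]

/-- `mulAt` on sequences -/
def mA (i : ℕ) (α : ℕ → A) (j : ℕ) : A :=
  if j < i then α j else if j = i then α j * α (j + 1) else α (j + 1)

/-- `mulLast` on sequences -/
def mL (n : ℕ) (α : ℕ → A) (j : ℕ) : A := if j = 0 then α (n + 1) * α 0 else α j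

theorem mulAt_eq {n : ℕ} (i : Fin (n + 1)) (a : Fin (n + 2) → A) (α : ℕ → A)
    (h : ∀ i, a i = α i.val) (j : Fin (n + 1)) : mulAt i a j = mA i.val α j.val := by
  unfold mulAt mA
  rw [h, h]
  simp only [Fin.lt_def, Fin.ext_iff, Fin.val_castSucc, Fin.val_succ]

theorem mulLast_eq {n : ℕ} (a : Fin (n + 2) → A) (α : ℕ → A)
    (h : ∀ i, a i = α i.val) (j : Fin (n + 1)) : mulLast a j = mL n α j.val := by
  unfold mulLast mL
  rw [h, h, h]
  simp only [Fin.ext_iff, Fin.val_last, Fin.val_zero, Fin.val_castSucc]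

theorem exists_seq {n : ℕ} (a : Fin n → A) : ∃ α : ℕ → A, ∀ i, a i = α i.val :=
  ⟨fun m => if h : m < n then a ⟨m, h⟩ else 0, fun i => by simp⟩

theorem mA_mA (i j : ℕ) (hij : j ≤ i) (α : ℕ → A) (k : ℕ) :
    mA j (mA (i + 1) α) k = mA i (mA j α) k := by
  unfold mA
  rcases lt_trichotomy k j with h | h | h
  · have h1 : k < i := by omega
    have h2 : k < i + 1 := by omega
    simp only [h, h1, h2, if_true]
  · subst h
    rcases hij.eq_or_lt with h3 | h3
    · subst h3
      simp [mul_assoc]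
    · have h1 : k < i + 1 := by omega
      have h2 : k + 1 < i + 1 := by omega
      simp only [lt_irrefl, if_false, if_true, h1, h2, h3]
  · have h0 : ¬ k < j := by omega
    have h0' : k ≠ j := by omega
    simp only [h0, h0', if_false]
    rcases lt_trichotomy k i with h3 | h3 | h3
    · have h1 : k + 1 < i + 1 := by omega
      simp only [h1, h3, if_true]
    · subst h3
      have h1 : ¬ k + 1 < j := by omega
      have h2 : k + 1 ≠ j := by omega
      simp only [lt_irrefl, if_false, if_true, h1, h2]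
    · have h1 : ¬ k < i := by omega
      have h2 : k ≠ i := by omega
      have h4 : ¬ k + 1 < i + 1 := by omega
      have h5 : k + 1 ≠ i + 1 := by omega
      have h6 : ¬ k + 1 < j := by omega
      have h7 : k + 1 ≠ j := by omega
      simp only [h1, h2, h4, h5, h6, h7, if_false]

theorem mA_mL (n j : ℕ) (hj : j < n + 1) (α : ℕ → A) (k : ℕ) :
    mA j (mL (n + 1) α) k = mL n (mA j α) k := by
  unfold mA mL
  have h1 : ¬ n + 1 < j := by omega
  have h2 : n + 1 ≠ j := by omega
  rcases Nat.eq_zero_or_pos k with h | h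
  · subst h
    rcases Nat.eq_zero_or_pos j with h3 | h3
    · subst h3
      simp [mul_assoc]
    · have h4 : 0 ≠ j := by omega
      simp only [h1, h2, h3, if_true, if_false]
  · have h5 : k ≠ 0 := by omega
    have h6 : k + 1 ≠ 0 := by omega
    simp only [h5, h6, if_false]

theorem mL_mL (n : ℕ) (α : ℕ → A) (k : ℕ) (hk : k < n + 1) :
    mL n (mL (n + 1) α) k = mL n (mA (n + 1) α) k := by
  unfold mA mL
  rcases Nat.eq_zero_or_pos k with h | h
  · subst h
    simp [mul_assoc]
  · have h5 : k ≠ 0 := by omega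
    simp only [h5, hk, if_true, if_false]

theorem mulAt_mulAt {n : ℕ} (a : Fin (n + 3) → A) (i j : Fin (n + 1)) (hij : j ≤ i) :
    mulAt j (mulAt i.succ a) = mulAt i (mulAt j.castSucc a) := by
  obtain ⟨α, hα⟩ := exists_seq a
  funext k
  rw [mulAt_eq j _ (mA (i.val + 1) α) (fun l => by rw [mulAt_eq _ a α hα]; rfl),
    mulAt_eq i _ (mA j.val α) (fun l => by rw [mulAt_eq _ a α hα]; rfl)]
  exact mA_mA _ _ hij α _

/-- all the faces -/
def D {n : ℕ} (i : Fin (n + 2)) (a : Fin (n + 2) → A) : Fin (n + 1) → A :=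
  if h : i.val < n + 1 then mulAt ⟨i.val, h⟩ a else mulLast a

theorem D_castSucc {n : ℕ} (i : Fin (n + 1)) (a : Fin (n + 2) → A) : D i.castSucc a = mulAt i a := by
  unfold D
  rw [dif_pos (show i.castSucc.val < n + 1 from i.isLt)]
  rfl

theorem D_last {n : ℕ} (a : Fin (n + 2) → A) : D (Fin.last (n + 1)) a = mulLast a := by
  unfold D
  rw [dif_neg (by simp)]

theorem D_D {n : ℕ} (a : Fin (n + 3) → A) (i j : Fin (n + 2)) (hij : j ≤ i) :
    D j (D i.succ a) = D i (D j.castSucc a) := by
  obtain ⟨α, hα⟩ := exists_seq a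
  have hL : ∀ l, mulLast a l = mL (n + 1) α l.val := fun l => mulLast_eq a α hα l
  have hM : ∀ (i : Fin (n + 2)) l, mulAt i a l = mA i.val α l.val := fun i l => mulAt_eq i a α hα l
  rw [D_castSucc]
  induction i using Fin.lastCases with
  | last =>
    rw [Fin.succ_last, D_last, D_last]
    induction j using Fin.lastCases with
    | last =>
      rw [D_last]
      funext k
      rw [mulLast_eq _ _ hL, mulLast_eq _ _ (hM _)]
      exact mL_mL n α k.val k.isLt
    | cast j =>
      rw [D_castSucc]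
      funext k
      rw [mulAt_eq _ _ _ hL, mulLast_eq _ _ (hM _)]
      exact mA_mL n j.val j.isLt α k.val
  | cast i =>
    rw [Fin.succ_castSucc, D_castSucc, D_castSucc]
    induction j using Fin.lastCases with
    | last => exact absurd hij (by rw [Fin.le_def, Fin.val_last, Fin.val_castSucc]; omega)
    | cast j =>
      rw [D_castSucc]
      exact mulAt_mulAt a i j (by simpa using hij)

theorem bf_eq {n : ℕ} (φ : Cn A n) (a : Fin (n + 2) → A) :
    bf φ a = ∑ i : Fin (n + 2), (-1 : ℂ) ^ (i : ℕ) * φ (D i a) := by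
  rw [Fin.sum_univ_castSucc, bf, bpf]
  congr 1
  · exact Finset.sum_congr rfl fun i _ => by rw [D_castSucc]; rfl
  · rw [D_last]; rfl

variable (A)

theorem bp_bp' (hbp : ∀ (n : ℕ) (φ : Cn A n) (a : Fin (n + 2) → A), bp A n φ a = bpf φ a)
    (n : ℕ) (φ : Cn A n) : bp A (n + 1) (bp A n φ) = 0 := by
  apply ContinuousMultilinearMap.ext
  intro a
  change bp A (n + 1) (bp A n φ) a = 0
  rw [hbp, bpf]
  have h := alt n (fun i j => φ (mulAt j (mulAt i a))) (fun i j hij => by
    rw [mulAt_mulAt a i j hij])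
  rw [← h]
  refine Finset.sum_congr rfl fun i _ => ?_
  rw [hbp, bpf, mul_sum]
  refine Finset.sum_congr rfl fun j _ => ?_
  rw [smul_eq_mul, mul_assoc]

theorem b_b' (hb : ∀ (n : ℕ) (φ : Cn A n) (a : Fin (n + 2) → A), b A n φ a = bf φ a)
    (n : ℕ) (φ : Cn A n) : b A (n + 1) (b A n φ) = 0 := by
  apply ContinuousMultilinearMap.ext
  intro a
  change b A (n + 1) (b A n φ) a = 0
  rw [hb, bf_eq]
  have h := alt (n + 1) (fun i j => φ (D j (D i a))) (fun i j hij => by
    rw [D_D a i j hij])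
  rw [← h]
  refine Finset.sum_congr rfl fun i _ => ?_
  rw [hb, bf_eq, mul_sum]
  refine Finset.sum_congr rfl fun j _ => ?_
  rw [smul_eq_mul, mul_assoc]

end CP

variable (A : Type) [NonUnitalCStarAlgebra A]

theorem b_b (n : ℕ) (φ : Cn A n) : b A (n + 1) (b A n φ) = 0 := CP.b_b' A (b_apply A) n φ

theorem bp_bp (n : ℕ) (φ : Cn A n) : bp A (n + 1) (bp A n φ) = 0 := CP.bp_bp' A (bp_apply A) n φ

end H504C
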