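import Pool.Agent.H504C.TaskCB
import Pool.Agent.H504C.TaskCC
import Pool.Agent.H504C.TaskCP
import Pool.Agent.H504C.TaskCD
import Pool.Agent.H504C.TaskCE
import Pool.Agent.H504C.TaskCG

set_option autoImplicit false

namespace H504C

open Finset

variable (A : Type) [NonUnitalCStarAlgebra A]

theorem CH_fin (i j : Fin (0 + 1)) : i = j := Fin.ext (by omega)

theorem CH_it_add (n k : ℕ) (φ ψ : Cn A n) :
    (t A n)^[k] (φ + ψ) = (t A n)^[k] φ + (t A n)^[k] ψ := by
  induction k with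
  | zero => rfl
  | succ k ih =>
    rw [Function.iterate_succ_apply', ih, map_add, Function.iterate_succ_apply',
      Function.iterate_succ_apply']

theorem CH_it_smul (n k : ℕ) (c : ℂ) (φ : Cn A n) :
    (t A n)^[k] (c • φ) = c • (t A n)^[k] φ := by
  induction k with
  | zero => rfl
  | succ k ih =>
    rw [Function.iterate_succ_apply', ih, map_smul, Function.iterate_succ_apply']

theorem CH_N_add (n : ℕ) (φ ψ : Cn A n) : NN A n (φ + ψ) = NN A n φ + NN A n ψ := by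
  unfold NN
  rw [← Finset.sum_add_distrib]
  exact Finset.sum_congr rfl (fun k _ => CH_it_add A n k φ ψ)

theorem CH_N_smul (n : ℕ) (c : ℂ) (φ : Cn A n) : NN A n (c • φ) = c • NN A n φ := by
  unfold NN
  rw [Finset.smul_sum]
  exact Finset.sum_congr rfl (fun k _ => CH_it_smul A n k c φ)

theorem CH_N_sub (n : ℕ) (φ ψ : Cn A n) : NN A n (φ - ψ) = NN A n φ - NN A n ψ := by
  have h : φ - ψ = φ + (-1 : ℂ) • ψ := by module
  rw [h, CH_N_add, CH_N_smul]
  module

theorem CH_mem_Zc (n : ℕ) (φ : Cn A n) : φ ∈ Zc A n ↔ φ ∈ cyc A n ∧ b A n φ = 0 := by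
  unfold Zc
  rw [Submodule.mem_inf]
  rfl

theorem mt_mem (n : ℕ) (hn : Even n) (τ : A →L[ℂ] ℂ) (hτ : τ ∈ TA A) : mt A n τ ∈ Zc A n := by
  rw [CH_mem_Zc]
  refine ⟨?_, ?_⟩
  · rw [mem_cyc_iff, mt_t A n τ hτ, hn.neg_one_pow, one_smul]
  · rw [mt_b A n τ hτ, if_pos hn]

/-- the combined statement -/
def CH_P (n : ℕ) : Prop := ∀ φ ∈ Zc A n, ∃ τ ∈ TA A, (Odd n → τ = 0) ∧ φ - mt A n τ ∈ Bc A n

theorem CH_zero : CH_P A 0 := by
  intro φ hφ
  rw [CH_mem_Zc] at hφ
  have hφb := hφ.2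
  let φ' : ContinuousMultilinearMap ℂ (fun _ : Fin (0 + 1) => A) ℂ := φ
  let τ : A →L[ℂ] ℂ :=
    LinearMap.mkContinuous
      { toFun := fun x => φ (fun _ => x)
        map_add' := fun x y => by
          have h := φ'.map_update_add (fun _ => (0 : A)) 0 x y
          have e : ∀ z : A, Function.update (fun _ : Fin (0 + 1) => (0 : A)) 0 z = fun _ => z := by
            intro z
            funext j
            rw [CH_fin j 0, Function.update_self]
          rw [e, e, e] at h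
          exact h
        map_smul' := fun c x => by
          have h := φ'.map_update_smul (fun _ => (0 : A)) 0 c x
          have e : ∀ z : A, Function.update (fun _ : Fin (0 + 1) => (0 : A)) 0 z = fun _ => z := by
            intro z
            funext j
            rw [CH_fin j 0, Function.update_self]
          rw [e, e] at h
          exact h }
      ‖φ'‖ (fun x => by
        have h := φ'.le_opNorm (fun _ => x)
        simpa using h)
  have hτ : ∀ x, τ x = φ (fun _ => x) := fun x => rfl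
  have hmt : mt A 0 τ = φ := by
    apply ContinuousMultilinearMap.ext
    intro a
    have h := mt_apply A 0 τ a
    refine Eq.trans h ?_
    change τ (a 0) = φ a
    rw [hτ]
    congr 1
    funext j
    rw [CH_fin j 0]
  refine ⟨τ, ?_, fun h => ?_, ?_⟩
  · intro x y
    have h1 := b_apply A 0 φ ![x, y]
    rw [hφb] at h1
    have h2 : bf φ ![x, y] = φ (fun _ => x * y) - φ (fun _ => y * x) := by
      unfold bf bpf
      have e1 : (mulAt (0 : Fin (0 + 1)) ![x, y] : Fin (0 + 1) → A) = fun _ => x * y := by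
        funext j
        rw [CH_fin j 0]
        simp [mulAt]
      have e2 : (mulLast ![x, y] : Fin (0 + 1) → A) = fun _ => y * x := by
        funext j
        rw [CH_fin j 0]
        simp [mulLast]
      have e3 : (∑ i : Fin (0 + 1), (-1 : ℂ) ^ (i : ℕ) * φ (mulAt i ![x, y]))
          = φ (fun _ => x * y) := by
        rw [Fintype.sum_eq_single 0 (fun j hj => absurd (CH_fin j 0) hj)]
        have e4 : (-1 : ℂ) ^ ((0 : Fin (0 + 1)) : ℕ) = 1 := by simp
        rw [e4, one_mul, e1]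
      rw [e3, e2]
      ring
    rw [h2] at h1
    have h3 : (0 : ℂ) = φ (fun _ => x * y) - φ (fun _ => y * x) := h1
    rw [hτ, hτ]
    exact (sub_eq_zero.mp h3.symm)
  · exact absurd h (by decide)
  · rw [hmt, sub_self]
    exact Submodule.zero_mem _

theorem CH_one (hH : HHv A) : CH_P A 1 := by
  intro φ hφ
  rw [CH_mem_Zc] at hφ
  obtain ⟨ψ, hψ⟩ := hH 0 φ hφ.2
  refine ⟨0, Submodule.zero_mem _, fun _ => rfl, ?_⟩
  rw [map_zero, sub_zero]
  refine ⟨ψ, ?_, hψ⟩
  intro a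
  have e : (fun j : Fin (0 + 1) => a (j + 1)) = a := by
    funext j
    rw [CH_fin (j + 1) j]
  rw [e]
  simp

/-- facts on `mt` used in the step -/
theorem CH_facts (k : ℕ) (τ : A →L[ℂ] ℂ) (hτ : τ ∈ TA A) (hk : Odd k → τ = 0) :
    NN A k (mt A k τ) = ((k : ℂ) + 1) • mt A k τ ∧ bp A k (mt A k τ) = mt A (k + 1) τ ∧
    t A (k + 1) (mt A (k + 1) τ) = -mt A (k + 1) τ ∧
    b A (k + 1) (mt A (k + 1) τ) = mt A (k + 2) τ := by
  rcases Nat.even_or_odd k with h | h
  · have h1 : ¬ Even (k + 1) := by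
      rw [Nat.even_add_one]; simpa using h
    have hm := (CH_mem_Zc A k _).mp (mt_mem A k h τ hτ)
    refine ⟨N_of_cyc A k _ hm.1, ?_, ?_, ?_⟩
    · rw [mt_bp, if_pos h]
    · rw [mt_t A (k + 1) τ hτ]
      have : Odd (k + 1) := by rw [← Nat.not_even_iff_odd]; exact h1
      rw [this.neg_one_pow, neg_one_smul]
    · rw [mt_b A (k + 1) τ hτ, if_neg h1]
  · rw [hk h]
    simp only [map_zero, neg_zero, smul_zero]
    refine ⟨?_, trivial, trivial, trivial⟩
    have := CH_N_smul A k 0 0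
    rw [zero_smul, zero_smul] at this
    exact this

theorem CH_step (hH : HHv A) (k : ℕ) (ih : CH_P A k) : CH_P A (k + 2) := by
  intro φ hφ
  rw [CH_mem_Zc] at hφ
  obtain ⟨ψ, hψ⟩ := hH (k + 1) φ hφ.2
  have hcyc : φ - t A (k + 2) φ = 0 := by
    rw [(mem_cyc_iff A (k + 2) φ).mp hφ.1, sub_self]
  have h1 : bp A (k + 1) (ψ - t A (k + 1) ψ) = 0 := by
    rw [← rel1, hψ]; exact hcyc
  obtain ⟨χ, hχ⟩ := bp_exact A k (ψ - t A (k + 1) ψ) h1
  have h2 : b A k (NN A k χ) = 0 := by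
    rw [← rel2, hχ, N_one_sub]
  have h3 : NN A k χ ∈ Zc A k := (CH_mem_Zc A k _).mpr ⟨N_mem_cyc A k χ, h2⟩
  obtain ⟨τ, hτ, hodd, hBc⟩ := ih _ h3
  have hk1 : (k : ℂ) + 1 ≠ 0 := by exact_mod_cast Nat.succ_ne_zero k
  obtain ⟨τ', hτ'⟩ : ∃ τ' : A →L[ℂ] ℂ, τ' = ((k : ℂ) + 1)⁻¹ • τ := ⟨_, rfl⟩
  have hτ'm : τ' ∈ TA A := by rw [hτ']; exact Submodule.smul_mem _ _ hτ
  have hodd' : Odd k → τ' = 0 := fun h => by
    rw [hτ', hodd h]
    ext x
    simp
  obtain ⟨f1, f2, f3, f4⟩ := CH_facts A k τ' hτ'm hodd'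
  -- the corrected χ
  have key : ∃ ζ ρ : Cn A k, χ = mt A k τ' + ρ + (ζ - t A k ζ) ∧ bp A k ρ = 0 := by
    have hmt : ((k : ℂ) + 1) • mt A k τ' = mt A k τ := by
      rw [hτ', map_smul, smul_smul, mul_inv_cancel₀ hk1, one_smul]
    cases k with
    | zero =>
      have h4 : NN A 0 χ - mt A 0 τ = 0 := by
        have : NN A 0 χ - mt A 0 τ ∈ (⊥ : Submodule ℂ (Cn A 0)) := hBc
        exact (Submodule.mem_bot ℂ).mp this
      have h5 : NN A 0 (χ - mt A 0 τ') = 0 := by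
        rw [CH_N_sub, f1, hmt]; exact h4
      obtain ⟨ζ, hζ⟩ := ker_N A 0 _ h5
      refine ⟨ζ, 0, ?_, map_zero _⟩
      rw [← hζ]
      module
    | succ j =>
      obtain ⟨η, hη, hbη⟩ : ∃ η ∈ cyc A j, b A j η = NN A (j + 1) χ - mt A (j + 1) τ := hBc
      have hj1 : (j : ℂ) + 1 ≠ 0 := by exact_mod_cast Nat.succ_ne_zero j
      set η' : Cn A j := ((j : ℂ) + 1)⁻¹ • η with hη'
      have h4 : NN A (j + 1) (bp A j η') = b A j η := by
        rw [rel2, hη', CH_N_smul, N_of_cyc A j η hη, smul_smul, inv_mul_cancel₀ hj1, one_smul]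
      have h5 : NN A (j + 1) (χ - mt A (j + 1) τ' - bp A j η') = 0 := by
        rw [CH_N_sub, CH_N_sub, f1, hmt, h4, hbη, sub_self]
      obtain ⟨ζ, hζ⟩ := ker_N A (j + 1) _ h5
      refine ⟨ζ, bp A j η', ?_, bp_bp A j η'⟩
      rw [← hζ]
      module
  obtain ⟨ζ, ρ, hχe, hρ⟩ := key
  have h6 : bp A k χ = mt A (k + 1) τ' + (b A k ζ - t A (k + 1) (b A k ζ)) := by
    rw [hχe, map_add, map_add, f2, hρ, add_zero, rel1]
  obtain ⟨σ, hσ⟩ : ∃ σ : A →L[ℂ] ℂ, σ = (2 : ℂ)⁻¹ • τ' := ⟨_, rfl⟩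
  have hmσ : mt A (k + 1) τ' = (2 : ℂ) • mt A (k + 1) σ := by
    rw [hσ, map_smul, smul_smul]
    norm_num
  have htσ : t A (k + 1) (mt A (k + 1) σ) = -mt A (k + 1) σ := by
    rw [hσ, map_smul, map_smul, f3, smul_neg]
  have hbσ : b A (k + 1) (mt A (k + 1) σ) = mt A (k + 2) σ := by
    rw [hσ, map_smul, map_smul, f4, ← map_smul]
  set ψ' : Cn A (k + 1) := ψ - mt A (k + 1) σ - b A k ζ with hψ'
  have hψ'c : ψ' ∈ cyc A (k + 1) := by
    rw [mem_cyc_iff]
    have h7 : ψ - t A (k + 1) ψ = (2 : ℂ) • mt A (k + 1) σ + (b A k ζ - t A (k + 1) (b A k ζ)) := by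
      rw [← hχ, h6, hmσ]
    rw [hψ', map_sub, map_sub, htσ]
    have h8 : t A (k + 1) ψ = ψ - ((2 : ℂ) • mt A (k + 1) σ + (b A k ζ - t A (k + 1) (b A k ζ))) := by
      rw [← h7]; module
    rw [h8]
    module
  refine ⟨σ, by rw [hσ]; exact Submodule.smul_mem _ _ hτ'm, fun h => ?_, ?_⟩
  · have : Odd k := by
      rw [Nat.odd_add] at h
      exact h.mpr (by decide)
    rw [hσ, hodd' this]
    ext x
    simp
  · refine ⟨ψ', hψ'c, ?_⟩
    change b A (k + 1) ψ' = φ - mt A (k + 2) σ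
    rw [hψ', map_sub, map_sub, hψ, hbσ, b_b, sub_zero]

theorem CH_all (hH : HHv A) (n : ℕ) : CH_P A n := by
  induction n using Nat.strong_induction_on with
  | _ n ih =>
    match n, ih with
    | 0, _ => exact CH_zero A
    | 1, _ => exact CH_one A hH
    | (k + 2), ih => exact CH_step A hH k (ih k (by omega))

theorem coh_odd' (hH : HHv A) (n : ℕ) (hn : Odd n) (φ : Cn A n) (h : φ ∈ Zc A n) : φ ∈ Bc A n := by
  obtain ⟨τ, _, h0, h1⟩ := CH_all A hH n φ h
  rw [h0 hn, map_zero, sub_zero] at h1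
  exact h1

theorem coh_even' (hH : HHv A) (n : ℕ) (hn : Even n) (φ : Cn A n) (h : φ ∈ Zc A n) :
    ∃ τ ∈ TA A, φ - mt A n τ ∈ Bc A n := by
  obtain ⟨τ, h0, _, h1⟩ := CH_all A hH n φ h
  exact ⟨τ, h0, h1⟩

theorem coh_uniq (hH : HHv A) (n : ℕ) (hn : Even n) (τ : A →L[ℂ] ℂ) (hτ : τ ∈ TA A)
    (h : mt A n τ ∈ Bc A n) : τ = 0 := by
  induction n using Nat.strong_induction_on with
  | _ n ih =>
    match n, hn, h, ih with
    | 0, _, h, _ =>
      have h1 : mt A 0 τ = 0 := (Submodule.mem_bot ℂ).mp h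
      exact mt_zero A τ h1
    | 1, hn, _, _ => exact absurd hn (by decide)
    | (k + 2), hn, h, ih =>
      have hk : Even k := by
        rw [Nat.even_add] at hn
        exact hn.mpr (by decide)
      obtain ⟨f1, f2, f3, f4⟩ := CH_facts A k τ hτ
        (fun ho => absurd hk (Nat.not_even_iff_odd.mpr ho))
      obtain ⟨ψ, hψc, hψ⟩ : ∃ ψ ∈ cyc A (k + 1), b A (k + 1) ψ = mt A (k + 2) τ := h
      have h1 : b A (k + 1) (ψ - mt A (k + 1) τ) = 0 := by
        rw [map_sub, hψ, f4, sub_self]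
      obtain ⟨ζ, hζ⟩ := hH k _ h1
      have h2 : bp A k ((2 : ℂ) • mt A k τ + (ζ - t A k ζ)) = 0 := by
        rw [map_add, map_smul, f2, ← rel1, hζ, map_sub, (mem_cyc_iff A (k + 1) ψ).mp hψc, f3]
        module
      have h3 : NN A k ((2 : ℂ) • mt A k τ + (ζ - t A k ζ))
          = (2 * ((k : ℂ) + 1)) • mt A k τ := by
        rw [CH_N_add, N_one_sub, CH_N_smul, f1, add_zero, smul_smul]
      have hk1 : (k : ℂ) + 1 ≠ 0 := by exact_mod_cast Nat.succ_ne_zero k
      have hk2 : 2 * ((k : ℂ) + 1) ≠ 0 := mul_ne_zero two_ne_zero hk1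
      cases k with
      | zero =>
        have h4 := bp_inj A _ h2
        rw [h4] at h3
        have h5 : NN A 0 (0 : Cn A 0) = 0 := by
          have := CH_N_smul A 0 0 0
          rw [zero_smul, zero_smul] at this
          exact this
        rw [h5] at h3
        have h6 : mt A 0 τ = 0 := by
          rcases smul_eq_zero.mp h3.symm with h7 | h7
          · exact absurd h7 hk2
          · exact h7
        exact mt_zero A τ h6
      | succ j =>
        obtain ⟨ξ, hξ⟩ := bp_exact A j _ h2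
        rw [← hξ, rel2] at h3
        apply ih (j + 1) (by omega) hk
        refine ⟨(2 * (((j + 1 : ℕ) : ℂ) + 1))⁻¹ • NN A j ξ,
          Submodule.smul_mem _ _ (N_mem_cyc A j ξ), ?_⟩
        change b A j ((2 * (((j + 1 : ℕ) : ℂ) + 1))⁻¹ • NN A j ξ) = mt A (j + 1) τ
        rw [map_smul, h3, smul_smul, inv_mul_cancel₀ hk2, one_smul]

end H504C
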