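import Pool.Agent.H504C.Defs

/-! Task CB: relations for the signed cyclic permutation `t` and the norm `N`. -/

set_option autoImplicit false

namespace H504C

open Finset

variable (A : Type) [NonUnitalCStarAlgebra A]

namespace CB

variable {A} in
theorem cext {n : ℕ} {φ ψ : Cn A n} (h : ∀ a : Fin (n + 1) → A, φ a = ψ a) : φ = ψ :=
  ContinuousMultilinearMap.ext h

/-- the shift by one -/
noncomputable def tcm {n : ℕ} (φ : Cn A n) : Cn A n :=
  (-1 : ℂ) ^ n • (show Cn A n from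
    (ContinuousMultilinearMap.domDomCongr (Equiv.subRight (1 : Fin (n + 1)))
      (show ContinuousMultilinearMap ℂ (fun _ : Fin (n + 1) => A) ℂ from φ)))

theorem tcm_apply {n : ℕ} (φ : Cn A n) (a : Fin (n + 1) → A) : tcm A φ a = tf φ a := rfl

theorem tcm_norm {n : ℕ} (φ : Cn A n) : ‖tcm A φ‖ ≤ 1 * ‖φ‖ := by
  rw [one_mul]
  refine ContinuousMultilinearMap.opNorm_le_bound (norm_nonneg φ) (fun a => ?_)
  have h1 : ‖tcm A φ a‖ = ‖φ (fun j => a (j - 1))‖ := by
    rw [tcm_apply, tf, norm_mul, norm_pow, norm_neg, norm_one, one_pow, one_mul]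
  refine (le_of_eq h1).trans ?_
  refine (ContinuousMultilinearMap.le_opNorm
    (show ContinuousMultilinearMap ℂ (fun _ : Fin (n + 1) => A) ℂ from φ) _).trans ?_
  apply mul_le_mul_of_nonneg_left (le_of_eq _) (norm_nonneg φ)
  exact Equiv.prod_comp (Equiv.subRight (1 : Fin (n + 1))) (fun j => ‖a j‖)

theorem t_apply (n : ℕ) (φ : Cn A n) (a : Fin (n + 1) → A) : t A n φ a = tf φ a := by
  have h : ∃ L : Cn A n →L[ℂ] Cn A n, ∀ φ a, L φ a = tf φ a := by
    refine ⟨LinearMap.mkContinuous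
      { toFun := fun φ => tcm A φ
        map_add' := fun φ ψ => cext fun a => ?_
        map_smul' := fun c φ => cext fun a => ?_ } 1 (fun φ => tcm_norm A φ), fun φ a => rfl⟩
    · show (-1 : ℂ) ^ n * (φ _ + ψ _) = (-1 : ℂ) ^ n * φ _ + (-1 : ℂ) ^ n * ψ _
      rw [mul_add]
    · show (-1 : ℂ) ^ n * (c * φ _) = c * ((-1 : ℂ) ^ n * φ _)
      rw [mul_left_comm]
  rw [t, dif_pos h]
  exact h.choose_spec φ a

theorem iter (n : ℕ) (φ : Cn A n) (k : ℕ) (a : Fin (n + 1) → A) :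
    (t A n)^[k] φ a = ((-1 : ℂ) ^ n) ^ k * φ (fun j => a (j - k • (1 : Fin (n + 1)))) := by
  induction k generalizing a with
  | zero =>
    rw [Function.iterate_zero, id, pow_zero, one_mul]
    congr 1
    ext j
    rw [zero_nsmul, sub_zero]
  | succ k ih =>
    rw [Function.iterate_succ_apply', t_apply, tf, ih, pow_succ', mul_assoc]
    congr 3
    ext j
    rw [succ_nsmul, sub_sub]

end CB

theorem mem_cyc_iff (n : ℕ) (φ : Cn A n) : φ ∈ cyc A n ↔ t A n φ = φ := by
  constructor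
  · intro h
    apply CB.cext
    intro a
    rw [CB.t_apply, tf]
    have h1 := h (fun j => a (j - 1))
    simp only [add_sub_cancel_right] at h1
    exact h1.symm
  · intro h a
    have h1 : φ (fun j => a (j + 1)) = t A n φ (fun j => a (j + 1)) := by rw [h]
    rw [h1, CB.t_apply, tf]
    simp only [sub_add_cancel]

theorem t_pow (n : ℕ) (φ : Cn A n) : (t A n)^[n + 1] φ = φ := by
  apply CB.cext
  intro a
  rw [CB.iter]
  have h1 : (n + 1) • (1 : Fin (n + 1)) = 0 := by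
    have := card_nsmul_eq_zero (x := (1 : Fin (n + 1)))
    rwa [Fintype.card_fin] at this
  rw [h1, ← pow_mul, (Nat.even_mul_succ_self n).neg_one_pow, one_mul]
  simp only [sub_zero]

theorem ker_N (n : ℕ) (φ : Cn A n) (h : NN A n φ = 0) : ∃ ψ : Cn A n, φ = ψ - t A n ψ := by
  have key : ∀ m : ℕ, ∑ k ∈ range (m + 1), (k : ℂ) • ((t A n)^[k] φ - (t A n)^[k + 1] φ) =
      ∑ k ∈ range (m + 1), (t A n)^[k] φ - φ - (m : ℂ) • (t A n)^[m + 1] φ := by
    intro m
    induction m with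
    | zero => simp
    | succ m ih =>
      rw [sum_range_succ, ih, sum_range_succ (fun k => (t A n)^[k] φ) (m + 1)]
      push_cast
      module
  have h1 := key n
  have h2 : ∑ k ∈ range (n + 1), (t A n)^[k] φ = 0 := h
  rw [h2, t_pow] at h1
  have hn : ((n : ℂ) + 1) ≠ 0 := by exact_mod_cast Nat.succ_ne_zero n
  refine ⟨(-((n : ℂ) + 1)⁻¹) • ∑ k ∈ range (n + 1), (k : ℂ) • (t A n)^[k] φ, ?_⟩
  have h3 : t A n (∑ k ∈ range (n + 1), (k : ℂ) • (t A n)^[k] φ) =
      ∑ k ∈ range (n + 1), (k : ℂ) • (t A n)^[k + 1] φ := by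
    rw [map_sum]
    apply sum_congr rfl
    intro k _
    rw [map_smul, Function.iterate_succ_apply']
  rw [map_smul, h3, ← smul_sub, ← sum_sub_distrib]
  simp only [← smul_sub]
  rw [h1]
  have h4 : (0 : Cn A n) - φ - (n : ℂ) • φ = (-((n : ℂ) + 1)) • φ := by module
  rw [h4, smul_smul, neg_mul_neg, inv_mul_cancel₀ hn, one_smul]

theorem N_t (n : ℕ) (φ : Cn A n) :
    ∑ k ∈ range (n + 1), (t A n)^[k + 1] φ = NN A n φ := by
  have h1 := sum_range_succ' (fun k => (t A n)^[k] φ) (n + 1)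
  have h2 := sum_range_succ (fun k => (t A n)^[k] φ) (n + 1)
  rw [h1, t_pow] at h2
  exact add_right_cancel h2

theorem N_mem_cyc (n : ℕ) (φ : Cn A n) : NN A n φ ∈ cyc A n := by
  rw [mem_cyc_iff]
  conv_lhs => rw [NN, map_sum]
  rw [← N_t]
  apply sum_congr rfl
  intro k _
  rw [Function.iterate_succ_apply']

theorem N_of_cyc (n : ℕ) (φ : Cn A n) (h : φ ∈ cyc A n) : NN A n φ = ((n : ℂ) + 1) • φ := by
  rw [mem_cyc_iff] at h
  have h1 : ∀ k : ℕ, (t A n)^[k] φ = φ := fun k => Function.iterate_fixed h k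
  rw [NN, sum_congr rfl (fun k _ => h1 k), sum_const, card_range, ← Nat.cast_smul_eq_nsmul ℂ]
  push_cast
  rfl

theorem N_one_sub (n : ℕ) (φ : Cn A n) : NN A n (φ - t A n φ) = 0 := by
  have h1 : ∀ k : ℕ, (t A n)^[k] (φ - t A n φ) = (t A n)^[k] φ - (t A n)^[k + 1] φ := by
    intro k
    rw [iterate_map_sub, Function.iterate_succ_apply]
  rw [NN, sum_congr rfl (fun k _ => h1 k), sum_sub_distrib, N_t]
  exact sub_self _

end H504C
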