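import Pool.Agent.H504C.TaskCA
import Pool.Agent.H504C.TaskCB
import Pool.Agent.H504C.TaskCC
import Pool.Agent.H504C.TaskCP
import Pool.Agent.H504C.TaskCH

set_option autoImplicit false

namespace H504C

open Finset

variable (A : Type) [NonUnitalCStarAlgebra A]

instance CI_complete_Cn (n : ℕ) : CompleteSpace (Cn A n) :=
  inferInstanceAs (CompleteSpace (ContinuousMultilinearMap ℂ (fun _ : Fin (n + 1) => A) ℂ))

lemma CI_continuous_eval (n : ℕ) (a : Fin (n + 1) → A) : Continuous fun φ : Cn A n => φ a :=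
  (show Cn A n →L[ℂ] ℂ from ev A n a).continuous

theorem cyc_closed (n : ℕ) : IsClosed ((cyc A n : Submodule ℂ (Cn A n)) : Set (Cn A n)) := by
  have e : ((cyc A n : Submodule ℂ (Cn A n)) : Set (Cn A n)) =
      ⋂ a : Fin (n + 1) → A, {φ : Cn A n | φ (fun j => a (j + 1)) = (-1 : ℂ) ^ n * φ a} := by
    ext φ
    simp only [Set.mem_iInter]
    exact Iff.rfl
  rw [e]
  exact isClosed_iInter fun a => isClosed_eq (CI_continuous_eval A n _)
    (continuous_const.mul (CI_continuous_eval A n a))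

theorem Zc_closed (n : ℕ) : IsClosed ((Zc A n : Submodule ℂ (Cn A n)) : Set (Cn A n)) := by
  have e : ((Zc A n : Submodule ℂ (Cn A n)) : Set (Cn A n)) =
      ((cyc A n : Submodule ℂ (Cn A n)) : Set (Cn A n)) ∩ {φ | b A n φ = 0} := by
    ext φ
    rfl
  rw [e]
  exact (cyc_closed A n).inter (isClosed_eq (b A n).continuous continuous_const)

theorem TA_closed : IsClosed ((TA A : Submodule ℂ (A →L[ℂ] ℂ)) : Set (A →L[ℂ] ℂ)) := by
  have e : ((TA A : Submodule ℂ (A →L[ℂ] ℂ)) : Set (A →L[ℂ] ℂ)) =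
      ⋂ x : A, ⋂ y : A, {f : A →L[ℂ] ℂ | f (x * y) = f (y * x)} := by
    ext f
    simp only [Set.mem_iInter]
    exact Iff.rfl
  rw [e]
  exact isClosed_iInter fun x => isClosed_iInter fun y =>
    isClosed_eq (ContinuousEvalConst.continuous_eval_const _)
      (ContinuousEvalConst.continuous_eval_const _)

theorem Bc_le (n : ℕ) : Bc A n ≤ Zc A n := by
  cases n with
  | zero => exact bot_le
  | succ n =>
    rintro _ ⟨φ, hφ, rfl⟩
    have h1 : t A n φ = φ := (mem_cyc_iff A n φ).1 hφ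
    refine ⟨?_, ?_⟩
    · show b A n φ ∈ cyc A (n + 1)
      rw [mem_cyc_iff]
      have h2 := rel1 A n φ
      rw [h1, sub_self, map_zero] at h2
      exact (sub_eq_zero.1 h2).symm
    · show b A (n + 1) (b A n φ) = 0
      exact b_b A n φ

/-- open mapping for a sum of two maps on closed subspaces -/
lemma CI_open {V X Y : Type} [NormedAddCommGroup V] [NormedSpace ℂ V] [CompleteSpace V]
    [NormedAddCommGroup X] [NormedSpace ℂ X] [CompleteSpace X]
    [NormedAddCommGroup Y] [NormedSpace ℂ Y] [CompleteSpace Y]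
    (P : Submodule ℂ V) (Q : Submodule ℂ X) (Z : Submodule ℂ Y)
    (hP : IsClosed (P : Set V)) (hQ : IsClosed (Q : Set X)) (hZ : IsClosed (Z : Set Y))
    (f : V →L[ℂ] Y) (g : X →L[ℂ] Y) (hf : ∀ v ∈ P, f v ∈ Z) (hg : ∀ x ∈ Q, g x ∈ Z)
    (hs : ∀ z ∈ Z, ∃ v ∈ P, ∃ x ∈ Q, f v + g x = z) :
    ∃ C : ℝ, ∀ z ∈ Z, ∃ v ∈ P, ∃ x ∈ Q, ‖v‖ ≤ C * ‖z‖ ∧ f v + g x = z := by
  have h1 : CompleteSpace P := hP.completeSpace_coe
  have h2 : CompleteSpace Q := hQ.completeSpace_coe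
  have h3 : CompleteSpace Z := hZ.completeSpace_coe
  let T0 : (P × Q) →L[ℂ] Y := (f.comp P.subtypeL).coprod (g.comp Q.subtypeL)
  have hT0 : ∀ p : P × Q, T0 p = f p.1 + g p.2 := fun p => rfl
  let T : (P × Q) →L[ℂ] Z := T0.codRestrict Z
    (fun p => Z.add_mem (hf p.1 p.1.2) (hg p.2 p.2.2))
  have hsurj : Function.Surjective T := by
    intro z
    obtain ⟨v, hv, x, hx, h⟩ := hs z z.2
    exact ⟨(⟨v, hv⟩, ⟨x, hx⟩), Subtype.ext h⟩
  obtain ⟨C, hC, h⟩ := ContinuousLinearMap.exists_preimage_norm_le T hsurj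
  refine ⟨C, fun z hz => ?_⟩
  obtain ⟨p, hp, hpn⟩ := h ⟨z, hz⟩
  refine ⟨p.1, p.1.2, p.2, p.2.2, ?_, congrArg Subtype.val hp⟩
  have h4 : ‖(p.1 : V)‖ ≤ ‖p‖ := norm_fst_le p
  exact h4.trans hpn

lemma CI_equiv {V Y : Type} [NormedAddCommGroup V] [NormedSpace ℂ V] [CompleteSpace V]
    [NormedAddCommGroup Y] [NormedSpace ℂ Y] [CompleteSpace Y]
    (P : Submodule ℂ V) (Z B : Submodule ℂ Y)
    (hP : IsClosed (P : Set V)) (hZ : IsClosed (Z : Set Y)) (hB : IsClosed (B : Set Y))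
    (f : V →L[ℂ] Y) (hf : ∀ v ∈ P, f v ∈ Z) (hi : ∀ v ∈ P, f v ∈ B → v = 0)
    (hs : ∀ z ∈ Z, ∃ v ∈ P, z - f v ∈ B) :
    Nonempty ((Z ⧸ B.submoduleOf Z) ≃L[ℂ] P) := by
  have h1 : CompleteSpace P := hP.completeSpace_coe
  have h3 : CompleteSpace Z := hZ.completeSpace_coe
  have hcl : IsClosed ((B.submoduleOf Z : Submodule ℂ Z) : Set Z) := by
    have e : ((B.submoduleOf Z : Submodule ℂ Z) : Set Z) =
        (fun φ : Z => (φ : Y)) ⁻¹' (B : Set Y) := rfl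
    rw [e]
    exact hB.preimage continuous_subtype_val
  let L0 : P →L[ℂ] Z := (f.comp P.subtypeL).codRestrict Z (fun v => hf v v.2)
  let L : P →L[ℂ] (Z ⧸ B.submoduleOf Z) := (B.submoduleOf Z).mkQL.comp L0
  have hinj : L.ker = ⊥ := by
    rw [LinearMap.ker_eq_bot']
    intro v hv
    have h4 : L0 v ∈ B.submoduleOf Z := (Submodule.Quotient.mk_eq_zero _).1 hv
    have h5 : f (v : V) ∈ B := h4
    exact Subtype.ext (hi v v.2 h5)
  have hsurj : L.range = ⊤ := by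
    rw [LinearMap.range_eq_top]
    intro x
    obtain ⟨φ, rfl⟩ := Submodule.Quotient.mk_surjective _ x
    obtain ⟨v, hv, h⟩ := hs φ φ.2
    refine ⟨⟨v, hv⟩, ?_⟩
    have h6 : φ - L0 ⟨v, hv⟩ ∈ B.submoduleOf Z := h
    exact ((Submodule.Quotient.eq _).2 h6).symm
  exact ⟨(ContinuousLinearEquiv.ofBijective L hinj hsurj).symm⟩

theorem coh_bound (hH : HHv A) (n : ℕ) (hn : Even n) : ∃ C : ℝ, ∀ φ ∈ Zc A n,
    ∃ τ ∈ TA A, ‖τ‖ ≤ C * ‖φ‖ ∧ φ - mt A n τ ∈ Bc A n := by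
  cases n with
  | zero =>
    refine ⟨1, fun φ hφ => ?_⟩
    obtain ⟨τ, hτ, h⟩ := coh_even' A hH 0 hn φ hφ
    refine ⟨τ, hτ, ?_, h⟩
    have h1 : φ = mt A 0 τ := by
      have h2 : φ - mt A 0 τ = 0 := h
      exact sub_eq_zero.1 h2
    rw [one_mul]
    refine ContinuousLinearMap.opNorm_le_bound _ (norm_nonneg _) fun x => ?_
    have h3 : τ x = φ (fun _ => x) := by
      rw [h1, mt_apply]
      rfl
    rw [h3]
    have h4 := ContinuousMultilinearMap.le_opNorm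
      (show ContinuousMultilinearMap ℂ (fun _ : Fin (0 + 1) => A) ℂ from φ) (fun _ => x)
    calc ‖φ (fun _ => x)‖ ≤ ‖φ‖ * ∏ _i : Fin (0 + 1), ‖x‖ := h4
      _ = ‖φ‖ * ‖x‖ := by simp
  | succ m =>
    obtain ⟨C, hC⟩ := CI_open (TA A) (cyc A m) (Zc A (m + 1)) (TA_closed A) (cyc_closed A m)
      (Zc_closed A (m + 1)) (mt A (m + 1)) (b A m) (fun τ hτ => mt_mem A (m + 1) hn τ hτ)
      (fun ψ hψ => Bc_le A (m + 1) ⟨ψ, hψ, rfl⟩)
      (fun φ hφ => by
        obtain ⟨τ, hτ, ψ, hψ, h⟩ := coh_even' A hH (m + 1) hn φ hφ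
        refine ⟨τ, hτ, ψ, hψ, ?_⟩
        have h' : b A m ψ = φ - mt A (m + 1) τ := h
        rw [h']; abel)
    refine ⟨C, fun φ hφ => ?_⟩
    obtain ⟨τ, hτ, ψ, hψ, hn', h⟩ := hC φ hφ
    refine ⟨τ, hτ, hn', ψ, hψ, ?_⟩
    show b A m ψ = φ - mt A (m + 1) τ
    rw [← h]; abel

theorem Bc_closed (hH : HHv A) (n : ℕ) : IsClosed ((Bc A n : Submodule ℂ (Cn A n)) : Set (Cn A n)) := by
  rcases Nat.even_or_odd n with hn | hn
  · obtain ⟨C, hC⟩ := coh_bound A hH n hn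
    refine isClosed_of_closure_subset fun φ hφ => ?_
    have hZ : φ ∈ Zc A n := by
      have h1 : closure ((Bc A n : Submodule ℂ (Cn A n)) : Set (Cn A n)) ⊆ Zc A n :=
        closure_minimal (Bc_le A n) (Zc_closed A n)
      exact h1 hφ
    obtain ⟨τ, hτ, h⟩ := coh_even' A hH n hn φ hZ
    have key : ∀ β ∈ Bc A n, ‖τ‖ ≤ C * ‖φ - β‖ := by
      intro β hβ
      obtain ⟨σ, hσ, hσn, hσB⟩ := hC (φ - β) ((Zc A n).sub_mem hZ (Bc_le A n hβ))
      have h2 : mt A n (τ - σ) ∈ Bc A n := by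
        have h3 : mt A n (τ - σ) = (φ - β - mt A n σ) - (φ - mt A n τ) + β := by
          rw [map_sub]; abel
        rw [h3]
        exact (Bc A n).add_mem ((Bc A n).sub_mem hσB h) hβ
      have h4 := coh_uniq A hH n hn (τ - σ) ((TA A).sub_mem hτ hσ) h2
      rw [sub_eq_zero.1 h4]
      exact hσn
    have hτ0 : τ = 0 := by
      have h5 : ‖τ‖ ≤ 0 := by
        rw [Metric.mem_closure_iff] at hφ
        refine le_of_forall_pos_le_add fun ε hε => ?_
        obtain ⟨β, hβ, hd⟩ := hφ (ε / (|C| + 1)) (by positivity)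
        rw [dist_eq_norm] at hd
        have h6 := key β hβ
        have h7 : C * ‖φ - β‖ ≤ (|C| + 1) * (ε / (|C| + 1)) := by
          have h8 : C ≤ |C| + 1 := (le_abs_self C).trans (by linarith)
          exact mul_le_mul h8 hd.le (norm_nonneg _) (by positivity)
        have h9 : (|C| + 1) * (ε / (|C| + 1)) = ε := by field_simp
        linarith
      exact norm_le_zero_iff.1 h5
    rw [hτ0, map_zero, sub_zero] at h
    exact h
  · have e : Bc A n = Zc A n := le_antisymm (Bc_le A n) fun φ hφ => coh_odd' A hH n hn φ hφ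
    rw [e]
    exact Zc_closed A n

theorem coh_even (hH : HHv A) (n : ℕ) (hn : Even n) : Nonempty (HCc A n ≃L[ℂ] TA A) :=
  CI_equiv (TA A) (Zc A n) (Bc A n) (TA_closed A) (Zc_closed A n) (Bc_closed A hH n) (mt A n)
    (fun τ hτ => mt_mem A n hn τ hτ) (fun τ hτ h => coh_uniq A hH n hn τ hτ h)
    (fun φ hφ => coh_even' A hH n hn φ hφ)

theorem coh_odd (hH : HHv A) (n : ℕ) (hn : Odd n) : Subsingleton (HCc A n) := by
  rw [Submodule.Quotient.subsingleton_iff, eq_top_iff]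
  intro φ _
  exact coh_odd' A hH n hn φ φ.2

end H504C
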