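import Pool.Agent.H504C.Defs
import Pool.Agent.H504C.TaskCA
import Pool.Agent.H504C.TaskCB
import Pool.Agent.H504C.TaskCC

/-! TASK CJ (helper278): the transposes exist -/

set_option autoImplicit false

namespace H504C

open Finset

variable (A : Type) [NonUnitalCStarAlgebra A]

/-- general transposition principle -/
theorem CJ_transpose {n m : ℕ} (L : Cn A n →L[ℂ] Cn A m)
    (hL : ∀ a : Fin (m + 1) → A, ∃ G ∈ Submodule.span ℂ (Set.range (ev A n)),
      ∀ φ : Cn A n, (L φ) a = G φ) :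
    ∃ T : X A m →L[ℂ] X A n, ∀ F φ, (T F).1 φ = F.1 (L φ) := by
  -- the transpose on the whole dual
  let Φ : (Cn A m →L[ℂ] ℂ) →L[ℂ] (Cn A n →L[ℂ] ℂ) :=
    (ContinuousLinearMap.compL ℂ (Cn A n) (Cn A m) ℂ).flip L
  have hΦ : ∀ (F : Cn A m →L[ℂ] ℂ) (φ : Cn A n), Φ F φ = F (L φ) := fun F φ => rfl
  have hspan : ∀ F : Dn A m, F ∈ Submodule.span ℂ (Set.range (ev A m)) →
      (Φ F : Dn A n) ∈ Submodule.span ℂ (Set.range (ev A n)) := by
    intro F hF
    induction hF using Submodule.span_induction with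
    | mem x hx =>
      obtain ⟨a, rfl⟩ := hx
      obtain ⟨G, hG, hGφ⟩ := hL a
      have : (Φ (ev A m a) : Dn A n) = G := by
        apply ContinuousLinearMap.ext
        intro φ
        exact hGφ φ
      rw [this]
      exact hG
    | zero =>
      have : (Φ (0 : Dn A m) : Dn A n) = 0 := Φ.map_zero
      rw [this]; exact Submodule.zero_mem _
    | add x y _ _ hx hy =>
      have : (Φ (x + y : Dn A m) : Dn A n) = Φ x + Φ y := Φ.map_add x y
      rw [this]; exact Submodule.add_mem _ hx hy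
    | smul c x _ hx =>
      have : (Φ (c • x : Dn A m) : Dn A n) = c • Φ x := Φ.map_smul c x
      rw [this]; exact Submodule.smul_mem _ c hx
  have hcl : ∀ F : Dn A m, F ∈ X A m → (Φ F : Dn A n) ∈ X A n := by
    intro F hF
    have h1 : F ∈ closure ((Submodule.span ℂ (Set.range (ev A m)) : Submodule ℂ (Dn A m)) :
        Set (Dn A m)) := hF
    have h2 : (Φ F : Dn A n) ∈ closure ((Submodule.span ℂ (Set.range (ev A n)) :
        Submodule ℂ (Dn A n)) : Set (Dn A n)) :=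
      map_mem_closure Φ.continuous h1 (fun x hx => hspan x hx)
    exact h2
  let Φ' : Dn A m →L[ℂ] Dn A n := Φ
  refine ⟨(Φ'.comp (X A m).subtypeL).codRestrict (X A n) (fun F => hcl F.1 F.2), ?_⟩
  intro F φ
  rfl

theorem CJ_sum_apply {n : ℕ} {ι : Type} (s : Finset ι) (f : ι → Dn A n) (φ : Cn A n) :
    (∑ i ∈ s, f i : Dn A n) φ = ∑ i ∈ s, (f i) φ := by
  classical
  induction s using Finset.induction_on with
  | empty => rfl
  | insert a s ha ih =>
    rw [Finset.sum_insert ha, Finset.sum_insert ha, ← ih]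
    rfl

theorem CJ_bp_apply' (n : ℕ) (a : Fin (n + 2) → A) :
    ∃ G ∈ Submodule.span ℂ (Set.range (ev A n)), ∀ φ : Cn A n, (bp A n φ) a = G φ := by
  refine ⟨∑ i : Fin (n + 1), (-1 : ℂ) ^ (i : ℕ) • ev A n (mulAt i a), ?_, ?_⟩
  · exact Submodule.sum_mem _ fun i _ => Submodule.smul_mem _ _ (Submodule.subset_span ⟨_, rfl⟩)
  · intro φ
    rw [bp_apply, CJ_sum_apply]
    rfl

theorem CJ_b_apply' (n : ℕ) (a : Fin (n + 2) → A) :
    ∃ G ∈ Submodule.span ℂ (Set.range (ev A n)), ∀ φ : Cn A n, (b A n φ) a = G φ := by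
  obtain ⟨G, hG, hGφ⟩ := CJ_bp_apply' A n a
  refine ⟨G + (-1 : ℂ) ^ (n + 1) • ev A n (mulLast a), ?_, ?_⟩
  · exact Submodule.add_mem _ hG (Submodule.smul_mem _ _ (Submodule.subset_span ⟨_, rfl⟩))
  · intro φ
    rw [b_apply]
    have h1 := hGφ φ
    rw [bp_apply] at h1
    show bpf φ a + (-1 : ℂ) ^ (n + 1) * φ (mulLast a) = _
    rw [h1]
    rfl

theorem CJ_t_apply' (n : ℕ) (a : Fin (n + 1) → A) :
    ∃ G ∈ Submodule.span ℂ (Set.range (ev A n)), ∀ φ : Cn A n, (t A n φ) a = G φ := by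
  refine ⟨(-1 : ℂ) ^ n • ev A n (fun j => a (j - 1)), ?_, ?_⟩
  · exact (Submodule.smul_mem _ _ (Submodule.subset_span ⟨_, rfl⟩))
  · intro φ
    rw [t_apply]
    rfl

theorem bX_apply (n : ℕ) (F : X A (n + 1)) (φ : Cn A n) : (bX A n F).1 φ = F.1 (b A n φ) := by
  have h : ∃ L : X A (n + 1) →L[ℂ] X A n, ∀ F φ, (L F).1 φ = F.1 (b A n φ) :=
    CJ_transpose A (b A n) (CJ_b_apply' A n)
  have h2 : bX A n = h.choose := by
    unfold bX
    rw [dif_pos h]
  rw [h2]
  exact h.choose_spec F φ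

theorem tX_apply (n : ℕ) (F : X A n) (φ : Cn A n) : (tX A n F).1 φ = F.1 (t A n φ) := by
  have h : ∃ L : X A n →L[ℂ] X A n, ∀ F φ, (L F).1 φ = F.1 (t A n φ) :=
    CJ_transpose A (t A n) (CJ_t_apply' A n)
  have h2 : tX A n = h.choose := by
    unfold tX
    rw [dif_pos h]
  rw [h2]
  exact h.choose_spec F φ

theorem CJ_bpX (n : ℕ) : ∃ L : X A (n + 1) →L[ℂ] X A n, ∀ F φ, (L F).1 φ = F.1 (bp A n φ) :=
  CJ_transpose A (bp A n) (CJ_bp_apply' A n)

theorem CJ_ext {n : ℕ} {F G : X A n} (h : ∀ φ : Cn A n, F.1 φ = G.1 φ) : F = G := by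
  apply Subtype.ext
  exact ContinuousLinearMap.ext h

theorem bY_mk (n : ℕ) (F : X A (n + 1)) :
    bY A n (Submodule.Quotient.mk F) = Submodule.Quotient.mk (bX A n F) := by
  have h : ∃ L : Y A (n + 1) →L[ℂ] Y A n, ∀ F : X A (n + 1),
      L (Submodule.Quotient.mk F) = Submodule.Quotient.mk (bX A n F) := by
    have hker : Rt A (n + 1) ≤ ((Rt A n).mkQL.comp (bX A n)).ker := by
      rintro F ⟨G, rfl⟩
      obtain ⟨bpX, hbpX⟩ := CJ_bpX A n
      show (Submodule.Quotient.mk (bX A n (G - tX A (n + 1) G)) : Y A n) = 0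
      rw [Submodule.Quotient.mk_eq_zero]
      refine ⟨bpX G, ?_⟩
      show bpX G - tX A n (bpX G) = bX A n (G - tX A (n + 1) G)
      apply CJ_ext
      intro φ
      rw [bX_apply]
      show (bpX G).1 φ - (tX A n (bpX G)).1 φ =
        G.1 (b A n φ) - (tX A (n + 1) G).1 (b A n φ)
      rw [tX_apply, tX_apply, hbpX, hbpX]
      have h1 := CC_rel1_of A (b_apply A) (bp_apply A) (t_apply A) n φ
      have h2 : (G.1 : Cn A (n + 1) →L[ℂ] ℂ) (b A n φ - t A (n + 1) (b A n φ)) =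
        G.1 (b A n φ) - G.1 (t A (n + 1) (b A n φ)) := ContinuousLinearMap.map_sub _ _ _
      have h3 : (G.1 : Cn A (n + 1) →L[ℂ] ℂ) (bp A n (φ - t A n φ)) =
        G.1 (bp A n φ) - G.1 (bp A n (t A n φ)) := by
        rw [map_sub (bp A n)]
        exact ContinuousLinearMap.map_sub _ _ _
      rw [← h2, ← h3, h1]
    exact ⟨(Rt A (n + 1)).liftQL ((Rt A n).mkQL.comp (bX A n)) hker, fun F => rfl⟩
  have h2 : bY A n = h.choose := by
    unfold bY
    rw [dif_pos h]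
  rw [h2]
  exact h.choose_spec F

theorem CJ_tX_iter (n k : ℕ) (F : X A n) (φ : Cn A n) :
    ((tX A n ^ k) F).1 φ = F.1 ((t A n)^[k] φ) := by
  induction k generalizing F φ with
  | zero => rfl
  | succ k ih =>
    rw [pow_succ]
    show ((tX A n ^ k) (tX A n F)).1 φ = _
    rw [ih, tX_apply, Function.iterate_succ_apply']

theorem CJ_tX_pow (n : ℕ) : tX A n ^ (n + 1) = 1 := by
  apply ContinuousLinearMap.ext
  intro F
  apply CJ_ext
  intro φ
  rw [CJ_tX_iter, t_pow]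
  rfl

theorem CJ_Rt_eq (n : ℕ) : Rt A n =
    LinearMap.ker ((∑ k ∈ range (n + 1), tX A n ^ k : X A n →L[ℂ] X A n)).toLinearMap := by
  have hid : (ContinuousLinearMap.id ℂ (X A n) - tX A n) = 1 - tX A n := rfl
  apply le_antisymm
  · rintro F ⟨G, rfl⟩
    show (∑ k ∈ range (n + 1), tX A n ^ k : X A n →L[ℂ] X A n) ((1 - tX A n) G) = 0
    have h := geom_sum_mul_neg (tX A n) (n + 1)
    have h2 : ((∑ k ∈ range (n + 1), tX A n ^ k) * (1 - tX A n) : X A n →L[ℂ] X A n) G = 0 := by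
      rw [h, CJ_tX_pow, sub_self]
      rfl
    exact h2
  · intro F hF
    have hF' : (∑ k ∈ range (n + 1), tX A n ^ k : X A n →L[ℂ] X A n) F = 0 := hF
    have hM : ((n : ℂ) + 1) ≠ 0 := by exact_mod_cast Nat.succ_ne_zero n
    refine ⟨((n : ℂ) + 1)⁻¹ • ∑ k ∈ range (n + 1), (∑ j ∈ range k, tX A n ^ j) F, ?_⟩
    show (1 - tX A n) (((n : ℂ) + 1)⁻¹ • ∑ k ∈ range (n + 1), (∑ j ∈ range k, tX A n ^ j) F) = F
    rw [map_smul, map_sum]
    have h1 : ∀ k ∈ range (n + 1), (1 - tX A n) ((∑ j ∈ range k, tX A n ^ j) F) =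
        F - (tX A n ^ k) F := by
      intro k _
      have h := mul_neg_geom_sum (tX A n) k
      have h3 : ((1 - tX A n) * (∑ j ∈ range k, tX A n ^ j) : X A n →L[ℂ] X A n) F =
        (1 - tX A n ^ k : X A n →L[ℂ] X A n) F := by rw [h]
      exact h3
    rw [sum_congr rfl h1, sum_sub_distrib]
    rw [_root_.sum_apply] at hF'
    rw [hF', sub_zero, sum_const, card_range, ← Nat.cast_smul_eq_nsmul ℂ, smul_smul]
    push_cast
    rw [inv_mul_cancel₀ hM, one_smul]

theorem Rt_closed (n : ℕ) : IsClosed ((Rt A n : Submodule ℂ (X A n)) : Set (X A n)) := by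
  rw [CJ_Rt_eq]
  exact ContinuousLinearMap.isClosed_ker _

end H504C
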