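import Pool.Agent.H504C.Defs
import Pool.Agent.H504C.TaskCB

/-! Task CK: duality. -/

set_option autoImplicit false

namespace H504C

open Finset

variable (A : Type) [NonUnitalCStarAlgebra A]

theorem CK_ev_mem (n : ℕ) (a : Fin (n + 1) → A) : ev A n a ∈ X A n :=
  Submodule.le_topologicalClosure _ (Submodule.subset_span ⟨a, rfl⟩)

theorem CK_ev_apply (n : ℕ) (a : Fin (n + 1) → A) (φ : Cn A n) : ev A n a φ = φ a := rfl

theorem CK_ext {n : ℕ} {φ ψ : Cn A n} (h : ∀ a : Fin (n + 1) → A, φ a = ψ a) : φ = ψ :=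
  ContinuousMultilinearMap.ext h

theorem CK_ev_norm (n : ℕ) (a : Fin (n + 1) → A) : ‖ev A n a‖ ≤ ∏ i, ‖a i‖ :=
  LinearMap.mkContinuous_norm_le _ (prod_nonneg fun _ _ => norm_nonneg _) _

/-- the functional `a ↦ f (ev a)` -/
noncomputable def CK_phi (n : ℕ) (f : X A n →L[ℂ] ℂ) : Cn A n :=
  MultilinearMap.mkContinuous
    { toFun := fun a => f ⟨ev A n a, CK_ev_mem A n a⟩
      map_update_add' := by
        intro _ m i x y
        rw [← map_add]
        congr 1
        apply Subtype.ext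
        refine ContinuousLinearMap.ext fun φ => ?_
        exact MultilinearMap.map_update_add
          (show ContinuousMultilinearMap ℂ (fun _ : Fin (n + 1) => A) ℂ from φ).toMultilinearMap
          m i x y
      map_update_smul' := by
        intro _ m i c x
        rw [← map_smul]
        congr 1
        apply Subtype.ext
        refine ContinuousLinearMap.ext fun φ => ?_
        exact MultilinearMap.map_update_smul
          (show ContinuousMultilinearMap ℂ (fun _ : Fin (n + 1) => A) ℂ from φ).toMultilinearMap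
          m i c x }
    ‖f‖ (fun a => (f.le_opNorm _).trans
      (mul_le_mul_of_nonneg_left (CK_ev_norm A n a) (norm_nonneg _)))

theorem CK_phi_apply (n : ℕ) (f : X A n →L[ℂ] ℂ) (a : Fin (n + 1) → A) :
    CK_phi A n f a = f ⟨ev A n a, CK_ev_mem A n a⟩ := rfl

theorem dual_X (n : ℕ) (f : X A n →L[ℂ] ℂ) :
    ∃ φ : Cn A n, ‖φ‖ ≤ ‖f‖ ∧ ∀ F : X A n, f F = F.1 φ := by
  refine ⟨CK_phi A n f, MultilinearMap.mkContinuous_norm_le _ f.opNorm_nonneg _, ?_⟩
  obtain ⟨g, hg, -⟩ := exists_extension_norm_eq (𝕜 := ℂ) (X A n) f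
  let E : Dn A n →L[ℂ] ℂ := (ContinuousLinearMap.apply ℂ ℂ (CK_phi A n f) :
      (Cn A n →L[ℂ] ℂ) →L[ℂ] ℂ)
  have key : X A n ≤ LinearMap.ker (g - E : Dn A n →L[ℂ] ℂ).toLinearMap := by
    apply Submodule.topologicalClosure_minimal
    · rw [Submodule.span_le]
      rintro _ ⟨a, rfl⟩
      show g (ev A n a) - ev A n a (CK_phi A n f) = 0
      rw [CK_ev_apply, CK_phi_apply, ← hg]
      exact sub_self _
    · exact ContinuousLinearMap.isClosed_ker _
  intro F
  have h := key F.2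
  have h2 : g F.1 - F.1 (CK_phi A n f) = 0 := h
  rw [← hg F]
  exact sub_eq_zero.1 h2

theorem X_sep (n : ℕ) (φ : Cn A n) (h : ∀ F : X A n, F.1 φ = 0) : φ = 0 :=
  CK_ext A fun a => h ⟨ev A n a, CK_ev_mem A n a⟩

/-- `dual_Y` with the statements of the tasks CB and CJ as hypotheses -/
theorem CK_dual_Y (n : ℕ) (hcyc : ∀ φ : Cn A n, t A n φ = φ → φ ∈ cyc A n)
    (htX : ∀ (F : X A n) (φ : Cn A n), (tX A n F).1 φ = F.1 (t A n φ))
    (f : Y A n →L[ℂ] ℂ) : ∃ φ ∈ cyc A n, ‖φ‖ ≤ ‖f‖ ∧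
    ∀ F : X A n, f (Submodule.Quotient.mk F) = F.1 φ := by
  obtain ⟨φ, hφ, hF⟩ := dual_X A n (f.comp (Rt A n).mkQL)
  have hF' : ∀ F : X A n, f (Submodule.Quotient.mk F) = F.1 φ := hF
  refine ⟨φ, ?_, ?_, hF'⟩
  · apply hcyc
    have h1 : t A n φ - φ = 0 := by
      apply X_sep
      intro F
      have h2 : (Submodule.Quotient.mk F : Y A n) = Submodule.Quotient.mk (tX A n F) := by
        rw [Submodule.Quotient.eq]
        exact ⟨F, rfl⟩
      have h3 := congrArg f h2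
      rw [hF', hF', htX] at h3
      have h4 : F.1 (t A n φ - φ) = F.1 (t A n φ) - F.1 φ :=
        map_sub (show Cn A n →L[ℂ] ℂ from F.1) _ _
      rw [h4, h3, sub_self]
    exact sub_eq_zero.1 h1
  · refine hφ.trans ?_
    refine ContinuousLinearMap.opNorm_le_bound _ f.opNorm_nonneg fun F => ?_
    refine (f.le_opNorm _).trans ?_
    exact mul_le_mul_of_nonneg_left (Submodule.Quotient.norm_mk_le _ F) f.opNorm_nonneg

/-- `dual_Y'` with the statements of the tasks CB and CJ as hypotheses -/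
theorem CK_dual_Y' (n : ℕ) (htX : ∀ (F : X A n) (φ : Cn A n), (tX A n F).1 φ = F.1 (t A n φ))
    (φ : Cn A n) (h : t A n φ = φ) : ∃ f : Y A n →L[ℂ] ℂ,
    ∀ F : X A n, f (Submodule.Quotient.mk F) = F.1 φ := by
  let g : X A n →L[ℂ] ℂ := (ContinuousLinearMap.apply ℂ ℂ φ : (Cn A n →L[ℂ] ℂ) →L[ℂ] ℂ).comp
    (X A n).subtypeL
  have hg : ∀ F : X A n, g F = F.1 φ := fun F => rfl
  have hle : Rt A n ≤ LinearMap.ker g.toLinearMap := by
    rintro _ ⟨F, rfl⟩
    show g (F - tX A n F) = 0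
    rw [map_sub, hg, hg, htX, h, sub_self]
  refine ⟨(Rt A n).liftQL g hle, fun F => ?_⟩
  rfl

theorem CK_tX_apply (n : ℕ) (F : X A n) (φ : Cn A n) : (tX A n F).1 φ = F.1 (t A n φ) := by
  have hex : ∃ L : X A n →L[ℂ] X A n, ∀ (F : X A n) (φ : Cn A n),
      (L F).1 φ = F.1 (t A n φ) := by
    let adj : Dn A n →L[ℂ] Dn A n :=
      ((ContinuousLinearMap.compL ℂ (Cn A n) (Cn A n) ℂ).flip (t A n) :
        (Cn A n →L[ℂ] ℂ) →L[ℂ] (Cn A n →L[ℂ] ℂ))
    have hadj : ∀ (F : Dn A n) (φ : Cn A n), adj F φ = F (t A n φ) := fun F φ => rfl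
    have hX : X A n ≤ (X A n).comap adj.toLinearMap := by
      apply Submodule.topologicalClosure_minimal
      · rw [Submodule.span_le]
        rintro _ ⟨a, rfl⟩
        show adj (ev A n a) ∈ X A n
        have h1 : adj (ev A n a) = (-1 : ℂ) ^ n • ev A n (fun j => a (j - 1)) := by
          refine ContinuousLinearMap.ext fun φ => ?_
          exact CB.t_apply A n φ a
        rw [h1]
        exact Submodule.smul_mem _ _ (CK_ev_mem A n _)
      · exact (Submodule.isClosed_topologicalClosure _).preimage adj.continuous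
    refine ⟨(adj.comp (X A n).subtypeL).codRestrict (X A n) (fun F => hX F.2), fun F φ => ?_⟩
    rfl
  unfold tX
  rw [dif_pos hex]
  exact hex.choose_spec F φ

theorem dual_Y (n : ℕ) (f : Y A n →L[ℂ] ℂ) : ∃ φ ∈ cyc A n, ‖φ‖ ≤ ‖f‖ ∧
    ∀ F : X A n, f (Submodule.Quotient.mk F) = F.1 φ :=
  CK_dual_Y A n (fun φ => (mem_cyc_iff A n φ).2) (CK_tX_apply A n) f

theorem dual_Y' (n : ℕ) (φ : Cn A n) (h : φ ∈ cyc A n) : ∃ f : Y A n →L[ℂ] ℂ,
    ∀ F : X A n, f (Submodule.Quotient.mk F) = F.1 φ :=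
  CK_dual_Y' A n (CK_tX_apply A n) φ ((mem_cyc_iff A n φ).1 h)

end H504C
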