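import Pool.Agent.H504C.TaskCB
import Pool.Agent.H504C.TaskCH
import Pool.Agent.H504C.TaskCJ
import Pool.Agent.H504C.TaskCK

set_option autoImplicit false

namespace H504C

open Finset

/-- Hahn-Banach for closed subspaces -/
theorem CN_sep {V : Type} [NormedAddCommGroup V] [NormedSpace ℂ V] (P : Submodule ℂ V)
    (hP : IsClosed (P : Set V)) (x : V) (hx : x ∉ P) :
    ∃ f : V →L[ℂ] ℂ, (∀ y ∈ P, f y = 0) ∧ f x ≠ 0 := by
  have : IsClosed (P : Set V) := hP
  have h1 : (Submodule.Quotient.mk x : V ⧸ P) ≠ 0 := by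
    intro h
    exact hx ((Submodule.Quotient.mk_eq_zero P).mp h)
  have h2 : ‖(Submodule.Quotient.mk x : V ⧸ P)‖ ≠ 0 := norm_ne_zero_iff.mpr h1
  obtain ⟨g, _, hg⟩ := exists_dual_vector ℂ (Submodule.Quotient.mk x : V ⧸ P) h2
  refine ⟨g.comp P.mkQL, ?_, ?_⟩
  · intro y hy
    have : P.mkQL y = 0 := (Submodule.Quotient.mk_eq_zero P).mpr hy
    show g (P.mkQL y) = 0
    rw [this, map_zero]
  · show g (Submodule.Quotient.mk x) ≠ 0
    rw [hg]
    exact Complex.ofReal_ne_zero.mpr h2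

variable (A : Type) [NonUnitalCStarAlgebra A]

theorem CN_dsub {n : ℕ} (F : Dn A n) (φ ψ : Cn A n) : F (φ - ψ) = F φ - F ψ :=
  map_sub (show Cn A n →L[ℂ] ℂ from F) φ ψ

theorem CN_dzero {n : ℕ} (F : Dn A n) : F (0 : Cn A n) = 0 :=
  map_zero (show Cn A n →L[ℂ] ℂ from F)

/-- a bounded functional on the tensor power which vanishes on `Rt` and on the boundaries is a cyclic cocycle -/
theorem CN_cocycle (n : ℕ) (φ : Cn A n) (h : ∀ F : X A n, Submodule.Quotient.mk F ∈ Bh A n → F.1 φ = 0) :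
    φ ∈ Zc A n := by
  have e1 : ∀ F : X A n, F.1 (φ - t A n φ) = 0 := by
    intro F
    have e : (Submodule.Quotient.mk (F - tX A n F) : Y A n) = 0 := by
      rw [Submodule.Quotient.mk_eq_zero]
      exact ⟨F, rfl⟩
    have h2 := h (F - tX A n F) (by rw [e]; exact Submodule.zero_mem _)
    have h3 : (F - tX A n F).1 φ = F.1 φ - (tX A n F).1 φ := rfl
    rw [h3, tX_apply] at h2
    rw [CN_dsub]
    exact h2
  have e2 : φ - t A n φ = 0 := X_sep A n _ e1
  have hc : φ ∈ cyc A n := by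
    rw [mem_cyc_iff]
    exact (sub_eq_zero.mp e2).symm
  have e3 : ∀ F : X A (n + 1), F.1 (b A n φ) = 0 := by
    intro F
    rw [← bX_apply]
    apply h
    rw [← bY_mk]
    exact Submodule.le_topologicalClosure _ ⟨Submodule.Quotient.mk F, rfl⟩
  have e4 : b A n φ = 0 := X_sep A (n + 1) _ e3
  exact ⟨hc, e4⟩

/-- a coboundary of a cyclic cochain vanishes on the cycles -/
theorem CN_vanish (n : ℕ) (φ : Cn A n) (hφ : φ ∈ Bc A n) (F : X A n)
    (hF : (Submodule.Quotient.mk F : Y A n) ∈ Zh A n) : F.1 φ = 0 := by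
  cases n with
  | zero =>
    have : φ = 0 := hφ
    rw [this]
    exact CN_dzero A F.1
  | succ m =>
    obtain ⟨ψ, hψ, rfl⟩ := hφ
    have hψ' : t A m ψ = ψ := (mem_cyc_iff A m ψ).mp hψ
    show F.1 (b A m ψ) = 0
    rw [← bX_apply]
    have h1 : bY A m (Submodule.Quotient.mk F) = 0 := hF
    rw [bY_mk, Submodule.Quotient.mk_eq_zero] at h1
    obtain ⟨G, hG⟩ := h1
    rw [← hG]
    have h3 : (G - tX A m G).1 ψ = G.1 ψ - (tX A m G).1 ψ := rfl
    show (G - tX A m G).1 ψ = 0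
    rw [h3, tX_apply, hψ', sub_self]

/-- if every cyclic cocycle vanishing ... is a coboundary, the cycles are in the closure of the boundaries -/
theorem CN_le (n : ℕ) (hc : ∀ φ ∈ Zc A n, φ ∈ Bc A n) : Zh A n ≤ Bh A n := by
  intro x hx
  obtain ⟨F, rfl⟩ := Submodule.Quotient.mk_surjective _ x
  by_contra hcon
  let P : Submodule ℂ (X A n) := (Bh A n).comap (Rt A n).mkQL.toLinearMap
  have hP : IsClosed (P : Set (X A n)) :=
    IsClosed.preimage (Rt A n).mkQL.continuous (Submodule.isClosed_topologicalClosure _)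
  obtain ⟨f, hf1, hf2⟩ := CN_sep P hP F hcon
  obtain ⟨φ, _, hφ⟩ := dual_X A n f
  have h1 : φ ∈ Zc A n := by
    apply CN_cocycle
    intro G hG
    rw [← hφ]
    exact hf1 G hG
  apply hf2
  rw [hφ]
  exact CN_vanish A n φ (hc φ h1) F hx

theorem hom_odd (hH : HHv A) (n : ℕ) (hn : Odd n) : Subsingleton (HCh A n) := by
  have h := CN_le A n (fun φ hφ => coh_odd' A hH n hn φ hφ)
  rw [Submodule.Quotient.subsingleton_iff, Submodule.submoduleOf_eq_top]
  exact h

end H504C
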