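import Pool.Agent.H504C.TaskCA
import Pool.Agent.H504C.TaskCG
import Pool.Agent.H504C.TaskCJ

set_option autoImplicit false

namespace H504C

open Finset

variable (A : Type) [NonUnitalCStarAlgebra A]

theorem exists_pi (n : ℕ) : ∃ p : X A n →L[ℂ] A, ∀ (F : X A n) (τ : A →L[ℂ] ℂ),
    τ (p F) = F.1 (mt A n τ) := by
  let ι : A →ₗᵢ[ℂ] StrongDual ℂ (StrongDual ℂ A) := NormedSpace.inclusionInDoubleDualLi ℂ
  let Φ : (Cn A n →L[ℂ] ℂ) →L[ℂ] StrongDual ℂ (StrongDual ℂ A) :=
    (ContinuousLinearMap.compL ℂ (A →L[ℂ] ℂ) (Cn A n) ℂ).flip (mt A n)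
  have hΦ : ∀ (F : Cn A n →L[ℂ] ℂ) (τ : A →L[ℂ] ℂ), Φ F τ = F (mt A n τ) := fun F τ => rfl
  have hcl : IsClosed (Set.range ι) := ι.isometry.isUniformInducing.isComplete_range.isClosed
  have hle : X A n ≤ (LinearMap.range ι.toLinearMap).comap
      (show (Dn A n) →ₗ[ℂ] StrongDual ℂ (StrongDual ℂ A) from Φ.toLinearMap) := by
    refine Submodule.topologicalClosure_minimal _ ?_ ?_
    · rw [Submodule.span_le]
      rintro _ ⟨a, rfl⟩
      refine ⟨prd n a, ?_⟩
      apply ContinuousLinearMap.ext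
      intro τ
      show τ (prd n a) = _
      exact (mt_apply A n τ a).symm
    · exact hcl.preimage Φ.continuous
  have hmem : ∀ F : X A n, ∃ z : A, ι z = Φ F.1 := by
    intro F
    obtain ⟨z, hz⟩ := hle F.2
    exact ⟨z, hz⟩
  choose z hz using hmem
  have hadd : ∀ F G : X A n, z (F + G) = z F + z G := by
    intro F G
    apply ι.injective
    rw [map_add, hz, hz, hz]
    exact Φ.map_add F.1 G.1
  have hsmul : ∀ (c : ℂ) (F : X A n), z (c • F) = c • z F := by
    intro c F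
    apply ι.injective
    rw [map_smul, hz, hz]
    exact Φ.map_smul c F.1
  have hbd : ∀ F : X A n, ‖z F‖ ≤ ‖mt A n‖ * ‖F‖ := by
    intro F
    have h1 : ‖Φ F.1‖ ≤ ‖(show Cn A n →L[ℂ] ℂ from F.1)‖ * ‖mt A n‖ :=
      ContinuousLinearMap.opNorm_comp_le _ _
    rw [← ι.norm_map (z F), hz, mul_comm]
    exact h1
  refine ⟨LinearMap.mkContinuous { toFun := z, map_add' := hadd, map_smul' := hsmul } ‖mt A n‖ hbd, ?_⟩
  intro F τ
  have h2 : ι (z F) τ = Φ F.1 τ := by rw [hz]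
  exact h2

theorem exists_Theta (n : ℕ) (hn : Even n) : ∃ q : Y A n →L[ℂ] (A ⧸ comm A),
    ∀ (F : X A n) (z : A), (∀ τ : A →L[ℂ] ℂ, τ z = F.1 (mt A n τ)) →
      q (Submodule.Quotient.mk F) = Submodule.Quotient.mk z := by
  obtain ⟨p, hp⟩ := exists_pi A n
  have hc : IsClosed ((comm A : Submodule ℂ A) : Set A) := Submodule.isClosed_topologicalClosure _
  have hsep : ∀ z : A, (∀ τ ∈ TA A, τ z = 0) → z ∈ comm A := by
    intro z hz
    by_contra hne
    have : IsClosed ((comm A : Submodule ℂ A) : Set A) := hc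
    have h0 : (Submodule.Quotient.mk z : A ⧸ comm A) ≠ 0 := by
      intro h
      exact hne ((Submodule.Quotient.mk_eq_zero _).1 h)
    obtain ⟨f, hf⟩ := SeparatingDual.exists_ne_zero (R := ℂ) h0
    apply hf
    refine hz (f.comp (comm A).mkQL) ?_
    intro x y
    show f (Submodule.Quotient.mk (x * y)) = f (Submodule.Quotient.mk (y * x))
    congr 1
    rw [Submodule.Quotient.eq]
    exact Submodule.le_topologicalClosure _ (Submodule.subset_span ⟨x, y, rfl⟩)
  let g : X A n →L[ℂ] (A ⧸ comm A) := (comm A).mkQL.comp p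
  have hg : Rt A n ≤ LinearMap.ker g.toLinearMap := by
    rintro _ ⟨G, rfl⟩
    show (Submodule.Quotient.mk (p (G - tX A n G)) : A ⧸ comm A) = 0
    rw [Submodule.Quotient.mk_eq_zero]
    apply hsep
    intro τ hτ
    rw [map_sub, map_sub, hp, hp, tX_apply, mt_t A n τ hτ, hn.neg_one_pow, one_smul, sub_self]
  refine ⟨(Rt A n).liftQL g hg, ?_⟩
  intro F z hz
  have hzp : z = p F := by
    rw [SeparatingDual.eq_iff_forall_dual_eq (R := ℂ)]
    intro τ
    rw [hz, hp]
  rw [hzp]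
  rfl

end H504C
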