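import Mathlib

set_option autoImplicit false

open Set Filter Topology Metric

namespace H504C

variable {V W : Type} [NormedAddCommGroup V] [NormedSpace ℂ V] [CompleteSpace V]
    [NormedAddCommGroup W] [NormedSpace ℂ W] [CompleteSpace W]

/-- Second step of the open mapping theorem, on a closed subgroup stable under the
approximation. -/
theorem CM_step2 (f : V →L[ℂ] W) (Z : Submodule ℂ W) (hfZ : ∀ v, f v ∈ Z) (C : ℝ) (C0 : 0 ≤ C)
    (hC : ∀ y ∈ Z, ∃ x, dist (f x) y ≤ 1 / 2 * ‖y‖ ∧ ‖x‖ ≤ C * ‖y‖) :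
    ∀ y ∈ Z, ∃ x, f x = y := by
  classical
  have hC' : ∀ y : W, ∃ x : V, y ∈ Z → (dist (f x) y ≤ 1 / 2 * ‖y‖ ∧ ‖x‖ ≤ C * ‖y‖) := by
    intro y
    by_cases h : y ∈ Z
    · obtain ⟨x, hx⟩ := hC y h
      exact ⟨x, fun _ => hx⟩
    · exact ⟨0, fun h' => absurd h' h⟩
  choose g hg using hC'
  let h : W → W := fun y => y - f (g y)
  have hZ : ∀ y ∈ Z, h y ∈ Z := fun y hy => Z.sub_mem hy (hfZ _)
  have hle : ∀ y ∈ Z, ‖h y‖ ≤ 1 / 2 * ‖y‖ := by
    intro y hy
    rw [← dist_eq_norm, dist_comm]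
    exact (hg y hy).1
  intro y hy
  have hnZ : ∀ n : ℕ, h^[n] y ∈ Z := by
    intro n
    induction n with
    | zero => simpa using hy
    | succ n IH =>
      rw [Function.iterate_succ_apply']
      exact hZ _ IH
  have hnle : ∀ n : ℕ, ‖h^[n] y‖ ≤ (1 / 2) ^ n * ‖y‖ := by
    intro n
    induction n with
    | zero => simp only [one_div, one_mul, Function.iterate_zero_apply, pow_zero, le_rfl]
    | succ n IH =>
      rw [Function.iterate_succ_apply']
      apply le_trans (hle _ (hnZ n)) _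
      rw [pow_succ', mul_assoc]
      gcongr
  let u : ℕ → V := fun n => g (h^[n] y)
  have ule : ∀ n, ‖u n‖ ≤ (1 / 2) ^ n * (C * ‖y‖) := fun n ↦ by
    apply le_trans (hg _ (hnZ n)).2
    calc
      C * ‖h^[n] y‖ ≤ C * ((1 / 2) ^ n * ‖y‖) := by gcongr; exact hnle n
      _ = (1 / 2) ^ n * (C * ‖y‖) := by ring
  have sNu : Summable fun n => ‖u n‖ := by
    refine .of_nonneg_of_le (fun n => norm_nonneg _) ule ?_
    exact Summable.mul_right _ (summable_geometric_of_lt_one (by simp) (by norm_num))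
  have su : Summable u := sNu.of_norm
  let x := tsum u
  have fsumeq : ∀ n : ℕ, f (∑ i ∈ Finset.range n, u i) = y - h^[n] y := by
    intro n
    induction n with
    | zero => simp [f.map_zero]
    | succ n IH =>
      rw [Finset.sum_range_succ, f.map_add, IH, Function.iterate_succ_apply', sub_add]
  have : Tendsto (fun n => ∑ i ∈ Finset.range n, u i) atTop (𝓝 x) := su.hasSum.tendsto_sum_nat
  have L₁ : Tendsto (fun n => f (∑ i ∈ Finset.range n, u i)) atTop (𝓝 (f x)) :=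
    (f.continuous.tendsto _).comp this
  simp only [fsumeq] at L₁
  have L₂ : Tendsto (fun n => y - h^[n] y) atTop (𝓝 (y - 0)) := by
    refine tendsto_const_nhds.sub ?_
    rw [tendsto_iff_norm_sub_tendsto_zero]
    simp only [sub_zero]
    refine squeeze_zero (fun _ => norm_nonneg _) hnle ?_
    rw [← zero_mul ‖y‖]
    refine (_root_.tendsto_pow_atTop_nhds_zero_of_lt_one ?_ ?_).mul tendsto_const_nhds <;> norm_num
  have feq : f x = y - 0 := tendsto_nhds_unique L₁ L₂
  rw [sub_zero] at feq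
  exact ⟨x, feq⟩

/-- The transpose has closed range: bounded choice of preimages. -/
theorem CM_bound (T : V →L[ℂ] W)
    (hcl : IsClosed {f : V →L[ℂ] ℂ | ∃ g : W →L[ℂ] ℂ, f = g.comp T}) :
    ∃ C > 0, ∀ g : W →L[ℂ] ℂ, ∃ g' : W →L[ℂ] ℂ, g'.comp T = g.comp T ∧ ‖g'‖ ≤ C * ‖g.comp T‖ := by
  let A : (W →L[ℂ] ℂ) →L[ℂ] (V →L[ℂ] ℂ) := (ContinuousLinearMap.compL ℂ V W ℂ).flip T
  have hA : ∀ g : W →L[ℂ] ℂ, A g = g.comp T := fun g => by
    simp [A, ContinuousLinearMap.flip_apply, ContinuousLinearMap.compL_apply]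
  let R : Submodule ℂ (V →L[ℂ] ℂ) := LinearMap.range (A : (W →L[ℂ] ℂ) →ₗ[ℂ] (V →L[ℂ] ℂ))
  have hR : (R : Set (V →L[ℂ] ℂ)) = {f : V →L[ℂ] ℂ | ∃ g : W →L[ℂ] ℂ, f = g.comp T} := by
    ext f
    constructor
    · rintro ⟨g, hg⟩
      exact ⟨g, by rw [← hg]; exact hA g⟩
    · rintro ⟨g, hg⟩
      exact ⟨g, by rw [hg]; exact hA g⟩
  have hRc : IsClosed (R : Set (V →L[ℂ] ℂ)) := by rw [hR]; exact hcl
  have : CompleteSpace R := hRc.completeSpace_coe
  let A' : (W →L[ℂ] ℂ) →L[ℂ] R := A.codRestrict R (fun g => ⟨g, rfl⟩)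
  have hsurj : Function.Surjective A' := by
    rintro ⟨f, g, hg⟩
    exact ⟨g, Subtype.ext hg⟩
  obtain ⟨C, hC, hC'⟩ := ContinuousLinearMap.exists_preimage_norm_le (𝕜 := ℂ) (𝕜' := ℂ)
    (σ := RingHom.id ℂ) (E := W →L[ℂ] ℂ) (F := R) A' hsurj
  refine ⟨C, hC, fun g => ?_⟩
  obtain ⟨g', h1, h2⟩ := hC' (A' g)
  refine ⟨g', ?_, ?_⟩
  · have := congrArg Subtype.val h1
    have h3 : A g' = A g := this
    rw [hA, hA] at h3
    exact h3
  · have h4 : ‖A' g‖ = ‖g.comp T‖ := by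
      rw [← hA]; rfl
    rw [← h4]
    exact h2

theorem CM_approx (T : V →L[ℂ] W) (C : ℝ) (hC0 : 0 < C)
    (hC : ∀ g : W →L[ℂ] ℂ, ∃ g' : W →L[ℂ] ℂ, g'.comp T = g.comp T ∧ ‖g'‖ ≤ C * ‖g.comp T‖)
    (y : W) (hy : y ∈ closure (Set.range T)) :
    y ∈ closure (T '' closedBall 0 (C * ‖y‖)) := by
  by_contra hcon
  set r : ℝ := C * ‖y‖ with hr
  have hr0 : 0 ≤ r := by positivity
  have hconv : Convex ℝ (closure (T '' closedBall (0 : V) r)) := by
    refine Convex.closure ?_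
    exact (convex_closedBall (0 : V) r).is_linear_image
      (((T : V →ₗ[ℂ] W).restrictScalars ℝ).isLinear)
  obtain ⟨g, u, hg1, hg2⟩ := RCLike.geometric_hahn_banach_closed_point (𝕜 := ℂ) hconv
    isClosed_closure hcon
  have hy0 : y ≠ 0 := by
    rintro rfl
    apply hcon
    apply subset_closure
    exact ⟨0, by simp [hr0], by simp⟩
  have hu0 : 0 < u := by
    have := hg1 0 (subset_closure ⟨0, by simp [hr0], by simp⟩)
    simpa using this
  have hrpos : 0 < r := by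
    have : 0 < ‖y‖ := norm_pos_iff.mpr hy0
    positivity
  have hball : ∀ v : V, ‖v‖ ≤ r → ‖g (T v)‖ ≤ u := by
    intro v hv
    obtain ⟨c, hc, hc2⟩ : ∃ c : ℂ, ‖c‖ = 1 ∧ c * g (T v) = (‖g (T v)‖ : ℂ) := by
      by_cases h0 : g (T v) = 0
      · exact ⟨1, by simp, by simp [h0]⟩
      · refine ⟨(‖g (T v)‖ : ℂ) / g (T v), ?_, ?_⟩
        · rw [norm_div]
          simp [h0]
        · field_simp
    have h1 : T (c • v) ∈ closure (T '' closedBall (0 : V) r) := by
      apply subset_closure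
      refine ⟨c • v, ?_, rfl⟩
      simp [norm_smul, hc, hv]
    have h2 := hg1 _ h1
    rw [map_smul, map_smul, smul_eq_mul, hc2] at h2
    simp at h2
    exact h2.le
  have hnorm : ‖g.comp T‖ ≤ u / r := by
    refine ContinuousLinearMap.opNorm_le_bound _ (by positivity) ?_
    intro v
    by_cases hv : v = 0
    · simp [hv]
    · have hvp : 0 < ‖v‖ := norm_pos_iff.mpr hv
      have h1 := hball (((r / ‖v‖ : ℝ) : ℂ) • v) (by
        rw [norm_smul, Complex.norm_real, Real.norm_of_nonneg (by positivity)]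
        rw [div_mul_cancel₀ _ hvp.ne'])
      rw [map_smul, map_smul, norm_smul, Complex.norm_real, Real.norm_of_nonneg (by positivity)]
        at h1
      show ‖g (T v)‖ ≤ u / r * ‖v‖
      rw [div_mul_eq_mul_div, le_div_iff₀ hrpos]
      rw [div_mul_eq_mul_div, div_le_iff₀ hvp] at h1
      linarith
  obtain ⟨g', h1, h2⟩ := hC g
  have h3 : g' y = g y := by
    have hclosed : IsClosed {w : W | g' w = g w} := isClosed_eq g'.continuous g.continuous
    have hsub : closure (Set.range T) ⊆ {w : W | g' w = g w} := by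
      refine closure_minimal ?_ hclosed
      rintro _ ⟨v, rfl⟩
      have := congrArg (fun F : V →L[ℂ] ℂ => F v) h1
      exact this
    exact hsub hy
  have h4 : ‖g y‖ ≤ C * (u / r) * ‖y‖ := by
    rw [← h3]
    calc ‖g' y‖ ≤ ‖g'‖ * ‖y‖ := g'.le_opNorm y
      _ ≤ (C * ‖g.comp T‖) * ‖y‖ := by gcongr
      _ ≤ (C * (u / r)) * ‖y‖ := by gcongr
  have h5 : C * (u / r) * ‖y‖ = u := by
    have : C * (u / r) * ‖y‖ = u * (C * ‖y‖) / r := by ring
    rw [this, ← hr]
    field_simp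
  have h6 : u < ‖g y‖ := lt_of_lt_of_le hg2 (by
    have := Complex.re_le_norm (g y)
    simpa using this)
  linarith

-- TASK CM (closed range theorem)
theorem closed_range {V W : Type} [NormedAddCommGroup V] [NormedSpace ℂ V] [CompleteSpace V]
    [NormedAddCommGroup W] [NormedSpace ℂ W] [CompleteSpace W] (T : V →L[ℂ] W)
    (hcl : IsClosed {f : V →L[ℂ] ℂ | ∃ g : W →L[ℂ] ℂ, f = g.comp T})
    (f : V →L[ℂ] ℂ) (hf : ∀ v, T v = 0 → f v = 0) : ∃ g : W →L[ℂ] ℂ, f = g.comp T := by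
  obtain ⟨C, hC0, hC⟩ := CM_bound T hcl
  -- the closed subspace Z
  let Z : Submodule ℂ W := (LinearMap.range (T : V →ₗ[ℂ] W)).topologicalClosure
  have hZcl : IsClosed (Z : Set W) := Submodule.isClosed_topologicalClosure _
  have : CompleteSpace Z := hZcl.completeSpace_coe
  have hTZ : ∀ v, T v ∈ Z := fun v =>
    Submodule.le_topologicalClosure _ ⟨v, rfl⟩
  have hZcl' : ∀ y ∈ Z, y ∈ closure (Set.range T) := by
    intro y hy
    have : (Z : Set W) = closure (Set.range T) := by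
      show ((LinearMap.range (T : V →ₗ[ℂ] W)).topologicalClosure : Set W) = _
      rw [Submodule.topologicalClosure_coe]
      rfl
    rw [← this]
    exact hy
  have happ : ∀ y ∈ Z, ∃ x, dist (T x) y ≤ 1 / 2 * ‖y‖ ∧ ‖x‖ ≤ C * ‖y‖ := by
    intro y hy
    by_cases hy0 : y = 0
    · exact ⟨0, by simp [hy0], by simp [hy0]⟩
    · have h1 := CM_approx T C hC0 hC y (hZcl' y hy)
      rw [Metric.mem_closure_iff] at h1
      have hyp : 0 < ‖y‖ := norm_pos_iff.mpr hy0
      obtain ⟨b, ⟨x, hx, rfl⟩, hb⟩ := h1 (1 / 2 * ‖y‖) (by positivity)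
      refine ⟨x, ?_, by simpa using hx⟩
      rw [dist_comm]
      exact hb.le
  have hsurj0 : ∀ y ∈ Z, ∃ x, T x = y := CM_step2 T Z hTZ C hC0.le happ
  let T' : V →L[ℂ] Z := T.codRestrict Z hTZ
  have hsurj : Function.Surjective T' := by
    rintro ⟨y, hy⟩
    obtain ⟨x, hx⟩ := hsurj0 y hy
    exact ⟨x, Subtype.ext hx⟩
  obtain ⟨D, hD0, hD⟩ := ContinuousLinearMap.exists_preimage_norm_le T' hsurj
  choose s hs1 hs2 using hD
  have hker : ∀ v w : V, T' v = T' w → f v = f w := by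
    intro v w h
    have h1 : T (v - w) = 0 := by
      rw [map_sub]
      have := congrArg Subtype.val h
      have h2 : T v = T w := this
      rw [h2, sub_self]
    have h3 := hf _ h1
    rw [map_sub] at h3
    exact sub_eq_zero.mp h3
  let g0 : Z →ₗ[ℂ] ℂ :=
    { toFun := fun z => f (s z)
      map_add' := by
        intro a b
        rw [← map_add]
        apply hker
        rw [map_add, hs1, hs1, hs1]
      map_smul' := by
        intro c a
        rw [RingHom.id_apply, ← map_smul]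
        apply hker
        rw [map_smul, hs1, hs1] }
  let g1 : Z →L[ℂ] ℂ := g0.mkContinuous (‖f‖ * D) (by
    intro z
    show ‖f (s z)‖ ≤ _
    calc ‖f (s z)‖ ≤ ‖f‖ * ‖s z‖ := f.le_opNorm _
      _ ≤ ‖f‖ * (D * ‖z‖) := by
        gcongr
        exact hs2 z
      _ = ‖f‖ * D * ‖z‖ := by ring)
  obtain ⟨g, hg, -⟩ := exists_extension_norm_eq Z g1
  refine ⟨g, ?_⟩
  ext v
  show f v = g (T v)
  have h1 : g (T v) = g1 (T' v) := hg (T' v)
  rw [h1]
  show f v = f (s (T' v))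
  apply hker
  rw [hs1]

end H504C
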