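import Mathlib

set_option autoImplicit false

namespace H504C

section abs
variable {V W : Type} [NormedAddCommGroup V] [NormedSpace ℂ V]
  [NormedAddCommGroup W] [NormedSpace ℂ W]

/-- Hahn-Banach separation of a point from a closed subspace -/
theorem CO_sep (p : Submodule ℂ V) (hp : IsClosed (p : Set V)) (x : V) (hx : x ∉ p) :
    ∃ f : V →L[ℂ] ℂ, (∀ y ∈ p, f y = 0) ∧ f x ≠ 0 := by
  have : IsClosed (p : Set V) := hp
  have hne : (Submodule.Quotient.mk x : V ⧸ p) ≠ 0 := by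
    intro h
    exact hx ((Submodule.Quotient.mk_eq_zero p).1 h)
  obtain ⟨g, hg1, hg2⟩ := exists_dual_vector'' ℂ (Submodule.Quotient.mk x : V ⧸ p)
  refine ⟨g.comp p.mkQL, ?_, ?_⟩
  · intro y hy
    change g (Submodule.Quotient.mk y) = 0
    rw [(Submodule.Quotient.mk_eq_zero p).2 hy, map_zero]
  · change g (Submodule.Quotient.mk x) ≠ 0
    rw [hg2]
    simpa using hne

/-- the abstract isomorphism -/
theorem CO_abs [CompleteSpace V] [CompleteSpace W] (Z B : Submodule ℂ V)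
    (hZ : IsClosed (Z : Set V)) (hB : IsClosed (B : Set V)) (hBZ : B ≤ Z) (q : V →L[ℂ] W)
    (ha : ∀ x ∈ B, q x = 0) (C : ℝ)
    (hb : ∀ f : V →L[ℂ] ℂ, (∀ x ∈ B, f x = 0) →
      ∃ g : W →L[ℂ] ℂ, ‖g‖ ≤ C * ‖f‖ ∧ ∀ x ∈ Z, f x = g (q x))
    (hc : ∀ g : W →L[ℂ] ℂ, (∀ x ∈ Z, g (q x) = 0) → g = 0) :
    Nonempty ((Z ⧸ B.submoduleOf Z) ≃L[ℂ] W) := by
  have hS : IsClosed ((B.submoduleOf Z : Submodule ℂ Z) : Set Z) :=
    hB.preimage continuous_subtype_val
  have hZc : CompleteSpace Z := hZ.completeSpace_coe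
  have hker : B.submoduleOf Z ≤ (q.comp Z.subtypeL).ker := by
    intro x hx
    rw [LinearMap.mem_ker]
    exact ha _ hx
  let Q : (Z ⧸ B.submoduleOf Z) →L[ℂ] W := (B.submoduleOf Z).liftQL (q.comp Z.subtypeL) hker
  have hQ : ∀ x : Z, Q (Submodule.Quotient.mk x) = q x := fun x => rfl
  have hbd : ∀ v, ‖v‖ ≤ (max C 0) * ‖Q v‖ := by
    intro v
    obtain ⟨g₀, hg₀, hg₀v⟩ := exists_dual_vector'' ℂ v
    let f₀ : Z →L[ℂ] ℂ := g₀.comp (B.submoduleOf Z).mkQL
    have hf₀ : ‖f₀‖ ≤ 1 := by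
      refine ContinuousLinearMap.opNorm_le_bound _ zero_le_one fun x => ?_
      change ‖g₀ (Submodule.Quotient.mk x)‖ ≤ _
      calc ‖g₀ (Submodule.Quotient.mk x)‖ ≤ ‖g₀‖ * ‖(Submodule.Quotient.mk x : Z ⧸ B.submoduleOf Z)‖ :=
            g₀.le_opNorm _
        _ ≤ 1 * ‖x‖ := by
            refine mul_le_mul hg₀ (Submodule.Quotient.norm_mk_le _ _) (norm_nonneg _) zero_le_one
    obtain ⟨f, hf, hfn⟩ := exists_extension_norm_eq Z f₀
    have hfB : ∀ x ∈ B, f x = 0 := by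
      intro x hx
      have h1 := hf ⟨x, hBZ hx⟩
      change f x = g₀ (Submodule.Quotient.mk ⟨x, hBZ hx⟩) at h1
      rw [h1, (Submodule.Quotient.mk_eq_zero _).2, map_zero]
      exact hx
    obtain ⟨g, hgn, hg⟩ := hb f hfB
    obtain ⟨x, rfl⟩ := Submodule.Quotient.mk_surjective _ v
    have h2 : g (q x) = ‖(Submodule.Quotient.mk x : Z ⧸ B.submoduleOf Z)‖ := by
      rw [← hg x x.2, hf x]
      exact hg₀v
    have h3 : ‖(Submodule.Quotient.mk x : Z ⧸ B.submoduleOf Z)‖ = ‖g (q x)‖ := by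
      rw [h2]; simp
    rw [h3, hQ]
    refine (g.le_opNorm _).trans (mul_le_mul_of_nonneg_right ?_ (norm_nonneg _))
    refine hgn.trans ?_
    have h4 : ‖f‖ ≤ 1 := by rw [hfn]; exact hf₀
    have h5 : C * ‖f‖ ≤ max C 0 * ‖f‖ :=
      mul_le_mul_of_nonneg_right (le_max_left _ _) (norm_nonneg _)
    have h6 : max C 0 * ‖f‖ ≤ max C 0 * 1 :=
      mul_le_mul_of_nonneg_left h4 (le_max_right _ _)
    linarith
  have hanti : AntilipschitzWith ⟨max C 0, le_max_right _ _⟩ Q :=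
    Q.antilipschitz_of_bound hbd
  have hcl : IsClosed (Set.range Q) := hanti.isClosed_range Q.uniformContinuous
  have hinj : Q.ker = ⊥ := LinearMap.ker_eq_bot.2 hanti.injective
  have hsurj : Q.range = ⊤ := by
    by_contra hne
    obtain ⟨w, hw⟩ : ∃ w, w ∉ Q.range := by
      by_contra hcon
      push Not at hcon
      exact hne (eq_top_iff.2 fun w _ => hcon w)
    obtain ⟨g, hg1, hg2⟩ := CO_sep Q.range (by rw [LinearMap.coe_range]; exact hcl) w hw
    apply hg2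
    rw [hc g, zero_apply]
    intro x hx
    exact hg1 _ ⟨Submodule.Quotient.mk ⟨x, hx⟩, rfl⟩
  exact ⟨ContinuousLinearEquiv.ofBijective Q hinj hsurj⟩

end abs

end H504C
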