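import Pool.Agent.H504C.TaskCH
import Pool.Agent.H504C.TaskCI
import Pool.Agent.H504C.TaskCJ
import Pool.Agent.H504C.TaskCK
import Pool.Agent.H504C.TaskCL
import Pool.Agent.H504C.TaskCM
import Pool.Agent.H504C.TaskCP
import Pool.Agent.H504C.TaskCO_abs

set_option autoImplicit false

namespace H504C

open Finset

variable (A : Type) [NonUnitalCStarAlgebra A]

theorem CO_complete_X (n : ℕ) : CompleteSpace (X A n) := by
  have : CompleteSpace (Dn A n) := inferInstanceAs (CompleteSpace (Cn A n →L[ℂ] ℂ))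
  have h : IsClosed ((X A n : Submodule ℂ (Dn A n)) : Set (Dn A n)) :=
    Submodule.isClosed_topologicalClosure _
  exact h.completeSpace_coe

theorem CO_Bc_Zh (n : ℕ) (ψ : Cn A n) (hψ : ψ ∈ Bc A n) (F : X A n)
    (hF : (Submodule.Quotient.mk F : Y A n) ∈ Zh A n) : F.1 ψ = 0 := by
  cases n with
  | zero =>
    have : ψ = 0 := hψ
    rw [this]
    exact map_zero (show Cn A 0 →L[ℂ] ℂ from F.1)
  | succ k =>
    obtain ⟨η, hη, rfl⟩ := hψ
    obtain ⟨g, hg⟩ := dual_Y' A k η hη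
    have h1 : bY A k (Submodule.Quotient.mk F) = 0 := hF
    rw [bY_mk] at h1
    change F.1 (b A k η) = 0
    rw [← bX_apply, ← hg, h1, map_zero]

theorem CO_dual (n : ℕ) (f : Y A n →L[ℂ] ℂ) (hf : ∀ x ∈ Bh A n, f x = 0) :
    ∃ φ ∈ Zc A n, ‖φ‖ ≤ ‖f‖ ∧ ∀ F : X A n, f (Submodule.Quotient.mk F) = F.1 φ := by
  obtain ⟨φ, hφ, hn, h⟩ := dual_Y A n f
  refine ⟨φ, ⟨hφ, ?_⟩, hn, h⟩
  change b A n φ = 0
  apply X_sep
  intro F
  rw [← bX_apply, ← h, ← bY_mk]
  apply hf
  exact Submodule.le_topologicalClosure _ ⟨_, rfl⟩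

theorem CO_bb (n : ℕ) (y : Y A (n + 2)) : bY A n (bY A (n + 1) y) = 0 := by
  obtain ⟨F, rfl⟩ := Submodule.Quotient.mk_surjective _ y
  rw [bY_mk, bY_mk]
  have : bX A n (bX A (n + 1) F) = 0 := by
    apply Subtype.ext
    apply ContinuousLinearMap.ext
    intro φ
    change (bX A n (bX A (n + 1) F)).1 φ = 0
    rw [bX_apply, bX_apply, b_b]
    exact map_zero (show Cn A (n + 2) →L[ℂ] ℂ from F.1)
  rw [this]
  rfl

theorem CO_Zh_closed (n : ℕ) : IsClosed ((Zh A n : Submodule ℂ (Y A n)) : Set (Y A n)) := by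
  cases n with
  | zero => exact isClosed_univ
  | succ k =>
    have : IsClosed ((Rt A k : Submodule ℂ (X A k)) : Set (X A k)) := Rt_closed A k
    have h := (bY A k).isClosed_ker
    exact h

theorem CO_Bh_le (n : ℕ) : Bh A n ≤ Zh A n := by
  cases n with
  | zero => exact le_top
  | succ k =>
    apply Submodule.topologicalClosure_minimal
    · rintro _ ⟨y, rfl⟩
      exact CO_bb A k y
    · exact CO_Zh_closed A (k + 1)

/-- traces vanish on the closed span of the commutators -/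
theorem CO_trace (τ : A →L[ℂ] ℂ) (hτ : τ ∈ TA A) : comm A ≤ τ.ker := by
  apply Submodule.topologicalClosure_minimal
  · rw [Submodule.span_le]
    rintro _ ⟨x, y, rfl⟩
    change τ (x * y - y * x) = 0
    rw [map_sub, hτ x y, sub_self]
  · exact τ.isClosed_ker

theorem CO_of_trace (z : A) (h : ∀ τ ∈ TA A, τ z = 0) : z ∈ comm A := by
  by_contra hz
  obtain ⟨f, hf, hfz⟩ := CO_sep (comm A) (Submodule.isClosed_topologicalClosure _) z hz
  apply hfz
  apply h
  intro x y
  have := hf (x * y - y * x) (Submodule.le_topologicalClosure _ (Submodule.subset_span ⟨x, y, rfl⟩))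
  rw [map_sub, sub_eq_zero] at this
  exact this

theorem CO_X_sub (n : ℕ) (F : X A n) (φ ψ : Cn A n) : F.1 (φ - ψ) = F.1 φ - F.1 ψ :=
  map_sub (show Cn A n →L[ℂ] ℂ from F.1) φ ψ

theorem CO_comp_mem (k : ℕ) (g : Y A k →L[ℂ] ℂ) (φ : Cn A (k + 1))
    (h : ∀ F : X A (k + 1), g (bY A k (Submodule.Quotient.mk F)) = F.1 φ) :
    φ ∈ Bc A (k + 1) := by
  obtain ⟨η, hη, _, hg⟩ := dual_Y A k g
  refine ⟨η, hη, ?_⟩
  change b A k η = φ
  rw [← sub_eq_zero]
  apply X_sep
  intro F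
  rw [CO_X_sub, ← h, ← bX_apply, ← hg, bY_mk, sub_self]

theorem CO_comp_of_mem (k : ℕ) (f : Y A (k + 1) →L[ℂ] ℂ) (φ : Cn A (k + 1))
    (hφ : φ ∈ Bc A (k + 1)) (h : ∀ F : X A (k + 1), f (Submodule.Quotient.mk F) = F.1 φ) :
    ∃ g : Y A k →L[ℂ] ℂ, f = g.comp (bY A k) := by
  obtain ⟨η, hη, rfl⟩ := hφ
  obtain ⟨g, hg⟩ := dual_Y' A k η hη
  refine ⟨g, ?_⟩
  ext x
  obtain ⟨F, rfl⟩ := Submodule.Quotient.mk_surjective _ x
  change f (Submodule.Quotient.mk F) = g (bY A k (Submodule.Quotient.mk F))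
  rw [h, bY_mk, hg, bX_apply]
  rfl

theorem CO_closed (k : ℕ) (hcl : IsClosed ((Bc A (k + 1) : Submodule ℂ (Cn A (k + 1))) :
      Set (Cn A (k + 1)))) :
    IsClosed {f : Y A (k + 1) →L[ℂ] ℂ | ∃ g : Y A k →L[ℂ] ℂ, f = g.comp (bY A k)} := by
  rw [← closure_subset_iff_isClosed]
  intro f hf
  have hf := (Metric.mem_closure_iff (α := Y A (k + 1) →L[ℂ] ℂ)).1 hf
  obtain ⟨φ, _, _, hφf⟩ := dual_Y A (k + 1) f
  apply CO_comp_of_mem A k f φ ?_ hφf
  rw [← SetLike.mem_coe, ← hcl.closure_eq, Metric.mem_closure_iff]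
  intro ε hε
  obtain ⟨f', ⟨g, hg⟩, hd⟩ := hf ε hε
  obtain ⟨ψ, _, hψn, hψf⟩ := dual_Y A (k + 1) (f - f')
  refine ⟨φ - ψ, ?_, ?_⟩
  · apply CO_comp_mem A k g
    intro F
    rw [CO_X_sub, ← hφf, ← hψf]
    have h1 : g (bY A k (Submodule.Quotient.mk F)) = f' (Submodule.Quotient.mk F) := by
      rw [hg]; rfl
    rw [h1]
    change _ = _ - (f (Submodule.Quotient.mk F) - f' (Submodule.Quotient.mk F))
    ring
  · have hd' : ‖f - f'‖ < ε := lt_of_le_of_lt (le_of_eq (dist_eq_norm f f').symm) hd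
    have e : dist φ (φ - ψ) = ‖φ - (φ - ψ)‖ := dist_eq_norm _ _
    rw [e, sub_sub_cancel]
    exact hψn.trans_lt hd'

theorem hom_even (hH : HHv A) (n : ℕ) (hn : Even n) : Nonempty (HCh A n ≃L[ℂ] (A ⧸ comm A)) := by
  have hRt : ∀ k, IsClosed ((Rt A k : Submodule ℂ (X A k)) : Set (X A k)) := Rt_closed A
  have hX : ∀ k, CompleteSpace (X A k) := CO_complete_X A
  have hcomm : IsClosed ((comm A : Submodule ℂ A) : Set A) :=
    Submodule.isClosed_topologicalClosure _
  obtain ⟨p, hp⟩ := exists_pi A n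
  obtain ⟨q, hq⟩ := exists_Theta A n hn
  have hqp : ∀ F : X A n, q (Submodule.Quotient.mk F) = Submodule.Quotient.mk (p F) :=
    fun F => hq F (p F) (fun τ => hp F τ)
  obtain ⟨C, hC⟩ := coh_bound A hH n hn
  have h := CO_abs (V := Y A n) (W := A ⧸ comm A) (Zh A n) (Bh A n) (CO_Zh_closed A n)
    (Submodule.isClosed_topologicalClosure _) (CO_Bh_le A n) q ?_ (max C 0) ?_ ?_
  · exact h
  · -- q vanishes on Bh
    have hle : Bh A n ≤ q.ker := by
      apply Submodule.topologicalClosure_minimal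
      · rintro _ ⟨y, rfl⟩
        obtain ⟨F, rfl⟩ := Submodule.Quotient.mk_surjective _ y
        change q (bY A n (Submodule.Quotient.mk F)) = 0
        rw [bY_mk, hqp, Submodule.Quotient.mk_eq_zero]
        apply CO_of_trace
        intro τ hτ
        rw [hp, bX_apply]
        have h1 : b A n (mt A n τ) = 0 := (mt_mem A n hn τ hτ).2
        rw [h1]
        exact map_zero (show Cn A (n + 1) →L[ℂ] ℂ from F.1)
      · exact q.isClosed_ker
    exact fun x hx => hle hx
  · intro f hf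
    obtain ⟨φ, hφ, hφn, hφf⟩ := CO_dual A n f hf
    obtain ⟨τ, hτ, hτn, hτφ⟩ := hC φ hφ
    have hle : comm A ≤ τ.ker := CO_trace A τ hτ
    refine ⟨(comm A).liftQL τ hle, ?_, ?_⟩
    · have h1 : ‖(comm A).liftQL τ hle‖ ≤ ‖τ‖ := by
        refine ContinuousLinearMap.opNorm_le_bound _ (norm_nonneg _) fun v => ?_
        apply le_of_forall_pos_le_add
        intro ε hε
        obtain ⟨a, rfl, ha⟩ := Submodule.Quotient.norm_mk_lt v
          (show 0 < ε / (‖τ‖ + 1) by positivity)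
        change ‖τ a‖ ≤ _
        have h2 := τ.le_opNorm a
        have h3 : ‖τ‖ * ‖a‖ ≤ ‖τ‖ * (‖(Submodule.Quotient.mk a : A ⧸ comm A)‖ + ε / (‖τ‖ + 1)) :=
          mul_le_mul_of_nonneg_left ha.le (norm_nonneg _)
        have h4 : ‖τ‖ * (ε / (‖τ‖ + 1)) ≤ ε := by
          rw [mul_div_assoc', div_le_iff₀ (by positivity)]
          nlinarith [norm_nonneg τ]
        linarith
      refine h1.trans (hτn.trans ?_)
      exact (mul_le_mul_of_nonneg_right (le_max_left C 0) (norm_nonneg _)).trans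
        (mul_le_mul_of_nonneg_left hφn (le_max_right C 0))
    · intro x hx
      obtain ⟨F, rfl⟩ := Submodule.Quotient.mk_surjective _ x
      rw [hqp, hφf]
      change F.1 φ = τ (p F)
      rw [hp]
      have h1 := CO_Bc_Zh A n _ hτφ F hx
      have h2 : (show Cn A n →L[ℂ] ℂ from F.1) (φ - mt A n τ) = 0 := h1
      rw [map_sub, sub_eq_zero] at h2
      exact h2
  · intro g hg
    set τ : A →L[ℂ] ℂ := g.comp (comm A).mkQL with hτdef
    have hτ : τ ∈ TA A := by
      intro x y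
      rw [← sub_eq_zero, ← map_sub]
      change g (Submodule.Quotient.mk (x * y - y * x)) = 0
      rw [(Submodule.Quotient.mk_eq_zero (comm A)).2, map_zero]
      exact Submodule.le_topologicalClosure _ (Submodule.subset_span ⟨x, y, rfl⟩)
    have hmt : mt A n τ ∈ cyc A n := (mt_mem A n hn τ hτ).1
    have hgq : ∀ F : X A n, g (q (Submodule.Quotient.mk F)) = F.1 (mt A n τ) := by
      intro F
      rw [hqp, ← hp]
      rfl
    have hBc : mt A n τ ∈ Bc A n := by
      obtain ⟨f, hf⟩ := dual_Y' A n (mt A n τ) hmt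
      have hfZ : ∀ x ∈ Zh A n, f x = 0 := by
        intro x hx
        obtain ⟨F, rfl⟩ := Submodule.Quotient.mk_surjective _ x
        rw [hf, ← hgq]
        exact hg _ hx
      cases n with
      | zero =>
        have : mt A 0 τ = 0 := by
          apply X_sep
          intro F
          rw [← hf]
          exact hfZ _ trivial
        rw [this]
        exact Submodule.zero_mem _
      | succ k =>
        have hcl := CO_closed A k (Bc_closed A hH (k + 1))
        obtain ⟨g', hg'⟩ := closed_range (bY A k) hcl f (fun v hv => hfZ v hv)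
        apply CO_comp_mem A k g'
        intro F
        rw [← hf, hg']
        rfl
    have hτ0 := coh_uniq A hH n hn τ hτ hBc
    ext v
    obtain ⟨a, rfl⟩ := Submodule.Quotient.mk_surjective _ v
    change τ a = 0
    rw [hτ0]
    rfl

end H504C
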