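import Pool.Agent.H504C.Wire
import Pool.Agent.H504C.TaskCH
import Pool.Agent.H504C.TaskCI
import Pool.Agent.H504C.TaskCN
import Pool.Agent.H504C.TaskCO

/-! All parts of the proof for MP_08bba9_an. -/
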