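import Mathlib

/-! Banach cyclic cohomology and homology of C*-algebras in elementary terms. -/

set_option autoImplicit false

namespace H504CT

open Finset

variable {A : Type} [NonUnitalCStarAlgebra A]

/-- multiply the entries `i` and `i+1` -/
def mulAt {n : ℕ} (i : Fin (n + 1)) (a : Fin (n + 2) → A) : Fin (n + 1) → A :=
  fun j => if j < i then a j.castSucc else if j = i then a j.castSucc * a j.succ else a j.succ

/-- `(a_{n+1} a_0, a_1, …, a_n)` -/
def mulLast {n : ℕ} (a : Fin (n + 2) → A) : Fin (n + 1) → A :=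
  fun j => if j = 0 then a (Fin.last (n + 1)) * a 0 else a j.castSucc

/-- the Hochschild coboundary -/
noncomputable def bf {n : ℕ} (f : (Fin (n + 1) → A) → ℂ) (a : Fin (n + 2) → A) : ℂ :=
  ∑ i : Fin (n + 1), (-1 : ℂ) ^ (i : ℕ) * f (mulAt i a) + (-1 : ℂ) ^ (n + 1) * f (mulLast a)

/-- the signed cyclic permutation -/
noncomputable def tf {n : ℕ} (f : (Fin (n + 1) → A) → ℂ) (a : Fin (n + 1) → A) : ℂ :=
  (-1 : ℂ) ^ n * f (fun j => a (j - 1))

variable (A)

/-- bounded `(n+1)`-linear functionals -/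
abbrev Co (n : ℕ) : Type := ContinuousMultilinearMap ℂ (fun _ : Fin (n + 1) => A) ℂ

/-- cyclic cochains -/
def Cyc (n : ℕ) : Submodule ℂ ((Fin (n + 1) → A) → ℂ) where
  carrier := {f | (∃ φ : Co A n, ∀ a, f a = φ a) ∧
    ∀ a : Fin (n + 1) → A, f (fun j => a (j + 1)) = (-1 : ℂ) ^ n * f a}
  add_mem' := by
    rintro f g ⟨⟨φ, hφ⟩, hf⟩ ⟨⟨ψ, hψ⟩, hg⟩
    refine ⟨⟨φ + ψ, fun a => ?_⟩, fun a => ?_⟩
    · show f a + g a = φ a + ψ a
      rw [hφ, hψ]
    · show f _ + g _ = _ * (f a + g a)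
      rw [hf, hg]; ring
  zero_mem' := ⟨⟨0, fun a => rfl⟩, fun a => by simp⟩
  smul_mem' := by
    rintro c f ⟨⟨φ, hφ⟩, hf⟩
    refine ⟨⟨c • φ, fun a => ?_⟩, fun a => ?_⟩
    · show c * f a = c * φ a
      rw [hφ]
    · show c * f _ = _ * (c * f a)
      rw [hf]; ring

/-- the Hochschild coboundary, as a linear map -/
noncomputable def bL (n : ℕ) : ((Fin (n + 1) → A) → ℂ) →ₗ[ℂ] ((Fin (n + 2) → A) → ℂ) where
  toFun f := bf f
  map_add' f g := by
    funext a
    simp only [bf, Pi.add_apply, mul_add, Finset.sum_add_distrib]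
    ring
  map_smul' c f := by
    funext a
    simp only [bf, Pi.smul_apply, smul_eq_mul, RingHom.id_apply, mul_add, Finset.mul_sum]
    congr 1
    · exact Finset.sum_congr rfl fun i _ => by ring
    · ring

/-- cyclic cocycles -/
noncomputable def Zc (n : ℕ) : Submodule ℂ ((Fin (n + 1) → A) → ℂ) := Cyc A n ⊓ LinearMap.ker (bL A n)

/-- coboundaries of cyclic cochains -/
noncomputable def Bc : (n : ℕ) → Submodule ℂ ((Fin (n + 1) → A) → ℂ)
  | 0 => ⊥
  | n + 1 => (Cyc A n).map (bL A n)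

/-- `f` is bounded by `K` as a multilinear functional -/
def Nb (n : ℕ) (f : (Fin (n + 1) → A) → ℂ) (K : ℝ) : Prop := ∀ a, ‖f a‖ ≤ K * ∏ i, ‖a i‖

/-- `F` is bounded by `K` as a functional on the space of bounded multilinear functionals -/
def Nh (n : ℕ) (F : Co A n → ℂ) (K : ℝ) : Prop := ∀ φ, ‖F φ‖ ≤ K * ‖φ‖

/-- the projective tensor power of order `n+1`, realised as the closed linear span of the evaluations in
the dual of the space of bounded `(n+1)`-linear functionals -/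
def Tens (n : ℕ) : Submodule ℂ (Co A n → ℂ) where
  carrier := {F | ∀ ε : ℝ, 0 < ε →
    ∃ G ∈ Submodule.span ℂ (Set.range fun (a : Fin (n + 1) → A) (φ : Co A n) => φ a), Nh A n (F - G) ε}
  add_mem' := by
    intro F F' h h' ε hε
    obtain ⟨G, hG, h1⟩ := h (ε / 2) (by positivity)
    obtain ⟨G', hG', h1'⟩ := h' (ε / 2) (by positivity)
    refine ⟨G + G', Submodule.add_mem _ hG hG', fun φ => ?_⟩
    have e : (F + F' - (G + G')) φ = (F - G) φ + (F' - G') φ := by
      simp only [Pi.sub_apply, Pi.add_apply]; ring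
    rw [e]
    refine (norm_add_le _ _).trans ?_
    have := add_le_add (h1 φ) (h1' φ)
    linarith
  zero_mem' := fun ε hε => ⟨0, Submodule.zero_mem _, fun φ => by
    simp only [sub_self, Pi.zero_apply, norm_zero]; positivity⟩
  smul_mem' := by
    intro c F h ε hε
    obtain ⟨G, hG, h1⟩ := h (ε / (‖c‖ + 1)) (by positivity)
    refine ⟨c • G, Submodule.smul_mem _ c hG, fun φ => ?_⟩
    have e : (c • F - c • G) φ = c * (F - G) φ := by
      simp only [Pi.sub_apply, Pi.smul_apply, smul_eq_mul]; ring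
    rw [e, norm_mul]
    have h2 := mul_le_mul_of_nonneg_left (h1 φ) (norm_nonneg c)
    refine h2.trans ?_
    have h3 : ‖c‖ * (ε / (‖c‖ + 1) * ‖φ‖) = (‖c‖ / (‖c‖ + 1)) * (ε * ‖φ‖) := by ring
    rw [h3]
    have h4 : ‖c‖ / (‖c‖ + 1) ≤ 1 := by
      rw [div_le_one (by positivity)]; linarith
    have h5 : 0 ≤ ε * ‖φ‖ := by positivity
    nlinarith

/-- `G = F ∘ t`: the signed cyclic permutation of the tensor power -/
def IsTr (n : ℕ) (F G : Co A n → ℂ) : Prop :=
  ∀ φ ψ : Co A n, (∀ a, ψ a = tf (fun x => φ x) a) → G φ = F ψ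

/-- `G = F ∘ b`: the Hochschild boundary -/
def IsBd (n : ℕ) (F : Co A (n + 1) → ℂ) (G : Co A n → ℂ) : Prop :=
  ∀ (φ : Co A n) (ψ : Co A (n + 1)), (∀ a, ψ a = bf (fun x => φ x) a) → G φ = F ψ

/-- the range of `1 - t` -/
def Rt (n : ℕ) : Submodule ℂ (Co A n → ℂ) where
  carrier := {H | ∃ F ∈ Tens A n, ∃ G, IsTr A n F G ∧ H = F - G}
  add_mem' := by
    rintro _ _ ⟨F, hF, G, hG, rfl⟩ ⟨F', hF', G', hG', rfl⟩
    refine ⟨F + F', Submodule.add_mem _ hF hF', G + G', fun φ ψ h => ?_, by abel⟩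
    show G φ + G' φ = F ψ + F' ψ
    rw [hG φ ψ h, hG' φ ψ h]
  zero_mem' := ⟨0, Submodule.zero_mem _, 0, fun _ _ _ => rfl, by simp⟩
  smul_mem' := by
    rintro c _ ⟨F, hF, G, hG, rfl⟩
    refine ⟨c • F, Submodule.smul_mem _ c hF, c • G, fun φ ψ h => ?_, by rw [smul_sub]⟩
    show c * G φ = c * F ψ
    rw [hG φ ψ h]

/-- cycles of the cyclic quotient complex, as elements of the tensor power -/
def Zh : (n : ℕ) → Submodule ℂ (Co A n → ℂ)
  | 0 => Tens A 0
  | n + 1 =>
    { carrier := {F | F ∈ Tens A (n + 1) ∧ ∃ G ∈ Rt A n, IsBd A n F G}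
      add_mem' := by
        rintro F F' ⟨hF, G, hG, h⟩ ⟨hF', G', hG', h'⟩
        refine ⟨Submodule.add_mem _ hF hF', G + G', Submodule.add_mem _ hG hG', fun φ ψ e => ?_⟩
        show G φ + G' φ = F ψ + F' ψ
        rw [h φ ψ e, h' φ ψ e]
      zero_mem' := ⟨Submodule.zero_mem _, 0, Submodule.zero_mem _, fun _ _ _ => rfl⟩
      smul_mem' := by
        rintro c F ⟨hF, G, hG, h⟩
        refine ⟨Submodule.smul_mem _ c hF, c • G, Submodule.smul_mem _ c hG, fun φ ψ e => ?_⟩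
        show c * G φ = c * F ψ
        rw [h φ ψ e] }

/-- the closure of the boundaries of the cyclic quotient complex, as elements of the tensor power -/
def Bh (n : ℕ) : Submodule ℂ (Co A n → ℂ) where
  carrier := {F | F ∈ Tens A n ∧ ∀ ε : ℝ, 0 < ε →
    ∃ G ∈ Rt A n, ∃ P ∈ Tens A (n + 1), ∃ Q, IsBd A n P Q ∧ Nh A n (F - G - Q) ε}
  add_mem' := by
    rintro F F' ⟨hF, h⟩ ⟨hF', h'⟩
    refine ⟨Submodule.add_mem _ hF hF', fun ε hε => ?_⟩
    obtain ⟨G, hG, P, hP, Q, hQ, h1⟩ := h (ε / 2) (by positivity)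
    obtain ⟨G', hG', P', hP', Q', hQ', h1'⟩ := h' (ε / 2) (by positivity)
    refine ⟨G + G', Submodule.add_mem _ hG hG', P + P', Submodule.add_mem _ hP hP', Q + Q',
      fun φ ψ e => ?_, fun φ => ?_⟩
    · show Q φ + Q' φ = P ψ + P' ψ
      rw [hQ φ ψ e, hQ' φ ψ e]
    · have e : (F + F' - (G + G') - (Q + Q')) φ = (F - G - Q) φ + (F' - G' - Q') φ := by
        simp only [Pi.sub_apply, Pi.add_apply]; ring
      rw [e]
      refine (norm_add_le _ _).trans ?_
      have := add_le_add (h1 φ) (h1' φ)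
      linarith
  zero_mem' := ⟨Submodule.zero_mem _, fun ε hε => ⟨0, Submodule.zero_mem _, 0, Submodule.zero_mem _, 0,
    fun _ _ _ => rfl, fun φ => by
      simp only [sub_self, Pi.zero_apply, norm_zero]; positivity⟩⟩
  smul_mem' := by
    rintro c F ⟨hF, h⟩
    refine ⟨Submodule.smul_mem _ c hF, fun ε hε => ?_⟩
    obtain ⟨G, hG, P, hP, Q, hQ, h1⟩ := h (ε / (‖c‖ + 1)) (by positivity)
    refine ⟨c • G, Submodule.smul_mem _ c hG, c • P, Submodule.smul_mem _ c hP, c • Q,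
      fun φ ψ e => ?_, fun φ => ?_⟩
    · show c * Q φ = c * P ψ
      rw [hQ φ ψ e]
    · have e : (c • F - c • G - c • Q) φ = c * (F - G - Q) φ := by
        simp only [Pi.sub_apply, Pi.smul_apply, smul_eq_mul]; ring
      rw [e, norm_mul]
      have h2 := mul_le_mul_of_nonneg_left (h1 φ) (norm_nonneg c)
      refine h2.trans ?_
      have h3 : ‖c‖ * (ε / (‖c‖ + 1) * ‖φ‖) = (‖c‖ / (‖c‖ + 1)) * (ε * ‖φ‖) := by ring
      rw [h3]
      have h4 : ‖c‖ / (‖c‖ + 1) ≤ 1 := by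
        rw [div_le_one (by positivity)]; linarith
      have h5 : 0 ≤ ε * ‖φ‖ := by positivity
      nlinarith

/-- bounded traces -/
def TA : Submodule ℂ (A →L[ℂ] ℂ) where
  carrier := {f | ∀ x y : A, f (x * y) = f (y * x)}
  add_mem' {f g} hf hg x y := by
    show f (x * y) + g (x * y) = f (y * x) + g (y * x)
    rw [hf x y, hg x y]
  zero_mem' x y := rfl
  smul_mem' c f hf x y := by
    show c * f (x * y) = c * f (y * x)
    rw [hf x y]

/-- the closed linear span of the commutators -/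
noncomputable def comm : Submodule ℂ A :=
  (Submodule.span ℂ {z : A | ∃ x y : A, z = x * y - y * x}).topologicalClosure

/-- `Z / B`, with the quotient norm of the norm whose balls are given by `N`, is topologically
isomorphic to the normed space `E` -/
def TopIso {V : Type} [AddCommGroup V] [Module ℂ V] (Z B : Submodule ℂ V) (N : V → ℝ → Prop)
    (E : Type) [SeminormedAddCommGroup E] [NormedSpace ℂ E] : Prop :=
  ∃ (e : (Z ⧸ B.submoduleOf Z) ≃ₗ[ℂ] E) (C : ℝ),
    (∀ (z : Z) (K : ℝ), 0 ≤ K → N z K → ‖e (Submodule.Quotient.mk z)‖ ≤ C * K) ∧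
    ∀ x : E, ∃ z : Z, e (Submodule.Quotient.mk z) = x ∧ N z (C * ‖x‖)

end H504CT
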