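import Pool.Agent.H504C.ToF

set_option autoImplicit false

/-! Project H504C (helper504), task BD: the tensor power as a space of plain functions. -/

namespace H504C

open Finset

variable (A : Type) [NonUnitalCStarAlgebra A]

theorem BD_inj (n : ℕ) (F G : X A n) (h : toF A n F = toF A n G) : F = G := by
  apply Subtype.ext
  apply ContinuousLinearMap.ext
  intro φ
  exact congrFun h φ

theorem BD_norm (n : ℕ) (F : X A n) (K : ℝ) (hK : 0 ≤ K) :
    H504CT.Nh A n (toF A n F) K ↔ ‖F‖ ≤ K :=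
  (ContinuousLinearMap.opNorm_le_iff (f := (show Cn A n →L[ℂ] ℂ from F.1)) hK).symm

theorem BD_norm' (n : ℕ) (F : X A n) : H504CT.Nh A n (toF A n F) ‖F‖ :=
  (BD_norm A n F ‖F‖ (norm_nonneg _)).2 le_rfl

theorem BD_lift (n : ℕ) (G : H504CT.Co A n → ℂ)
    (hG : G ∈ Submodule.span ℂ (Set.range fun (a : Fin (n + 1) → A) (φ : H504CT.Co A n) => φ a)) :
    ∃ g ∈ Submodule.span ℂ (Set.range (ev A n)), ∀ φ : H504CT.Co A n,
      (show Cn A n →L[ℂ] ℂ from g) φ = G φ := by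
  induction hG using Submodule.span_induction with
  | mem x hx =>
    obtain ⟨a, rfl⟩ := hx
    exact ⟨ev A n a, Submodule.subset_span ⟨a, rfl⟩, fun φ => rfl⟩
  | zero => exact ⟨0, Submodule.zero_mem _, fun φ => rfl⟩
  | add x y _ _ hx hy =>
    obtain ⟨g, hg, h⟩ := hx
    obtain ⟨g', hg', h'⟩ := hy
    refine ⟨g + g', Submodule.add_mem _ hg hg', fun φ => ?_⟩
    show (show Cn A n →L[ℂ] ℂ from g) φ + (show Cn A n →L[ℂ] ℂ from g') φ = x φ + y φ
    rw [h, h']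
  | smul c x _ hx =>
    obtain ⟨g, hg, h⟩ := hx
    refine ⟨c • g, Submodule.smul_mem _ c hg, fun φ => ?_⟩
    show c * (show Cn A n →L[ℂ] ℂ from g) φ = c * x φ
    rw [h]

theorem BD_lower (n : ℕ) (g : Dn A n) (hg : g ∈ Submodule.span ℂ (Set.range (ev A n))) :
    (fun φ : H504CT.Co A n => (show Cn A n →L[ℂ] ℂ from g) φ) ∈
      Submodule.span ℂ (Set.range fun (a : Fin (n + 1) → A) (φ : H504CT.Co A n) => φ a) := by
  induction hg using Submodule.span_induction with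
  | mem x hx =>
    obtain ⟨a, rfl⟩ := hx
    exact Submodule.subset_span ⟨a, rfl⟩
  | zero => exact Submodule.zero_mem _
  | add x y _ _ hx hy => exact Submodule.add_mem _ hx hy
  | smul c x _ hx => exact Submodule.smul_mem _ c hx

theorem BD_Tens (n : ℕ) (F' : H504CT.Co A n → ℂ) :
    F' ∈ H504CT.Tens A n ↔ ∃ F : X A n, F' = toF A n F := by
  constructor
  · intro hF'
    have hap : ∀ ε : ℝ, 0 < ε → ∃ g ∈ Submodule.span ℂ (Set.range (ev A n)),
        ∀ φ : H504CT.Co A n, ‖F' φ - (show Cn A n →L[ℂ] ℂ from g) φ‖ ≤ ε * ‖φ‖ := by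
      intro ε hε
      obtain ⟨G, hG, h1⟩ := hF' ε hε
      obtain ⟨g, hg, h2⟩ := BD_lift A n G hG
      refine ⟨g, hg, fun φ => ?_⟩
      rw [h2 φ]
      exact h1 φ
    have small : ∀ (z : ℂ) (M : ℝ), 0 ≤ M → (∀ ε : ℝ, 0 < ε → ‖z‖ ≤ ε * M) → z = 0 := by
      intro z M hM h
      by_contra hz
      have hz' : 0 < ‖z‖ := norm_pos_iff.2 hz
      have h1 := h (‖z‖ / (2 * (M + 1))) (by positivity)
      have h2 : ‖z‖ / (2 * (M + 1)) * M ≤ ‖z‖ / 2 := by
        rw [div_mul_eq_mul_div, div_le_div_iff₀ (by positivity) (by norm_num)]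
        nlinarith
      linarith
    have hadd : ∀ φ ψ : H504CT.Co A n, F' (φ + ψ) = F' φ + F' ψ := by
      intro φ ψ
      have h0 : F' (φ + ψ) - (F' φ + F' ψ) = 0 := by
        refine small _ (‖φ + ψ‖ + ‖φ‖ + ‖ψ‖) (by positivity) fun ε hε => ?_
        obtain ⟨g, -, hg⟩ := hap ε hε
        have e : F' (φ + ψ) - (F' φ + F' ψ) =
            (F' (φ + ψ) - (show Cn A n →L[ℂ] ℂ from g) (φ + ψ)) -
            (F' φ - (show Cn A n →L[ℂ] ℂ from g) φ) - (F' ψ - (show Cn A n →L[ℂ] ℂ from g) ψ) := by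
          have : (show Cn A n →L[ℂ] ℂ from g) (φ + ψ) =
            (show Cn A n →L[ℂ] ℂ from g) φ + (show Cn A n →L[ℂ] ℂ from g) ψ :=
            (show Cn A n →L[ℂ] ℂ from g).map_add φ ψ
          rw [this]; ring
        rw [e]
        refine (norm_sub_le _ _).trans ?_
        have h1 := norm_sub_le (F' (φ + ψ) - (show Cn A n →L[ℂ] ℂ from g) (φ + ψ))
          (F' φ - (show Cn A n →L[ℂ] ℂ from g) φ)
        have h2 := hg (φ + ψ)
        have h3 := hg φ
        have h4 := hg ψ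
        have h5 : ε * (‖φ + ψ‖ + ‖φ‖ + ‖ψ‖) = ε * ‖φ + ψ‖ + ε * ‖φ‖ + ε * ‖ψ‖ := by ring
        rw [h5]
        linarith
      linear_combination h0
    have hsmul : ∀ (c : ℂ) (φ : H504CT.Co A n), F' (c • φ) = c * F' φ := by
      intro c φ
      have h0 : F' (c • φ) - c * F' φ = 0 := by
        refine small _ (‖c • φ‖ + ‖c‖ * ‖φ‖) (by positivity) fun ε hε => ?_
        obtain ⟨g, -, hg⟩ := hap ε hε
        have e : F' (c • φ) - c * F' φ =
            (F' (c • φ) - (show Cn A n →L[ℂ] ℂ from g) (c • φ)) -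
            c * (F' φ - (show Cn A n →L[ℂ] ℂ from g) φ) := by
          have : (show Cn A n →L[ℂ] ℂ from g) (c • φ) = c * (show Cn A n →L[ℂ] ℂ from g) φ :=
            (show Cn A n →L[ℂ] ℂ from g).map_smul c φ
          rw [this]; ring
        rw [e]
        refine (norm_sub_le _ _).trans ?_
        rw [norm_mul]
        have h2 := hg (c • φ)
        have h3 := mul_le_mul_of_nonneg_left (hg φ) (norm_nonneg c)
        have h5 : ε * (‖c • φ‖ + ‖c‖ * ‖φ‖) = ε * ‖c • φ‖ + ‖c‖ * (ε * ‖φ‖) := by ring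
        rw [h5]
        linarith
      linear_combination h0
    obtain ⟨g₁, -, hg₁⟩ := hap 1 one_pos
    let F₀ : Cn A n →ₗ[ℂ] ℂ :=
      { toFun := F', map_add' := hadd, map_smul' := fun c φ => hsmul c φ }
    let F₁ : Cn A n →L[ℂ] ℂ := F₀.mkContinuous (1 + ‖(show Cn A n →L[ℂ] ℂ from g₁)‖) (by
      intro φ
      have h1 := hg₁ φ
      have h2 := (show Cn A n →L[ℂ] ℂ from g₁).le_opNorm φ
      have h3 : ‖F' φ‖ ≤ ‖F' φ - (show Cn A n →L[ℂ] ℂ from g₁) φ‖ +
          ‖(show Cn A n →L[ℂ] ℂ from g₁) φ‖ := by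
        have := norm_add_le (F' φ - (show Cn A n →L[ℂ] ℂ from g₁) φ)
          ((show Cn A n →L[ℂ] ℂ from g₁) φ)
        simpa using this
      show ‖F' φ‖ ≤ _
      refine h3.trans ((add_le_add h1 h2).trans (le_of_eq ?_))
      show (1 : ℝ) * ‖φ‖ + ‖(show Cn A n →L[ℂ] ℂ from g₁)‖ * ‖φ‖ = _
      ring)
    refine ⟨⟨F₁, ?_⟩, rfl⟩
    refine Metric.mem_closure_iff.2 ?_
    intro ε hε
    obtain ⟨g, hg, h⟩ := hap (ε / 2) (by positivity)
    refine ⟨g, hg, ?_⟩
    refine lt_of_eq_of_lt (dist_eq_norm (E := Dn A n) F₁ g) ?_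
    have : ‖(F₁ - (show Cn A n →L[ℂ] ℂ from g) : Cn A n →L[ℂ] ℂ)‖ ≤ ε / 2 := by
      refine ContinuousLinearMap.opNorm_le_bound _ (by positivity) fun φ => ?_
      exact h φ
    exact lt_of_le_of_lt this (by linarith)
  · rintro ⟨F, rfl⟩ ε hε
    have hF : F.1 ∈ closure (Submodule.span ℂ (Set.range (ev A n)) : Set (Dn A n)) := F.2
    rw [Metric.mem_closure_iff] at hF
    obtain ⟨g, hg, h⟩ := hF ε hε
    refine ⟨_, BD_lower A n g hg, fun φ => ?_⟩
    rw [dist_eq_norm] at h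
    have h1 := (show Cn A n →L[ℂ] ℂ from (F.1 - g)).le_opNorm φ
    have h2 : ‖(show Cn A n →L[ℂ] ℂ from (F.1 - g))‖ ≤ ε := h.le
    exact h1.trans (mul_le_mul_of_nonneg_right h2 (norm_nonneg _))

end H504C
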