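import Pool.Agent.H504C.TaskBD
import Pool.Agent.H504C.Final

set_option autoImplicit false

namespace H504C

open Finset

variable (A : Type) [NonUnitalCStarAlgebra A]

theorem BE_toF_sub (n : ℕ) (F G : X A n) : toF A n (F - G) = toF A n F - toF A n G := rfl

theorem BE_toF_apply (n : ℕ) (F : X A n) (φ : Cn A n) : toF A n F φ = F.1 φ := rfl

theorem BE_tr (n : ℕ) (F : X A n) (G' : H504CT.Co A n → ℂ) :
    H504CT.IsTr A n (toF A n F) G' ↔ G' = toF A n (tX A n F) := by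
  constructor
  · intro h
    funext φ
    have h1 := h φ (t A n φ) (fun a => t_apply A n φ a)
    rw [h1]
    exact (tX_apply A n F φ).symm
  · rintro rfl φ ψ h
    have h1 : (show Cn A n from ψ) = t A n φ :=
      CK_ext A (fun a => (h a).trans (t_apply A n φ a).symm)
    have h2 : toF A n F ψ = toF A n F (t A n φ) := congrArg (toF A n F) h1
    rw [h2]
    exact tX_apply A n F φ

theorem BE_bd (n : ℕ) (F : X A (n + 1)) (G' : H504CT.Co A n → ℂ) :
    H504CT.IsBd A n (toF A (n + 1) F) G' ↔ G' = toF A n (bX A n F) := by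
  constructor
  · intro h
    funext φ
    have h1 := h φ (b A n φ) (fun a => b_apply A n φ a)
    rw [h1]
    exact (bX_apply A n F φ).symm
  · rintro rfl φ ψ h
    have h1 : (show Cn A (n + 1) from ψ) = b A n φ :=
      CK_ext A (fun a => (h a).trans (b_apply A n φ a).symm)
    have h2 : toF A (n + 1) F ψ = toF A (n + 1) F (b A n φ) := congrArg (toF A (n + 1) F) h1
    rw [h2]
    exact bX_apply A n F φ

theorem BE_Rt_iff (n : ℕ) (G : H504CT.Co A n → ℂ) :
    G ∈ H504CT.Rt A n ↔ ∃ F ∈ Rt A n, G = toF A n F := by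
  constructor
  · rintro ⟨F0, hF0, G0, hG0, rfl⟩
    obtain ⟨F1, rfl⟩ := (BD_Tens A n F0).mp hF0
    rw [BE_tr] at hG0
    subst hG0
    exact ⟨F1 - tX A n F1, ⟨F1, rfl⟩, rfl⟩
  · rintro ⟨F, ⟨F1, hF1⟩, rfl⟩
    refine ⟨toF A n F1, (BD_Tens A n _).mpr ⟨F1, rfl⟩, toF A n (tX A n F1), (BE_tr A n F1 _).mpr rfl, ?_⟩
    rw [← hF1]
    rfl

theorem BE_Rt (n : ℕ) (F : X A n) : toF A n F ∈ H504CT.Rt A n ↔ F ∈ Rt A n := by
  rw [BE_Rt_iff]
  constructor
  · rintro ⟨G, hG, h⟩
    rw [BD_inj A n F G h]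
    exact hG
  · intro h
    exact ⟨F, h, rfl⟩

theorem BE_Zh (n : ℕ) (F : X A n) :
    toF A n F ∈ H504CT.Zh A n ↔ (Submodule.Quotient.mk F : Y A n) ∈ Zh A n := by
  cases n with
  | zero =>
    constructor
    · intro _
      exact Submodule.mem_top
    · intro _
      exact (BD_Tens A 0 _).mpr ⟨F, rfl⟩
  | succ n =>
    have h2 : (Submodule.Quotient.mk F : Y A (n + 1)) ∈ Zh A (n + 1) ↔ bX A n F ∈ Rt A n := by
      show bY A n (Submodule.Quotient.mk F) = 0 ↔ _
      rw [bY_mk, Submodule.Quotient.mk_eq_zero]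
    rw [h2]
    constructor
    · rintro ⟨_, G, hG, h⟩
      rw [BE_bd] at h
      subst h
      exact (BE_Rt A n _).mp hG
    · intro h
      exact ⟨(BD_Tens A (n + 1) _).mpr ⟨F, rfl⟩, toF A n (bX A n F), (BE_Rt A n _).mpr h,
        (BE_bd A n F _).mpr rfl⟩

theorem BE_Bh (n : ℕ) (F : X A n) :
    toF A n F ∈ H504CT.Bh A n ↔ (Submodule.Quotient.mk F : Y A n) ∈ Bh A n := by
  have h0 : (Submodule.Quotient.mk F : Y A n) ∈ Bh A n ↔ ∀ ε : ℝ, 0 < ε →
      ∃ P : X A (n + 1), ‖(Submodule.Quotient.mk (F - bX A n P) : Y A n)‖ < ε := by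
    show (Submodule.Quotient.mk F : Y A n) ∈
      closure ((LinearMap.range (bY A n).toLinearMap : Submodule ℂ (Y A n)) : Set (Y A n)) ↔ _
    rw [Metric.mem_closure_iff]
    constructor
    · intro h ε hε
      obtain ⟨y, ⟨P', hP'⟩, hy⟩ := h ε hε
      obtain ⟨P, rfl⟩ := Submodule.Quotient.mk_surjective _ P'
      refine ⟨P, ?_⟩
      have h1 : y = Submodule.Quotient.mk (bX A n P) := by
        rw [← hP']
        exact bY_mk A n P
      rw [h1, dist_eq_norm, ← Submodule.Quotient.mk_sub] at hy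
      exact hy
    · intro h ε hε
      obtain ⟨P, hP⟩ := h ε hε
      refine ⟨Submodule.Quotient.mk (bX A n P), ⟨Submodule.Quotient.mk P, bY_mk A n P⟩, ?_⟩
      rw [dist_eq_norm, ← Submodule.Quotient.mk_sub]
      exact hP
  rw [h0]
  constructor
  · rintro ⟨_, h⟩ ε hε
    obtain ⟨G, hG, P, hP, Q, hQ, hN⟩ := h (ε / 2) (by positivity)
    obtain ⟨G1, hG1, rfl⟩ := (BE_Rt_iff A n G).mp hG
    obtain ⟨P1, rfl⟩ := (BD_Tens A (n + 1) P).mp hP
    rw [BE_bd] at hQ
    subst hQ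
    rw [← BE_toF_sub, ← BE_toF_sub, BD_norm A n _ _ (by positivity)] at hN
    refine ⟨P1, ?_⟩
    have h1 : (Submodule.Quotient.mk (F - bX A n P1) : Y A n) =
        Submodule.Quotient.mk (F - G1 - bX A n P1) := by
      rw [Submodule.Quotient.eq]
      have : F - bX A n P1 - (F - G1 - bX A n P1) = G1 := by abel
      rw [this]
      exact hG1
    rw [h1]
    have h2 := Submodule.Quotient.norm_mk_le (Rt A n) (F - G1 - bX A n P1)
    linarith
  · intro h
    refine ⟨(BD_Tens A n _).mpr ⟨F, rfl⟩, fun ε hε => ?_⟩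
    obtain ⟨P, hP⟩ := h ε hε
    obtain ⟨m, hm, hm2⟩ := Submodule.Quotient.norm_mk_lt
      (Submodule.Quotient.mk (F - bX A n P) : Y A n) (sub_pos.mpr hP)
    have hm3 : ‖m‖ < ε := by linarith
    rw [Submodule.Quotient.eq] at hm
    have hm4 : F - bX A n P - m ∈ Rt A n := by
      have := Submodule.neg_mem _ hm
      rwa [neg_sub] at this
    refine ⟨toF A n (F - bX A n P - m), (BE_Rt A n _).mpr hm4, toF A (n + 1) P,
      (BD_Tens A (n + 1) _).mpr ⟨P, rfl⟩, toF A n (bX A n P), (BE_bd A n P _).mpr rfl, ?_⟩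
    rw [← BE_toF_sub, ← BE_toF_sub, BD_norm A n _ _ hε.le]
    have : F - (F - bX A n P - m) - bX A n P = m := by abel
    rw [this]
    exact hm3.le

theorem BE_Bh_le (n : ℕ) : Bh A n ≤ Zh A n := CO_Bh_le A n

end H504C
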