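import Pool.Agent.H504C.TaskBD
import Pool.Agent.H504C.TaskBE

set_option autoImplicit false
set_option maxHeartbeats 400000

namespace H504C

open Finset

variable (A : Type) [NonUnitalCStarAlgebra A]

theorem BF_Zh_le (n : ℕ) : H504CT.Zh A n ≤ H504CT.Tens A n := by
  cases n with
  | zero => exact le_refl _
  | succ n => exact fun F h => h.1

theorem BF_Bh_le (n : ℕ) : H504CT.Bh A n ≤ H504CT.Zh A n := by
  intro F' h
  obtain ⟨F, rfl⟩ := (BD_Tens A n F').1 h.1
  exact (BE_Zh A n F).2 (BE_Bh_le A n ((BE_Bh A n F).1 h))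

theorem BF_hom_odd (hH : HHv A) (n : ℕ) (hn : Odd n) : H504CT.Zh A n = H504CT.Bh A n := by
  apply le_antisymm _ (BF_Bh_le A n)
  intro F' h
  obtain ⟨F, rfl⟩ := (BD_Tens A n F').1 (BF_Zh_le A n h)
  rw [BE_Bh]
  have h1 := (BE_Zh A n F).1 h
  have := hom_odd A hH n hn
  have h2 : (Submodule.Quotient.mk (⟨Submodule.Quotient.mk F, h1⟩ : Zh A n) : HCh A n) =
      Submodule.Quotient.mk 0 := Subsingleton.elim _ _
  rw [Submodule.Quotient.eq] at h2
  simpa [Submodule.submoduleOf] using h2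

theorem toF_add (n : ℕ) (F G : X A n) : toF A n (F + G) = toF A n F + toF A n G := rfl

theorem toF_smul (n : ℕ) (c : ℂ) (F : X A n) : toF A n (c • F) = c • toF A n F := rfl

/-- the element of the tensor power given by a cycle -/
noncomputable def BF_lft (n : ℕ) (z : H504CT.Zh A n) : X A n :=
  ((BD_Tens A n z.1).1 (BF_Zh_le A n z.2)).choose

theorem BF_lft_spec (n : ℕ) (z : H504CT.Zh A n) : z.1 = toF A n (BF_lft A n z) :=
  ((BD_Tens A n z.1).1 (BF_Zh_le A n z.2)).choose_spec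

theorem BF_lft_mem (n : ℕ) (z : H504CT.Zh A n) :
    (Submodule.Quotient.mk (BF_lft A n z) : Y A n) ∈ Zh A n := by
  rw [← BE_Zh, ← BF_lft_spec]
  exact z.2

/-- the map to homology -/
noncomputable def BF_Psi (n : ℕ) : H504CT.Zh A n →ₗ[ℂ] HCh A n where
  toFun z := Submodule.Quotient.mk ⟨Submodule.Quotient.mk (BF_lft A n z), BF_lft_mem A n z⟩
  map_add' z w := by
    have h : BF_lft A n (z + w) = BF_lft A n z + BF_lft A n w := by
      apply BD_inj
      rw [toF_add, ← BF_lft_spec, ← BF_lft_spec, ← BF_lft_spec]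
      rfl
    rw [← Submodule.Quotient.mk_add]
    congr 1
    apply Subtype.ext
    show Submodule.Quotient.mk (BF_lft A n (z + w)) = Submodule.Quotient.mk (BF_lft A n z) +
      Submodule.Quotient.mk (BF_lft A n w)
    rw [h, Submodule.Quotient.mk_add]
  map_smul' c z := by
    have h : BF_lft A n (c • z) = c • BF_lft A n z := by
      apply BD_inj
      rw [toF_smul, ← BF_lft_spec, ← BF_lft_spec]
      rfl
    rw [RingHom.id_apply, ← Submodule.Quotient.mk_smul]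
    congr 1
    apply Subtype.ext
    show Submodule.Quotient.mk (BF_lft A n (c • z)) = c • Submodule.Quotient.mk (BF_lft A n z)
    rw [h, Submodule.Quotient.mk_smul]

theorem BF_Psi_of (n : ℕ) (F : X A n) (h : (Submodule.Quotient.mk F : Y A n) ∈ Zh A n) :
    BF_Psi A n ⟨toF A n F, (BE_Zh A n F).2 h⟩ = Submodule.Quotient.mk ⟨Submodule.Quotient.mk F, h⟩ := by
  have h1 : BF_lft A n ⟨toF A n F, (BE_Zh A n F).2 h⟩ = F :=
    BD_inj A n _ _ (BF_lft_spec A n ⟨toF A n F, (BE_Zh A n F).2 h⟩).symm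
  show Submodule.Quotient.mk _ = _
  congr 1
  apply Subtype.ext
  show Submodule.Quotient.mk _ = _
  rw [h1]

theorem BF_surj (n : ℕ) : Function.Surjective (BF_Psi A n) := by
  intro y
  obtain ⟨w, rfl⟩ := Submodule.Quotient.mk_surjective _ y
  obtain ⟨w, hw⟩ := w
  obtain ⟨F, rfl⟩ := Submodule.Quotient.mk_surjective _ w
  exact ⟨_, BF_Psi_of A n F hw⟩

theorem BF_ker (n : ℕ) : LinearMap.ker (BF_Psi A n) =
    (H504CT.Bh A n).submoduleOf (H504CT.Zh A n) := by
  ext z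
  rw [LinearMap.mem_ker]
  have h1 : BF_Psi A n z = Submodule.Quotient.mk
    ⟨Submodule.Quotient.mk (BF_lft A n z), BF_lft_mem A n z⟩ := rfl
  rw [h1, Submodule.Quotient.mk_eq_zero]
  show (Submodule.Quotient.mk (BF_lft A n z) : Y A n) ∈ Bh A n ↔ z.1 ∈ H504CT.Bh A n
  rw [← BE_Bh, ← BF_lft_spec]

theorem BF_bd1 (n : ℕ) (E : HCh A n ≃L[ℂ] (A ⧸ comm A)) :
    ∃ C : ℝ, 0 < C ∧ (∀ v, ‖E v‖ ≤ C * ‖v‖) := by
  obtain ⟨C, h1, h2⟩ := @ContinuousLinearMap.bound ℂ ℂ (HCh A n) (A ⧸ comm A) _ _ _ _ _ _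
    (RingHom.id ℂ) _ E.toContinuousLinearMap
  exact ⟨C, h1, fun v => h2 v⟩

theorem BF_bd2 (n : ℕ) (E : (A ⧸ comm A) ≃L[ℂ] HCh A n) :
    ∃ C : ℝ, 0 < C ∧ (∀ v, ‖E v‖ ≤ C * ‖v‖) := by
  obtain ⟨C, h1, h2⟩ := @ContinuousLinearMap.bound ℂ ℂ (A ⧸ comm A) (HCh A n) _ _ _ _ _ _
    (RingHom.id ℂ) _ E.toContinuousLinearMap
  exact ⟨C, h1, fun v => h2 v⟩

theorem BF_hom_even (hH : HHv A) (n : ℕ) (hn : Even n) :
    H504CT.TopIso (H504CT.Zh A n) (H504CT.Bh A n) (H504CT.Nh A n) (A ⧸ H504CT.comm A) := by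
  have hcomm : H504CT.comm A = comm A := rfl
  rw [hcomm]
  obtain ⟨E'⟩ := hom_even A hH n hn
  let e1 : (H504CT.Zh A n ⧸ (H504CT.Bh A n).submoduleOf (H504CT.Zh A n)) ≃ₗ[ℂ] HCh A n :=
    (Submodule.quotEquivOfEq _ _ (BF_ker A n).symm).trans
      ((BF_Psi A n).quotKerEquivOfSurjective (BF_surj A n))
  have he1 : ∀ z : H504CT.Zh A n, e1 (Submodule.Quotient.mk z) = BF_Psi A n z := by
    intro z
    simp only [e1, LinearEquiv.trans_apply, Submodule.quotEquivOfEq_mk]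
    rfl
  obtain ⟨C1, hC1, hb1⟩ := BF_bd1 A n E'
  obtain ⟨C2, hC2, hb2⟩ := BF_bd2 A n E'.symm
  refine ⟨e1.trans E'.toLinearEquiv, C1 + (C2 + 2), ?_, ?_⟩
  · intro z K hK hz
    have h1 : (e1.trans E'.toLinearEquiv) (Submodule.Quotient.mk z) = E' (BF_Psi A n z) := by
      rw [LinearEquiv.trans_apply, he1]; rfl
    rw [h1]
    have h2 := hb1 (BF_Psi A n z)
    have h3 : ‖BF_Psi A n z‖ ≤ K := by
      have h4 : ‖BF_lft A n z‖ ≤ K := by
        rw [← BD_norm A n _ K hK, ← BF_lft_spec]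
        exact hz
      have h5 : ‖(Submodule.Quotient.mk (BF_lft A n z) : Y A n)‖ ≤ ‖BF_lft A n z‖ :=
        Submodule.Quotient.norm_mk_le _ _
      have h6 : ‖BF_Psi A n z‖ ≤ ‖(⟨Submodule.Quotient.mk (BF_lft A n z), BF_lft_mem A n z⟩ : Zh A n)‖ :=
        Submodule.Quotient.norm_mk_le _ _
      exact h6.trans (h5.trans h4)
    nlinarith [norm_nonneg (BF_Psi A n z)]
  · intro x
    by_cases hx : x = 0
    · refine ⟨0, ?_, ?_⟩
      · rw [hx, Submodule.Quotient.mk_zero, map_zero]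
      · intro φ
        simp [hx]
    · have hxpos : 0 < ‖x‖ := by
        rcases (norm_nonneg x).lt_or_eq with h | h
        · exact h
        · exfalso
          apply hx
          obtain ⟨a, rfl⟩ := Submodule.Quotient.mk_surjective _ x
          rw [Submodule.Quotient.mk_eq_zero]
          have hcl : IsClosed ((comm A : Submodule ℂ A) : Set A) :=
            Submodule.isClosed_topologicalClosure _
          rw [← SetLike.mem_coe, ← hcl.closure_eq, Metric.mem_closure_iff]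
          intro ε hε
          have h0 : ‖(Submodule.Quotient.mk a : A ⧸ comm A)‖ = 0 := h.symm
          obtain ⟨m, hm1, hm2⟩ := Submodule.Quotient.norm_mk_lt
            (Submodule.Quotient.mk a : A ⧸ comm A) hε
          rw [h0, zero_add] at hm2
          refine ⟨a - m, (Submodule.Quotient.eq _).1 hm1.symm, ?_⟩
          rw [dist_eq_norm]
          simpa using hm2
      obtain ⟨w, hw1, hw2⟩ := Submodule.Quotient.norm_mk_lt (E'.symm x) hxpos
      obtain ⟨w, hwZ⟩ := w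
      obtain ⟨F, hF1, hF2⟩ := Submodule.Quotient.norm_mk_lt w hxpos
      subst hF1
      refine ⟨⟨toF A n F, (BE_Zh A n F).2 hwZ⟩, ?_, ?_⟩
      · rw [LinearEquiv.trans_apply, he1, BF_Psi_of A n F hwZ, hw1]
        exact E'.apply_symm_apply x
      · have h9 := hb2 x
        rw [BD_norm A n F _ (by positivity)]
        have h10 : ‖(Submodule.Quotient.mk F : Y A n)‖ < ‖E'.symm x‖ + ‖x‖ := hw2
        have h11 : ‖F‖ < ‖(Submodule.Quotient.mk F : Y A n)‖ + ‖x‖ := hF2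
        have h12 : 0 ≤ C1 * ‖x‖ := by positivity
        have h13 : (C1 + (C2 + 2)) * ‖x‖ = C1 * ‖x‖ + C2 * ‖x‖ + ‖x‖ + ‖x‖ := by ring
        rw [h13]
        linarith

end H504C
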