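import Pool.Agent.H504C.ToF
import Pool.Agent.H504C.Final

set_option autoImplicit false

namespace H504C

open Finset

variable (A : Type) [NonUnitalCStarAlgebra A]

/-- a cochain as a plain function -/
noncomputable def toG (n : ℕ) (φ : Cn A n) : (Fin (n + 1) → A) → ℂ := fun a => φ a

theorem BG_inj (n : ℕ) (φ ψ : Cn A n) (h : toG A n φ = toG A n ψ) : φ = ψ :=
  ContinuousMultilinearMap.ext fun a => congrFun h a

theorem BG_bL (n : ℕ) (φ : Cn A n) : H504CT.bL A n (toG A n φ) = toG A (n + 1) (b A n φ) := by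
  funext a
  show H504CT.bf (toG A n φ) a = b A n φ a
  rw [b_apply]
  rfl

theorem BG_cyc (n : ℕ) (φ : Cn A n) : toG A n φ ∈ H504CT.Cyc A n ↔ φ ∈ cyc A n :=
  ⟨fun h => h.2, fun h => ⟨⟨φ, fun _ => rfl⟩, h⟩⟩

theorem BG_cyc' (n : ℕ) (f : (Fin (n + 1) → A) → ℂ) (h : f ∈ H504CT.Cyc A n) :
    ∃ φ : Cn A n, φ ∈ cyc A n ∧ f = toG A n φ := by
  obtain ⟨⟨φ, hφ⟩, h2⟩ := h
  have e : f = toG A n φ := funext hφ
  subst e
  exact ⟨φ, h2, rfl⟩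

theorem BG_add (n : ℕ) (φ ψ : Cn A n) : toG A n (φ + ψ) = toG A n φ + toG A n ψ := rfl
theorem BG_sub (n : ℕ) (φ ψ : Cn A n) : toG A n (φ - ψ) = toG A n φ - toG A n ψ := rfl
theorem BG_smul (n : ℕ) (c : ℂ) (φ : Cn A n) : toG A n (c • φ) = c • toG A n φ := rfl
theorem BG_zero (n : ℕ) : toG A n 0 = 0 := rfl

theorem BG_Zc (n : ℕ) (φ : Cn A n) : toG A n φ ∈ H504CT.Zc A n ↔ φ ∈ Zc A n := by
  constructor
  · rintro ⟨h1, h2⟩
    refine ⟨(BG_cyc A n φ).1 h1, ?_⟩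
    have h2 : H504CT.bL A n (toG A n φ) = 0 := h2
    rw [BG_bL] at h2
    exact BG_inj A (n + 1) _ _ h2
  · rintro ⟨h1, h2⟩
    refine ⟨(BG_cyc A n φ).2 h1, ?_⟩
    have h2 : b A n φ = 0 := h2
    show H504CT.bL A n (toG A n φ) = 0
    rw [BG_bL, h2]
    rfl

theorem BG_Zc' (n : ℕ) (f : (Fin (n + 1) → A) → ℂ) (h : f ∈ H504CT.Zc A n) :
    ∃ φ : Cn A n, φ ∈ Zc A n ∧ f = toG A n φ := by
  obtain ⟨φ, _, rfl⟩ := BG_cyc' A n f h.1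
  exact ⟨φ, (BG_Zc A n φ).1 h, rfl⟩

theorem BG_Bc (n : ℕ) (φ : Cn A n) : toG A n φ ∈ H504CT.Bc A n ↔ φ ∈ Bc A n := by
  cases n with
  | zero =>
    constructor
    · intro h
      have h : toG A 0 φ = 0 := h
      have : φ = 0 := BG_inj A 0 _ _ h
      rw [this]
      exact (Bc A 0).zero_mem
    · intro h
      have h : φ = 0 := h
      rw [h]
      exact (H504CT.Bc A 0).zero_mem
  | succ m =>
    constructor
    · rintro ⟨f, hf, h2⟩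
      obtain ⟨ψ, hψ, rfl⟩ := BG_cyc' A m f hf
      rw [BG_bL] at h2
      exact ⟨ψ, hψ, BG_inj A (m + 1) _ _ h2⟩
    · rintro ⟨ψ, hψ, h2⟩
      refine ⟨toG A m ψ, (BG_cyc A m ψ).2 hψ, ?_⟩
      have h2 : b A m ψ = φ := h2
      rw [BG_bL, h2]

theorem BG_Bc' (n : ℕ) (f : (Fin (n + 1) → A) → ℂ) (h : f ∈ H504CT.Bc A n) :
    ∃ φ : Cn A n, φ ∈ Bc A n ∧ f = toG A n φ := by
  cases n with
  | zero =>
    have h : f = 0 := h
    exact ⟨0, (Bc A 0).zero_mem, h⟩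
  | succ m =>
    obtain ⟨g, hg, h2⟩ := h
    obtain ⟨ψ, hψ, rfl⟩ := BG_cyc' A m g hg
    refine ⟨b A m ψ, ⟨ψ, hψ, rfl⟩, ?_⟩
    rw [← h2, BG_bL]

theorem BG_Bc_le (n : ℕ) : H504CT.Bc A n ≤ H504CT.Zc A n := by
  intro f hf
  obtain ⟨φ, hφ, rfl⟩ := BG_Bc' A n f hf
  exact (BG_Zc A n φ).2 (Bc_le A n hφ)

theorem BG_coh_odd (hH : HHv A) (n : ℕ) (hn : Odd n) : H504CT.Zc A n = H504CT.Bc A n := by
  refine le_antisymm (fun f hf => ?_) (BG_Bc_le A n)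
  obtain ⟨φ, hφ, rfl⟩ := BG_Zc' A n f hf
  exact (BG_Bc A n φ).2 (coh_odd' A hH n hn φ hφ)

theorem BG_nb (n : ℕ) (φ : Cn A n) (K : ℝ) (hK : 0 ≤ K) (h : H504CT.Nb A n (toG A n φ) K) : ‖φ‖ ≤ K :=
  ContinuousMultilinearMap.opNorm_le_bound hK h

/-- the map `τ ↦ τ(a_0 ⋯ a_n)` into the cocycles -/
noncomputable def BG_S (n : ℕ) (hn : Even n) : H504CT.TA A →ₗ[ℂ] H504CT.Zc A n where
  toFun τ := ⟨toG A n (mt A n τ.1), (BG_Zc A n _).2 (mt_mem A n hn τ.1 τ.2)⟩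
  map_add' σ τ := by
    apply Subtype.ext
    show toG A n (mt A n (σ.1 + τ.1)) = toG A n (mt A n σ.1) + toG A n (mt A n τ.1)
    rw [← BG_add]
    congr 1
    exact map_add _ _ _
  map_smul' c τ := by
    apply Subtype.ext
    show toG A n (mt A n (c • τ.1)) = c • toG A n (mt A n τ.1)
    rw [← BG_smul]
    congr 1
    exact map_smul _ _ _

theorem BG_coh_even (hH : HHv A) (n : ℕ) (hn : Even n) :
    H504CT.TopIso (H504CT.Zc A n) (H504CT.Bc A n) (H504CT.Nb A n) (H504CT.TA A) := by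
  obtain ⟨C, hC⟩ := coh_bound A hH n hn
  let L : H504CT.TA A →ₗ[ℂ] (H504CT.Zc A n ⧸ (H504CT.Bc A n).submoduleOf (H504CT.Zc A n)) :=
    (Submodule.mkQ _).comp (BG_S A n hn)
  have hL : ∀ τ, L τ = Submodule.Quotient.mk (BG_S A n hn τ) := fun τ => rfl
  have hmk : ∀ (z : H504CT.Zc A n) (φ : Cn A n) (τ : H504CT.TA A), z.1 = toG A n φ →
      φ - mt A n τ.1 ∈ Bc A n → L τ = Submodule.Quotient.mk z := by
    intro z φ τ hz h
    rw [hL, Submodule.Quotient.eq]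
    show toG A n (mt A n τ.1) - z.1 ∈ H504CT.Bc A n
    rw [hz, ← BG_sub, BG_Bc]
    have := (Bc A n).neg_mem h
    rwa [neg_sub] at this
  have hinj : Function.Injective L := by
    rw [injective_iff_map_eq_zero]
    intro τ hτ
    rw [hL, Submodule.Quotient.mk_eq_zero] at hτ
    have hτ : toG A n (mt A n τ.1) ∈ H504CT.Bc A n := hτ
    rw [BG_Bc] at hτ
    exact Subtype.ext (coh_uniq A hH n hn τ.1 τ.2 hτ)
  have hsurj : Function.Surjective L := by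
    intro q
    obtain ⟨z, rfl⟩ := Submodule.Quotient.mk_surjective _ q
    obtain ⟨φ, hφ, hz⟩ := BG_Zc' A n z.1 z.2
    obtain ⟨τ, hτ, _, h2⟩ := hC φ hφ
    exact ⟨⟨τ, hτ⟩, hmk z φ ⟨τ, hτ⟩ hz h2⟩
  let e := (LinearEquiv.ofBijective L ⟨hinj, hsurj⟩).symm
  have he : ∀ τ, e (L τ) = τ := fun τ => (LinearEquiv.ofBijective L ⟨hinj, hsurj⟩).symm_apply_apply τ
  refine ⟨e, max C 1, fun z K hK hN => ?_, fun τ => ⟨BG_S A n hn τ, he τ, ?_⟩⟩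
  · obtain ⟨φ, hφ, hz⟩ := BG_Zc' A n z.1 z.2
    obtain ⟨τ, hτ, h1, h2⟩ := hC φ hφ
    rw [← hmk z φ ⟨τ, hτ⟩ hz h2, he]
    have hφK : ‖φ‖ ≤ K := BG_nb A n φ K hK (by rw [← hz]; exact hN)
    show ‖τ‖ ≤ max C 1 * K
    calc ‖τ‖ ≤ C * ‖φ‖ := h1
      _ ≤ max C 1 * ‖φ‖ := mul_le_mul_of_nonneg_right (le_max_left _ _) (norm_nonneg _)
      _ ≤ max C 1 * K := mul_le_mul_of_nonneg_left hφK (le_trans zero_le_one (le_max_right _ _))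
  · intro a
    show ‖mt A n τ.1 a‖ ≤ max C 1 * ‖τ‖ * ∏ i, ‖a i‖
    rw [mt_apply]
    have h1 : ‖τ.1 (prd n a)‖ ≤ ‖τ.1‖ * ‖prd n a‖ := τ.1.le_opNorm _
    have h2 : ‖prd n a‖ ≤ ∏ i, ‖a i‖ := prd_norm n a
    have h3 : ‖τ.1‖ = ‖τ‖ := rfl
    rw [h3] at h1
    have h4 : (1 : ℝ) ≤ max C 1 := le_max_right _ _
    have h5 : 0 ≤ ‖τ‖ := (norm_nonneg τ.1 : 0 ≤ ‖τ.1‖)
    have h6 : 0 ≤ ∏ i, ‖a i‖ := Finset.prod_nonneg fun _ _ => norm_nonneg _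
    calc ‖τ.1 (prd n a)‖ ≤ ‖τ‖ * ‖prd n a‖ := h1
      _ ≤ ‖τ‖ * ∏ i, ‖a i‖ := mul_le_mul_of_nonneg_left h2 h5
      _ ≤ max C 1 * ‖τ‖ * ∏ i, ‖a i‖ := by
        refine mul_le_mul_of_nonneg_right ?_ h6
        nlinarith

end H504C
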