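import Pool.Agent.H504C.Defs

set_option autoImplicit false

namespace H504C

open Finset

variable (A : Type) [NonUnitalCStarAlgebra A]

theorem CF_bf_cons (n : ℕ) (φ : Cn A n) (a : Fin (n + 1) → A) (y : A) :
    bf φ (Fin.cons y a : Fin (n + 2) → A) =
      φ (Fin.cons (y * a 0) (Fin.tail a) : Fin (n + 1) → A)
        + ∑ i : Fin n, (-1 : ℂ) ^ ((i : ℕ) + 1) *
            φ (Fin.cons y (fun j : Fin n =>
                if (j : ℕ) < (i : ℕ) then a (Fin.castSucc j)
                else if (j : ℕ) = (i : ℕ) then a (Fin.castSucc j) * a (Fin.succ j)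
                else a (Fin.succ j)) : Fin (n + 1) → A)
        + (-1 : ℂ) ^ (n + 1) *
            φ (Fin.cons (a (Fin.last n) * y) (Fin.init a) : Fin (n + 1) → A) := by
  unfold bf bpf
  rw [Fin.sum_univ_succ]
  have h0 : mulAt (0 : Fin (n + 1)) (Fin.cons y a : Fin (n + 2) → A) =
      (Fin.cons (y * a 0) (Fin.tail a) : Fin (n + 1) → A) := by
    funext j
    refine Fin.cases ?_ (fun j' => ?_) j
    · show (if (0 : Fin (n + 1)) < 0 then _ else if (0 : Fin (n + 1)) = 0 then _ else _) = _
      rw [if_neg (lt_irrefl _), if_pos rfl]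
      rfl
    · show (if j'.succ < 0 then _ else if j'.succ = 0 then _ else _) = _
      rw [if_neg (Fin.not_lt_zero _), if_neg (Fin.succ_ne_zero _)]
      rfl
  have h1 : ∀ i : Fin n, mulAt i.succ (Fin.cons y a : Fin (n + 2) → A) =
      (Fin.cons y (fun j : Fin n =>
                if (j : ℕ) < (i : ℕ) then a (Fin.castSucc j)
                else if (j : ℕ) = (i : ℕ) then a (Fin.castSucc j) * a (Fin.succ j)
                else a (Fin.succ j)) : Fin (n + 1) → A) := by
    intro i
    funext j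
    refine Fin.cases ?_ (fun j' => ?_) j
    · show (if (0 : Fin (n + 1)) < i.succ then _ else _) = _
      rw [if_pos (Fin.succ_pos i)]
      rfl
    · show (if j'.succ < i.succ then _ else if j'.succ = i.succ then _ else _) =
        (if (j' : ℕ) < (i : ℕ) then a (Fin.castSucc j')
                else if (j' : ℕ) = (i : ℕ) then a (Fin.castSucc j') * a (Fin.succ j')
                else a (Fin.succ j'))
      have e1 : (j'.succ < i.succ) ↔ (j' : ℕ) < (i : ℕ) := by
        rw [Fin.succ_lt_succ_iff]; rfl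
      have e2 : (j'.succ = i.succ) ↔ (j' : ℕ) = (i : ℕ) := by
        rw [Fin.succ_inj]; exact Fin.ext_iff
      simp only [e1, e2]
      rfl
  have h2 : mulLast (Fin.cons y a : Fin (n + 2) → A) =
      (Fin.cons (a (Fin.last n) * y) (Fin.init a) : Fin (n + 1) → A) := by
    funext j
    refine Fin.cases ?_ (fun j' => ?_) j
    · show (if (0 : Fin (n + 1)) = 0 then _ else _) = _
      rw [if_pos rfl]
      rfl
    · show (if j'.succ = 0 then _ else _) = _
      rw [if_neg (Fin.succ_ne_zero _)]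
      rfl
  rw [h0, h2]
  congr 1
  congr 1
  · rw [Fin.val_zero, pow_zero, one_mul]
  · refine Finset.sum_congr rfl (fun i _ => ?_)
    rw [h1 i, Fin.val_succ]

theorem CF_HH_of (hb : ∀ (B : Type) [NonUnitalCStarAlgebra B] (n : ℕ) (φ : Cn B n)
      (a : Fin (n + 2) → B), b B n φ a = bf φ a)
    (hmain : ∀ (A : Type) [NonUnitalCStarAlgebra A] (m : ℕ)
      (T : ContinuousMultilinearMap ℂ (fun _ : Fin (m + 1) => A) (A →L[ℂ] ℂ)),
      (∀ (a : Fin (m + 1 + 1) → A) (b : A),
        T (Fin.tail a) (b * a 0)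
          + ∑ i : Fin (m + 1), (-1 : ℂ) ^ ((i : ℕ) + 1) *
              T (fun j : Fin (m + 1) =>
                  if (j : ℕ) < (i : ℕ) then a (Fin.castSucc j)
                  else if (j : ℕ) = (i : ℕ) then a (Fin.castSucc j) * a (Fin.succ j)
                  else a (Fin.succ j)) b
          + (-1 : ℂ) ^ (m + 1 + 1) * T (Fin.init a) (a (Fin.last (m + 1)) * b) = 0) →
      ∃ S : ContinuousMultilinearMap ℂ (fun _ : Fin m => A) (A →L[ℂ] ℂ),
        ∀ (a : Fin (m + 1) → A) (b : A),
          T a b =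
            S (Fin.tail a) (b * a 0)
              + ∑ i : Fin m, (-1 : ℂ) ^ ((i : ℕ) + 1) *
                  S (fun j : Fin m =>
                      if (j : ℕ) < (i : ℕ) then a (Fin.castSucc j)
                      else if (j : ℕ) = (i : ℕ) then a (Fin.castSucc j) * a (Fin.succ j)
                      else a (Fin.succ j)) b
              + (-1 : ℂ) ^ (m + 1) * S (Fin.init a) (a (Fin.last m) * b)) : HHv A := by
  intro n φ hφ
  let φ' : ContinuousMultilinearMap ℂ (fun _ : Fin (n + 1 + 1) => A) ℂ := φ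
  let T : ContinuousMultilinearMap ℂ (fun _ : Fin (n + 1) => A) (A →L[ℂ] ℂ) :=
    ContinuousLinearMap.flipMultilinear (ContinuousMultilinearMap.curryLeft φ')
  have hT : ∀ (a : Fin (n + 1) → A) (y : A), T a y = φ (Fin.cons y a : Fin (n + 1 + 1) → A) :=
    fun a y => rfl
  obtain ⟨S, hS⟩ := hmain A n T (by
    intro a y
    have h1 := hb A (n + 1) φ (Fin.cons y a : Fin (n + 1 + 2) → A)
    rw [hφ, CF_bf_cons] at h1
    have h2 : (0 : Cn A (n + 1 + 1)) (Fin.cons y a : Fin (n + 1 + 2) → A) = 0 := rfl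
    rw [h2] at h1
    exact h1.symm)
  let Sf : A →L[ℂ] ContinuousMultilinearMap ℂ (fun _ : Fin n => A) ℂ :=
    ContinuousMultilinearMap.flipLinear S
  let ψ' : ContinuousMultilinearMap ℂ (fun _ : Fin (n + 1) => A) ℂ :=
    ContinuousLinearMap.uncurryLeft (Ei := fun _ : Fin (n + 1) => A) Sf
  have hψ : ∀ (a : Fin n → A) (y : A), ψ' (Fin.cons y a : Fin (n + 1) → A) = S a y :=
    fun a y => rfl
  let ψ : Cn A n := ψ'
  refine ⟨ψ, ?_⟩
  have hext : ∀ x : Fin (n + 1 + 1) → A, b A n ψ x = φ x := by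
    intro x
    have hx : (Fin.cons (x 0) (Fin.tail x) : Fin (n + 1 + 1) → A) = x := Fin.cons_self_tail x
    have h3 := CF_bf_cons A n ψ (Fin.tail x) (x 0)
    have h4 := hb A n ψ (Fin.cons (x 0) (Fin.tail x) : Fin (n + 1 + 1) → A)
    have h5 := (h4.trans h3).trans (hS (Fin.tail x) (x 0)).symm
    rw [hT (Fin.tail x) (x 0)] at h5
    rw [hx] at h5
    exact h5
  exact ContinuousMultilinearMap.ext hext

end H504C
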