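import Pool.Agent.H504C.St
import Pool.Agent.H504C.Defs

set_option autoImplicit false

namespace H504C

variable (A : Type) [NonUnitalCStarAlgebra A]

/-- an element of the tensor power as a plain function -/
noncomputable def toF (n : ℕ) (F : X A n) : H504CT.Co A n → ℂ := fun φ => F.1 φ

end H504C
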