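import Pool.Agent.H504C.TaskCA
import Pool.Agent.H504C.TaskCF

set_option autoImplicit false

namespace H504C

open Finset

variable (A : Type) [NonUnitalCStarAlgebra A]

theorem HH_of (hmain : ∀ (A : Type) [NonUnitalCStarAlgebra A] (m : ℕ)
      (T : ContinuousMultilinearMap ℂ (fun _ : Fin (m + 1) => A) (A →L[ℂ] ℂ)),
      (∀ (a : Fin (m + 1 + 1) → A) (b : A),
        T (Fin.tail a) (b * a 0)
          + ∑ i : Fin (m + 1), (-1 : ℂ) ^ ((i : ℕ) + 1) *
              T (fun j : Fin (m + 1) =>
                  if (j : ℕ) < (i : ℕ) then a (Fin.castSucc j)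
                  else if (j : ℕ) = (i : ℕ) then a (Fin.castSucc j) * a (Fin.succ j)
                  else a (Fin.succ j)) b
          + (-1 : ℂ) ^ (m + 1 + 1) * T (Fin.init a) (a (Fin.last (m + 1)) * b) = 0) →
      ∃ S : ContinuousMultilinearMap ℂ (fun _ : Fin m => A) (A →L[ℂ] ℂ),
        ∀ (a : Fin (m + 1) → A) (b : A),
          T a b =
            S (Fin.tail a) (b * a 0)
              + ∑ i : Fin m, (-1 : ℂ) ^ ((i : ℕ) + 1) *
                  S (fun j : Fin m =>
                      if (j : ℕ) < (i : ℕ) then a (Fin.castSucc j)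
                      else if (j : ℕ) = (i : ℕ) then a (Fin.castSucc j) * a (Fin.succ j)
                      else a (Fin.succ j)) b
              + (-1 : ℂ) ^ (m + 1) * S (Fin.init a) (a (Fin.last m) * b)) : HHv A :=
  CF_HH_of A (fun B _ n φ a => b_apply B n φ a) hmain

end H504C
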